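import Pool.Agent.BR80.Inv
import Pool.Agent.BR80.ShaGS

/-!
# Acyclic modules
-/

set_option autoImplicit false

namespace Pool.Agent.BRW

open Filter Topology Pool.Agent.BR80

/-- If `L` has no cohomology in degree `m + 1` and `M` has none in degree `m` then `K` has none in
degree `m + 1`. -/
theorem acyc_left {K L M : Cx} (s : SES K L M) (m : ℕ) (hL : L.Acyc (m + 1)) (hM : M.Acyc m) :
    K.Acyc (m + 1) := by

  intro x hx
  have h1 : s.i.f (m + 1) x ∈ L.Zg (m + 1) := s.i.map_Zg hx
  obtain ⟨y, hy⟩ := Cx.mem_Bg_succ.1 (hL _ h1)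
  have h2 : s.p.f m y ∈ M.Zg m := by
    rw [Cx.mem_Zg, ← s.p.comm, hy]
    exact s.pi _ _
  have key : ∀ y' : L.C m, L.d m y' = s.i.f (m + 1) x → s.p.f m y' = 0 → x ∈ K.Bg (m + 1) := by
    intro y' h3 h4
    obtain ⟨w, hw⟩ := s.exact m y' h4
    refine Cx.mem_Bg_succ.2 ⟨w, ?_⟩
    have h5 : s.i.f (m + 1) (K.d m w - x) = 0 := by
      rw [map_sub, s.i.comm, hw, h3, sub_self]
    exact sub_eq_zero.1 (s.inj _ _ h5)
  have h3 := hM _ h2
  cases m with
  | zero => exact key y hy (Cx.mem_Bg_zero.1 h3)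
  | succ m =>
    obtain ⟨z, hz⟩ := Cx.mem_Bg_succ.1 h3
    obtain ⟨y', hy'⟩ := s.surj m z
    refine key (y - L.d m y') ?_ ?_
    · rw [map_sub, hy, L.dd, sub_zero]
    · rw [map_sub, s.p.comm, hy', hz, sub_self]

/-- Isomorphic modules over isomorphic groups. -/
theorem acyc_congr (S T : GM) (φ : S.G ≃* T.G) (u : S.M ≃+ T.M)
    (comm : ∀ g x, u (S.ρ g x) = T.ρ (φ g) (u x)) (m : ℕ) (h : T.cx.Acyc m) : S.cx.Acyc m := by

  let a : GM.Hom S T := ⟨φ.toMonoidHom, u.symm.toAddMonoidHom, fun g x => by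
    change u.symm (T.ρ (φ g) x) = S.ρ g (u.symm x)
    rw [AddEquiv.symm_apply_eq, comm, AddEquiv.apply_symm_apply]⟩
  let b : GM.Hom T S := ⟨φ.symm.toMonoidHom, u.toAddMonoidHom, fun g x => by
    change u (S.ρ (φ.symm g) x) = T.ρ g (u x)
    rw [comm, MulEquiv.apply_symm_apply]⟩
  intro x hx
  have h1 := a.cx.map_Bg (h _ (b.cx.map_Zg hx))
  have h2 : a.cx.f m (b.cx.f m x) = x := by
    funext g
    change u.symm (u (x fun i => φ.symm (φ (g i)))) = x g
    rw [AddEquiv.symm_apply_apply]
    congr 1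
    funext i
    exact φ.symm_apply_apply _
  rwa [h2] at h1

/-- The trivial group. -/
theorem acyc_triv (S : GM) [Subsingleton S.G] (m : ℕ) : S.cx.Acyc (m + 1) := by

  refine acyc_congr S (GM.coind S.G S.M) (MulEquiv.refl _)
    { toFun := fun x _ => x
      invFun := fun f => f 1
      left_inv := fun _ => rfl
      right_inv := fun f => funext fun g => by
        change f 1 = f g
        rw [Subsingleton.elim g 1]
      map_add' := fun _ _ => rfl } (fun g x => ?_) (m + 1) (GM.coind_acyc _ _ m)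
  funext y
  change S.ρ g x = x
  rw [Subsingleton.elim g 1, S.ρ_one]

private theorem a2_int {A : Type} [AddCommGroup A] (h : ℤ → A) :
    ∃ F : ℤ → A, ∀ n, F (n + 1) - F n = h n := by
  refine ⟨fun n => (Finset.Ico 0 n).sum h - (Finset.Ico n 0).sum h, fun n => ?_⟩
  rcases lt_or_ge n 0 with hn | hn
  · have h1 : Finset.Ico 0 n = ∅ := Finset.Ico_eq_empty (by omega)
    have h2 : Finset.Ico 0 (n + 1) = ∅ := Finset.Ico_eq_empty (by omega)
    have h3 : Finset.Ico n 0 = insert n (Finset.Ico (n + 1) 0) := by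
      ext k
      simp only [Finset.mem_Ico, Finset.mem_insert]
      omega
    have h4 : n ∉ Finset.Ico (n + 1) 0 := by
      simp only [Finset.mem_Ico]
      omega
    simp only [h1, h2, h3, Finset.sum_empty, Finset.sum_insert h4]
    abel
  · have h1 : Finset.Ico n 0 = ∅ := Finset.Ico_eq_empty (by omega)
    have h2 : Finset.Ico (n + 1) 0 = ∅ := Finset.Ico_eq_empty (by omega)
    have h3 : Finset.Ico 0 (n + 1) = insert n (Finset.Ico 0 n) := by
      ext k
      simp only [Finset.mem_Ico, Finset.mem_insert]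
      omega
    have h4 : n ∉ Finset.Ico 0 n := by
      simp only [Finset.mem_Ico]
      omega
    simp only [h1, h2, h3, Finset.sum_empty, Finset.sum_insert h4]
    abel

private theorem a2_one (S : GM) (t : S.G) (h1 : ∀ g : S.G, ∃ n : ℤ, g = t ^ n)
    (hs : ∀ x : S.M, ∃ y, S.ρ t y - y = x) : S.cx.Acyc 1 := by
  intro c hc
  have hc1 : ∀ g h : S.G, S.ρ g (c ![h]) + (-(c ![g * h]) + c ![g]) = 0 := by
    intro g h
    have h2 : S.cx.d 1 c ![g, h] = (0 : S.M) := congrFun (show S.cx.d 1 c = 0 from hc) ![g, h]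
    rw [GM.cx_d, Fin.sum_univ_two] at h2
    have e1 : (fun i : Fin 1 => (![g, h] : Fin 2 → S.G) i.succ) = ![h] := by
      funext i
      fin_cases i
      rfl
    have e2 : Fin.contractNth 0 (· * ·) (![g, h] : Fin 2 → S.G) = ![g * h] := by
      funext i
      fin_cases i
      simp [Fin.contractNth]
    have e3 : Fin.contractNth 1 (· * ·) (![g, h] : Fin 2 → S.G) = ![g] := by
      funext i
      fin_cases i
      simp [Fin.contractNth]
    rw [e1, e2, e3] at h2
    simpa using h2
  obtain ⟨y, hy⟩ := hs (c ![t])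
  have h3 : ∀ g h : S.G, c ![g * h] = S.ρ g (c ![h]) + c ![g] := by
    intro g h
    have := hc1 g h
    rw [← add_assoc, ← sub_eq_add_neg, sub_add_eq_add_sub, sub_eq_zero] at this
    exact this.symm
  have h4 : ∀ g h : S.G, c ![g] = S.ρ g y - y → c ![h] = S.ρ h y - y →
      c ![g * h] = S.ρ (g * h) y - y := by
    intro g h e1 e2
    rw [h3, e1, e2, map_sub, S.ρ_mul]
    abel
  have h5 : c ![1] = S.ρ 1 y - y := by
    have := h3 1 1
    rw [one_mul, S.ρ_one, left_eq_add] at this
    rw [this, S.ρ_one, sub_self]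
  have h6 : ∀ g : S.G, c ![g] = S.ρ g y - y → c ![g⁻¹] = S.ρ g⁻¹ y - y := by
    intro g e1
    have e2 := h3 g⁻¹ g
    rw [inv_mul_cancel, h5, e1, map_sub, ← S.ρ_mul, inv_mul_cancel, S.ρ_one] at e2
    have e3 : c ![g⁻¹] = (y - y) - (y - S.ρ g⁻¹ y) := by
      rw [e2]
      abel
    rw [e3]
    abel
  have h7 : ∀ n : ℕ, c ![t ^ n] = S.ρ (t ^ n) y - y := by
    intro n
    induction n with
    | zero =>
      rw [pow_zero]
      exact h5
    | succ n ih =>
      rw [pow_succ]
      exact h4 _ _ ih hy.symm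
  have h8 : ∀ g : S.G, c ![g] = S.ρ g y - y := by
    intro g
    obtain ⟨n, rfl⟩ := h1 g
    obtain ⟨k, rfl | rfl⟩ := n.eq_nat_or_neg
    · rw [zpow_natCast]
      exact h7 k
    · rw [zpow_neg, zpow_natCast]
      exact h6 _ (h7 k)
  refine Cx.mem_Bg_succ.2 ⟨fun _ => y, ?_⟩
  funext g
  rw [GM.cx_d, Fin.sum_univ_one]
  have e1 : g = ![g 0] := by
    funext i
    fin_cases i
    rfl
  rw [e1]
  have := h8 (g 0)
  rw [this]
  simp [sub_eq_add_neg]

private theorem a2_quo (S : GM) (t : S.G) (h1 : ∀ g : S.G, ∃ n : ℤ, g = t ^ n)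
    (h2 : ∀ n : ℤ, t ^ n = 1 → n = 0) (x : S.quo.M) : ∃ y, S.quo.ρ t y - y = x := by
  obtain ⟨f, rfl⟩ := QuotientAddGroup.mk_surjective x
  choose e he using h1
  have he1 : ∀ g : S.G, e (g * t) = e g + 1 := by
    intro g
    have h3 : t ^ (e (g * t) - (e g + 1)) = 1 := by
      rw [zpow_sub, ← he (g * t), zpow_add, ← he g, zpow_one, mul_inv_cancel]
    have := h2 _ h3
    omega
  obtain ⟨F, hF⟩ := a2_int (fun n : ℤ => f (t ^ n))
  refine ⟨((fun g => F (e g) : S.G → S.M) : (S.G → S.M) ⧸ S.emb.range), ?_⟩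
  have h4 : (fun g => F (e (g * t)) : S.G → S.M) - (fun g => F (e g)) = f := by
    funext g
    change F (e (g * t)) - F (e g) = f g
    rw [he1, hF, ← he g]
  change QuotientAddGroup.mk' S.emb.range (fun g => F (e (g * t)) : S.G → S.M) -
    QuotientAddGroup.mk' S.emb.range (fun g => F (e g)) = QuotientAddGroup.mk' S.emb.range f
  rw [← map_sub]
  exact congrArg _ h4

/-- The infinite cyclic group. -/
theorem acyc_cyc (S : GM) (t : S.G) (h1 : ∀ g : S.G, ∃ n : ℤ, g = t ^ n)
    (h2 : ∀ n : ℤ, t ^ n = 1 → n = 0) (hs : ∀ x : S.M, ∃ y, S.ρ t y - y = x) (m : ℕ) :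
    S.cx.Acyc (m + 1) := by

  induction m generalizing S with
  | zero => exact a2_one S t h1 hs
  | succ m ih =>
    obtain ⟨s, _, _⟩ := S.exists_ses
    exact acyc_left s (m + 1) (GM.coind_acyc _ _ (m + 1))
      (ih S.quo t h1 h2 (a2_quo S t h1 h2))

/-- An extension: `S` over `T`. -/
theorem acyc_ext (S T : GM) (a : GM.Hom S T) (hφ : Function.Surjective a.φ)
    (hu : Function.Injective a.u)
    (hr : ∀ x : S.M, (∀ g ∈ a.φ.ker, S.ρ g x = x) → ∃ y, a.u y = x)
    (hN : ∀ m, (S.res a.φ.ker).cx.Acyc (m + 1)) (hT : ∀ m, T.cx.Acyc (m + 1)) (m : ℕ) :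
    S.cx.Acyc (m + 1) := by

  have hq : ∀ k, (S.invQ a.φ.ker).cx.Acyc (k + 1) := by
    intro k
    have hmem : ∀ y : T.M, a.u y ∈ S.invSub a.φ.ker := by
      intro y g hg
      rw [← a.comm, MonoidHom.mem_ker.1 hg, T.ρ_one]
    let v : T.M →+ S.invSub a.φ.ker := a.u.codRestrict _ hmem
    have hv : Function.Bijective v := by
      constructor
      · intro y y' h
        exact hu (congrArg Subtype.val h)
      · intro x
        obtain ⟨y, hy⟩ := hr x.1 x.2
        exact ⟨y, Subtype.ext hy⟩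
    let e : T.M ≃+ (S.invQ a.φ.ker).M :=
      AddEquiv.ofBijective (show T.M →+ (S.invQ a.φ.ker).M from v) hv
    refine acyc_congr (S.invQ a.φ.ker) T
      (QuotientGroup.quotientKerEquivOfSurjective a.φ hφ) e.symm ?_ (k + 1) (hT k)
    intro g x
    obtain ⟨g, rfl⟩ := QuotientGroup.mk'_surjective _ g
    rw [AddEquiv.symm_apply_eq]
    obtain ⟨y, rfl⟩ := e.surjective x
    rw [AddEquiv.symm_apply_apply]
    apply Subtype.ext
    exact (a.comm g y).symm
  intro x hx
  obtain ⟨y, hy, hb⟩ := (S.infl_qis a.φ.ker hN (m + 1)).2 x hx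
  have h1 := (S.infl a.φ.ker).cx.map_Bg (hq m y hy)
  have h2 := AddSubgroup.add_mem _ hb h1
  rwa [sub_add_cancel] at h2

/-- The restriction of a group action to an open part. -/
def subGS (S : GS) (D : Type) [MulAction S.G D] (π : S.X → D)
    (hπ : ∀ g x, π (S.act g x) = g • π x) (d : D) : GS where
  G := MulAction.stabilizer S.G d
  X := {x : S.X // π x = d}
  act := fun g x => ⟨S.act g.1 x.1, by rw [hπ, x.2]; exact g.2⟩
  act_one := fun x => Subtype.ext (S.act_one x.1)
  act_mul := fun g h x => Subtype.ext (S.act_mul g.1 h.1 x.1)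
  act_cont := fun g => ((S.act_cont g.1).comp continuous_subtype_val).subtype_mk _

open Classical in
private theorem a4_cont {X W : Type} [TopologicalSpace X] [TopologicalSpace W] [Zero W]
    (p : X → Prop) (hp : IsClopen {x | p x}) (f : {x // p x} → W) (hf : Continuous f) :
    Continuous fun x => if h : p x then f ⟨x, h⟩ else 0 := by
  rw [continuous_iff_continuousAt]
  intro x
  by_cases h : p x
  · have h1 : Topology.IsOpenEmbedding (Subtype.val : {x // p x} → X) :=
      hp.isOpen.isOpenEmbedding_subtypeVal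
    have h2 : ContinuousAt ((fun x => if h : p x then f ⟨x, h⟩ else 0) ∘
        (Subtype.val : {x // p x} → X)) ⟨x, h⟩ := by
      have h3 : (fun x => if h : p x then f ⟨x, h⟩ else 0) ∘ (Subtype.val : {x // p x} → X) = f := by
        funext y
        exact dif_pos y.2
      rw [h3]
      exact hf.continuousAt
    exact (h1.continuousAt_iff (x := ⟨x, h⟩)).1 h2
  · have h1 : ∀ᶠ y in 𝓝 x, ¬ p y := hp.compl.isOpen.mem_nhds h
    refine ContinuousAt.congr (f := fun _ => (0 : W)) continuousAt_const ?_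
    filter_upwards [h1] with y hy
    rw [dif_neg hy]

open Classical in
/-- extension by zero -/
private noncomputable def a4_ext {X W : Type} [TopologicalSpace X] [AddCommGroup W]
    [TopologicalSpace W] [IsTopologicalAddGroup W] (p : X → Prop) (hp : IsClopen {x | p x}) :
    C({x // p x}, W) →+ C(X, W) where
  toFun f := ⟨fun x => if h : p x then f ⟨x, h⟩ else 0, a4_cont p hp _ f.continuous⟩
  map_zero' := by
    refine ContinuousMap.ext fun x => ?_
    change (if h : p x then (0 : W) else 0) = 0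
    split_ifs <;> rfl
  map_add' f f' := by
    refine ContinuousMap.ext fun x => ?_
    change (if h : p x then f ⟨x, h⟩ + f' ⟨x, h⟩ else 0) =
      (if h : p x then f ⟨x, h⟩ else 0) + (if h : p x then f' ⟨x, h⟩ else 0)
    split_ifs
    · rfl
    · rw [add_zero]

private theorem a4_pos {X W : Type} [TopologicalSpace X] [AddCommGroup W]
    [TopologicalSpace W] [IsTopologicalAddGroup W] (p : X → Prop) (hp : IsClopen {x | p x})
    (f : C({x // p x}, W)) (x : X) (h : p x) : a4_ext p hp f x = f ⟨x, h⟩ := dif_pos h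

private theorem a4_neg {X W : Type} [TopologicalSpace X] [AddCommGroup W]
    [TopologicalSpace W] [IsTopologicalAddGroup W] (p : X → Prop) (hp : IsClopen {x | p x})
    (f : C({x // p x}, W)) (x : X) (h : ¬ p x) : a4_ext p hp f x = 0 := dif_neg h

section a4

variable (W : Type) [AddCommGroup W] [TopologicalSpace W] [IsTopologicalAddGroup W]
    (S : GS) (D : Type) [MulAction S.G D] (π : S.X → D)
    (hπ : ∀ g x, π (S.act g x) = g • π x) (hc : IsLocallyConstant π) (d : D)

/-- extension by zero from a fibre -/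
private noncomputable def a4_E' :
    GM.Hom ((S.res (MulAction.stabilizer S.G d)).gm W) ((subGS S D π hπ d).gm W) where
  φ := MonoidHom.id (MulAction.stabilizer S.G d)
  u := a4_ext (X := S.X) (W := W) (fun x => π x = d) (hc.isClopen_fiber d)
  comm := fun g f => by
    refine ContinuousMap.ext fun x => ?_
    have h1 : π (S.act (g⁻¹ : MulAction.stabilizer S.G d).1 x) = d ↔ π x = d := by
      rw [hπ, smul_eq_iff_eq_inv_smul]
      have h2 : ((g⁻¹ : MulAction.stabilizer S.G d).1)⁻¹ • d = d := by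
        rw [inv_smul_eq_iff]
        exact (g⁻¹ : MulAction.stabilizer S.G d).2.symm
      rw [h2]
    change a4_ext (X := S.X) (W := W) (fun x => π x = d) (hc.isClopen_fiber d)
        ((show C({x : S.X // π x = d}, W) from f).comp
          ⟨(subGS S D π hπ d).act (g⁻¹ : MulAction.stabilizer S.G d),
            (subGS S D π hπ d).act_cont (g⁻¹ : MulAction.stabilizer S.G d)⟩) x =
      a4_ext (X := S.X) (W := W) (fun x => π x = d) (hc.isClopen_fiber d)
        (show C({x : S.X // π x = d}, W) from f) (S.act (g⁻¹ : MulAction.stabilizer S.G d).1 x)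
    by_cases h : π x = d
    · rw [a4_pos (fun x : S.X => π x = d) _ _ x h,
        a4_pos (fun x : S.X => π x = d) _ _ _ (h1.2 h)]
      rfl
    · rw [a4_neg (fun x : S.X => π x = d) _ _ x h,
        a4_neg (fun x : S.X => π x = d) _ _ _ (fun h3 => h (h1.1 h3))]

variable [TopologicalSpace D] [DiscreteTopology D]

include hc in
private theorem a4_clopen : IsClopen {x : S.X × D | π x.1 = x.2} := by
  have h1 : Continuous fun x : S.X × D => (π x.1, x.2) :=
    (hc.continuous.comp continuous_fst).prodMk continuous_snd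
  exact (isClopen_discrete {y : D × D | y.1 = y.2}).preimage h1

/-- restriction to the graph -/
private def a4_pre : C(S.X, W) →+ C({x : S.X × D // π x.1 = x.2}, W) where
  toFun := fun f => f.comp ⟨fun x : {x : S.X × D // π x.1 = x.2} => x.1.1, by fun_prop⟩
  map_zero' := rfl
  map_add' := fun _ _ => rfl

/-- extension by zero from the graph of `π` -/
private noncomputable def a4_E : GM.Hom ((S.prodD D).gm W) (S.gm W) where
  φ := MonoidHom.id S.G
  u := (a4_ext (X := S.X × D) (W := W) (fun x => π x.1 = x.2) (a4_clopen S D π hc)).comp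
    (a4_pre W S D π)
  comm := fun (g : S.G) f => by
    refine ContinuousMap.ext fun x => ?_
    have h1 : π (S.act g⁻¹ x.1) = g⁻¹ • x.2 ↔ π x.1 = x.2 := by
      rw [hπ, smul_left_cancel_iff]
    change a4_ext (X := S.X × D) (W := W) (fun x => π x.1 = x.2) (a4_clopen S D π hc)
        (a4_pre W S D π ((show C(S.X, W) from f).comp ⟨S.act g⁻¹, S.act_cont g⁻¹⟩)) x =
      a4_ext (X := S.X × D) (W := W) (fun x => π x.1 = x.2) (a4_clopen S D π hc)
        (a4_pre W S D π (show C(S.X, W) from f)) (S.act g⁻¹ x.1, g⁻¹ • x.2)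
    by_cases h : π x.1 = x.2
    · rw [a4_pos (fun x : S.X × D => π x.1 = x.2) _ _ x h,
        a4_pos (fun x : S.X × D => π x.1 = x.2) _ _ (S.act g⁻¹ x.1, g⁻¹ • x.2) (h1.2 h)]
      rfl
    · rw [a4_neg (fun x : S.X × D => π x.1 = x.2) _ _ x h,
        a4_neg (fun x : S.X × D => π x.1 = x.2) _ _ (S.act g⁻¹ x.1, g⁻¹ • x.2)
          (fun h3 => h (h1.1 h3))]

end a4

/-- Shapiro's lemma for an induced space: if the part over one point of the discrete transitive
`G`-set `D` is acyclic then the whole space is. -/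
theorem acyc_open (W : Type) [AddCommGroup W] [TopologicalSpace W] [IsTopologicalAddGroup W]
    (S : GS) (D : Type) [MulAction S.G D] [MulAction.IsPretransitive S.G D] (π : S.X → D)
    (hπ : ∀ g x, π (S.act g x) = g • π x) (hc : IsLocallyConstant π) (d : D) (m : ℕ)
    (h : ((subGS S D π hπ d).co W).Acyc (m + 1)) : (S.co W).Acyc (m + 1) := by

  let _ : TopologicalSpace D := ⊥
  have _ : DiscreteTopology D := ⟨rfl⟩
  intro c hcz
  let inc : GS.Hom (subGS S D π hπ d) S :=
    ⟨(MulAction.stabilizer S.G d).subtype, ⟨Subtype.val, continuous_subtype_val⟩, fun _ _ => rfl⟩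
  let R : GS.Hom S (S.prodD D) :=
    ⟨MonoidHom.id S.G, ⟨fun x => (x, π x), continuous_id.prodMk hc.continuous⟩, fun g x => by
      change (S.act g x, π (S.act g x)) = (S.act g x, g • π x)
      rw [hπ]⟩
  let E := a4_E W S D π hπ hc
  let E' := a4_E' W S D π hπ hc d
  have h1 : (inc.pull W).f (m + 1) c ∈ ((subGS S D π hπ d).co W).Bg (m + 1) :=
    h _ ((inc.pull W).map_Zg hcz)
  have h2 := E'.cx.map_Bg h1
  have h3 : ((S.shHom D d).pull W).f (m + 1) (E.cx.f (m + 1) c) =
      E'.cx.f (m + 1) ((inc.pull W).f (m + 1) c) := by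
    funext g
    refine ContinuousMap.ext fun x => ?_
    change a4_ext (X := S.X × D) (W := W) (fun x => π x.1 = x.2) (a4_clopen S D π hc)
        (a4_pre W S D π (show C(S.X, W) from c fun i => (g i).1)) (x, d) =
      a4_ext (X := S.X) (W := W) (fun x => π x = d) (hc.isClopen_fiber d)
        ((show C(S.X, W) from c fun i => (g i).1).comp ⟨Subtype.val, continuous_subtype_val⟩) x
    by_cases hx : π x = d
    · rw [a4_pos (fun x : S.X => π x = d) _ _ x hx,
        a4_pos (fun x : S.X × D => π x.1 = x.2) _ _ (x, d) hx]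
      rfl
    · rw [a4_neg (fun x : S.X => π x = d) _ _ x hx,
        a4_neg (fun x : S.X × D => π x.1 = x.2) _ _ (x, d) hx]
  rw [← h3] at h2
  have h4 := (S.shapiro W D d (m + 1)).1 _ (E.cx.map_Zg hcz) h2
  have h5 := (R.pull W).map_Bg h4
  have h6 : (R.pull W).f (m + 1) (E.cx.f (m + 1) c) = c := by
    funext g
    refine ContinuousMap.ext fun x => ?_
    change a4_ext (X := S.X × D) (W := W) (fun x => π x.1 = x.2) (a4_clopen S D π hc)
        (a4_pre W S D π (show C(S.X, W) from c g)) (x, π x) = (show C(S.X, W) from c g) x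
    rw [a4_pos (fun x : S.X × D => π x.1 = x.2) _ _ (x, π x) rfl]
    rfl
  rwa [h6] at h5

end Pool.Agent.BRW
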