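import Pool.Agent.BRW.Gen

/-!
# The construction of the `World`
-/

set_option autoImplicit false

noncomputable section

namespace Pool.Agent.BRW

open Matrix Filter Topology Pool.Agent.BR80
open scoped RestrictedProduct WithZeroTopology

namespace Glob

/-- the world of a family of local fields, given the acyclicity of the vector groups -/
def world (G : Glob) (W : Type) [AddCommGroup W] [TopologicalSpace W] [IsTopologicalAddGroup W]
    [T2Space W] (hac : ∀ (κ : Type) [Finite κ] (Z : Type) [TopologicalSpace Z] (m : ℕ),
      ∀ x ∈ ((vecGS G.F G.A κ Z).co W).Zg (m + 1), x ∈ ((vecGS G.F G.A κ Z).co W).Bg (m + 1)) :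
    World where
  F := G.F
  A := G.A
  W := W
  dense := G.dense
  inj := G.inj
  FF := G.FF
  vec := vec
  vec_inj := fun {_ _} => vec_injective
  face := fun j => (exists_face j).choose
  vec_face := fun j φ => (exists_face j).choose_spec φ
  mul := exists_mul.choose
  vec_mul := fun g φ => exists_mul.choose_spec g φ
  rat := fun X h => (exists_rat X h).choose
  vec_rat := fun X h => (exists_rat X h).choose_spec
  ofGL := exists_ofGL.choose
  vec_ofGL := fun g => exists_ofGL.choose_spec g
  isUnit_det := isUnit_det
  sec := fun h => (exists_sec h).choose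
  sec_spec := fun h φ i j => (exists_sec h).choose_spec φ i j
  gp := fun hr Y _ I _ φ => by
    obtain ⟨ψ, h1, h2⟩ := gp hr Y I φ
    refine ⟨ψ, fun i => ContinuousMap.ext fun y => vec_injective ?_, h2⟩
    exact ((exists_face 0).choose_spec (ψ i y)).trans (h1 i y)
  gen := fun n Z _ a => gen n Z a
  acyc := hac

end Glob

end Pool.Agent.BRW
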