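import Pool.Agent.BRW.Mf

/-!
# Continuous functions on a compact completion of `ℤ^D`
-/

set_option autoImplicit false

namespace Pool.Agent.BRW

open Filter Topology Pool.Agent.BR80

/-- `P` is the profinite completion of `ℤ^D` -/
structure Prof (D : ℕ) (P : Type) [AddCommGroup P] [TopologicalSpace P]
    (e : (Fin D → ℤ) →+ P) : Prop where
  dense : DenseRange e
  opn : ∀ N : ℕ, 0 < N → ∀ᶠ x in 𝓝 (0 : P), ∃ y, x = N • y
  small : ∀ U ∈ 𝓝 (0 : P), ∃ N : ℕ, 0 < N ∧ ∀ x : P, N • x ∈ U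
  div : ∀ N : ℕ, 0 < N → ∀ l x, e l = N • x → ∃ l', l = N • l'

section

variable {D : ℕ} {P : Type} [AddCommGroup P] [TopologicalSpace P] [IsTopologicalAddGroup P]
  {e : (Fin D → ℤ) →+ P} {Z W : Type} [TopologicalSpace Z]

/-- by compactness the restriction of a continuous function is almost periodic -/
theorem res_mem [CompactSpace P] [AddCommGroup W] [TopologicalSpace W] [IsTopologicalAddGroup W]
    (hP : Prof D P e) (f : C(P × Z, W)) : (fun x => f (e x.1, x.2)) ∈ MF D Z W := by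
  classical
  intro U z₀
  have hU0 : (U : Set W) ∈ 𝓝 (0 : W) := U.isOpen.mem_nhds U.zero_mem
  have key : ∀ x : P, ∃ (N : ℕ) (V : Set P) (Q : Set Z), 0 < N ∧ V ∈ 𝓝 x ∧ Q ∈ 𝓝 z₀ ∧
      ∀ x' ∈ V, ∀ y : P, ∀ z ∈ Q, f (x' + N • y, z) - f (x, z₀) ∈ U := by
    intro x
    have h1 : Continuous fun q : P × Z => f (x + q.1, q.2) - f (x, z₀) := by fun_prop
    have h2 : ∀ᶠ q : P × Z in 𝓝 ((0 : P), z₀), f (x + q.1, q.2) - f (x, z₀) ∈ U := by
      have h3 := h1.continuousAt (x := ((0 : P), z₀))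
      have h4 : (U : Set W) ∈ 𝓝 (f (x + ((0 : P), z₀).1, ((0 : P), z₀).2) - f (x, z₀)) := by
        simpa using hU0
      exact h3.eventually h4
    rw [nhds_prod_eq] at h2
    obtain ⟨A, hA, Q, hQ, hAQ⟩ := Filter.mem_prod_iff.1 h2
    have h5 : ∀ᶠ q : P × P in 𝓝 ((0 : P), (0 : P)), q.1 + q.2 ∈ A := by
      have h6 : Continuous fun q : P × P => q.1 + q.2 := by fun_prop
      refine h6.continuousAt.eventually ?_
      simpa using hA
    rw [nhds_prod_eq] at h5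
    obtain ⟨A1, hA1, A2, hA2, hA12⟩ := Filter.mem_prod_iff.1 h5
    obtain ⟨N, hN, hNA⟩ := hP.small A2 hA2
    refine ⟨N, (fun x' => x' - x) ⁻¹' A1, Q, hN, ?_, hQ, ?_⟩
    · have h7 : Continuous fun x' : P => x' - x := by fun_prop
      refine h7.continuousAt.preimage_mem_nhds ?_
      simpa using hA1
    · intro x' hx' y z hz
      have h8 : (x' - x) + N • y ∈ A :=
        hA12 (show ((x' - x), N • y) ∈ A1 ×ˢ A2 from ⟨hx', hNA y⟩)
      have h9 := hAQ (show ((x' - x) + N • y, z) ∈ A ×ˢ Q from ⟨h8, hz⟩)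
      have h10 : x + ((x' - x) + N • y) = x' + N • y := by abel
      rw [Set.mem_ofPred_eq, h10] at h9
      exact h9
  choose N V Q hN hV hQ hNV using key
  obtain ⟨t, -, ht⟩ := isCompact_univ.elim_nhds_subcover V fun x _ => hV x
  refine ⟨∏ x ∈ t, N x, Finset.prod_pos fun x _ => hN x, ?_⟩
  have hev : ∀ᶠ z in 𝓝 z₀, ∀ x ∈ t, z ∈ Q x :=
    (Filter.eventually_all_finset t).2 fun x _ => hQ x
  have hz₀ : ∀ x, z₀ ∈ Q x := fun x => mem_of_mem_nhds (hQ x)
  filter_upwards [hev] with z hz l l'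
  obtain ⟨x, hx, hlx⟩ : ∃ x ∈ t, e l ∈ V x := by
    simpa using ht (Set.mem_univ (e l))
  obtain ⟨k, hk⟩ : ∃ k, ∏ x ∈ t, N x = N x * k :=
    Finset.dvd_prod_of_mem N hx
  have h1 := hNV x (e l) hlx (k • e l') z (hz x hx)
  have h2 := hNV x (e l) hlx 0 z₀ (hz₀ x)
  have h3 := U.sub_mem h1 h2
  have h4 : e (l + (∏ x ∈ t, N x) • l') = e l + N x • k • e l' := by
    rw [map_add, map_nsmul, hk, mul_smul]
  show f (e (l + (∏ x ∈ t, N x) • l'), z) - f (e l, z₀) ∈ U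
  rw [h4]
  have h5 : f (e l + N x • k • e l', z) - f (e l, z₀) =
      (f (e l + N x • k • e l', z) - f (x, z₀)) - (f (e l + N x • (0 : P), z₀) - f (x, z₀)) := by
    rw [smul_zero, add_zero]
    abel
  rw [h5]
  exact h3

theorem res_inj [AddCommGroup W] [TopologicalSpace W] [T2Space W] (hP : Prof D P e)
    (f g : C(P × Z, W)) (h : ∀ l z, f (e l, z) = g (e l, z)) : f = g := by
  ext ⟨x, z⟩
  have hf : Continuous fun x : P => f (x, z) := by fun_prop
  have hg : Continuous fun x : P => g (x, z) := by fun_prop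
  have h1 := hP.dense.equalizer hf hg (funext fun l => h l z)
  exact congrFun h1 x

private theorem c2_nhds (hP : Prof D P e) (x : P) {N : ℕ} (hN : 0 < N) :
    ∀ᶠ x' in 𝓝 x, ∃ y, x' - x = N • y := by
  have h1 : Continuous fun x' : P => x' - x := by fun_prop
  refine h1.continuousAt.eventually (p := fun a => ∃ y, a = N • y) ?_
  simpa using hP.opn N hN

private theorem c2_nhds' (hP : Prof D P e) (x : P) {N : ℕ} (hN : 0 < N) :
    ∀ᶠ x' in 𝓝 x, ∃ y, x - x' = N • y := by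
  filter_upwards [c2_nhds hP x hN] with x' hx'
  obtain ⟨y, hy⟩ := hx'
  exact ⟨-y, by rw [smul_neg, ← hy, neg_sub]⟩

private theorem c2_exists (hP : Prof D P e) (x : P) {N : ℕ} (hN : 0 < N) :
    ∃ l y, x - e l = N • y := by
  obtain ⟨_, ⟨l, rfl⟩, y, hy⟩ := hP.dense.inter_nhds_nonempty (c2_nhds' hP x hN)
  exact ⟨l, y, hy⟩

private theorem c2_diff (hP : Prof D P e) {x : P} {N : ℕ} (hN : 0 < N) {l l₂ : Fin D → ℤ} {y y₂ : P}
    (h : x - e l = N • y) (h₂ : x - e l₂ = N • y₂) : ∃ l', l₂ = l + N • l' := by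
  have h3 : e (l₂ - l) = N • (y - y₂) := by
    rw [map_sub, smul_sub, ← h, ← h₂]
    abel
  obtain ⟨l', hl'⟩ := hP.div N hN _ _ h3
  exact ⟨l', by rw [← hl']; abel⟩

variable [AddCommGroup W] [UniformSpace W] [IsUniformAddGroup W] [CompleteSpace W] [T2Space W]
  [NonarchimedeanAddGroup W]

/-- the value of the extension -/
theorem ext_value (hP : Prof D P e) (f : (Fin D → ℤ) × Z → W) (hf : f ∈ MF D Z W) (x : P) (z : Z) :
    ∃ w : W, ∀ U : OpenAddSubgroup W, ∃ N : ℕ, 0 < N ∧ ∀ l y, x - e l = N • y →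
      f (l, z) - w ∈ U := by
  have hne : (comap e (𝓝 x)).NeBot := by
    rw [comap_neBot_iff]
    intro t ht
    obtain ⟨_, ⟨l, rfl⟩, hl⟩ := hP.dense.inter_nhds_nonempty ht
    exact ⟨l, hl⟩
  have key : ∀ U : OpenAddSubgroup W, ∃ N : ℕ, 0 < N ∧ ∀ l y l₂ y₂, x - e l = N • y →
      x - e l₂ = N • y₂ → f (l₂, z) - f (l, z) ∈ U := by
    intro U
    obtain ⟨N, hN, h⟩ := hf U z
    refine ⟨N, hN, fun l y l₂ y₂ hl hl₂ => ?_⟩
    obtain ⟨l', rfl⟩ := c2_diff hP hN hl hl₂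
    exact h.self_of_nhds l l'
  have hmem : ∀ N : ℕ, 0 < N → {l | ∃ y, x - e l = N • y} ∈ comap e (𝓝 x) := fun N hN =>
    preimage_mem_comap (c2_nhds' hP x hN)
  have hC : Cauchy (map (fun l => f (l, z)) (comap e (𝓝 x))) := by
    rw [cauchy_map_iff]
    refine ⟨hne, ?_⟩
    rw [uniformity_eq_comap_nhds_zero W, tendsto_comap_iff]
    intro V hV
    obtain ⟨U, hU⟩ := NonarchimedeanAddGroup.is_nonarchimedean V hV
    obtain ⟨N, hN, h⟩ := key U
    rw [mem_map]
    refine mem_of_superset (Filter.prod_mem_prod (hmem N hN) (hmem N hN)) ?_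
    rintro ⟨l, l₂⟩ ⟨⟨y, hy⟩, ⟨y₂, hy₂⟩⟩
    exact hU (h l y l₂ y₂ hy hy₂)
  obtain ⟨w, hw⟩ := CompleteSpace.complete hC
  refine ⟨w, fun U => ?_⟩
  obtain ⟨N, hN, h⟩ := key U
  refine ⟨N, hN, fun l y hl => ?_⟩
  have h1 : Tendsto (fun l₂ => f (l, z) - f (l₂, z)) (comap e (𝓝 x)) (𝓝 (f (l, z) - w)) :=
    tendsto_const_nhds.sub hw
  have hcl : IsClosed (U : Set W) := U.isClosed
  refine hcl.mem_of_tendsto h1 ?_
  filter_upwards [hmem N hN] with l₂ hl₂
  obtain ⟨y₂, hy₂⟩ := hl₂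
  exact h l₂ y₂ l y hy₂ hl

/-- the extension -/
theorem res_surj (hP : Prof D P e) (f : (Fin D → ℤ) × Z → W) (hf : f ∈ MF D Z W) :
    ∃ F : C(P × Z, W), ∀ l z, F (e l, z) = f (l, z) := by
  choose F hF using fun x z => ext_value hP f hf x z
  have hsep : ∀ w : W, (∀ U : OpenAddSubgroup W, w ∈ U) → w = 0 := by
    intro w hw
    by_contra hne
    have h1 : ({w}ᶜ : Set W) ∈ 𝓝 (0 : W) :=
      isOpen_compl_singleton.mem_nhds fun h => hne h.symm
    obtain ⟨U, hU⟩ := NonarchimedeanAddGroup.is_nonarchimedean _ h1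
    exact hU (hw U) rfl
  have hval : ∀ l z, F (e l) z = f (l, z) := by
    intro l z
    have h1 : f (l, z) - F (e l) z = 0 := hsep _ fun U => by
      obtain ⟨N, -, h⟩ := hF (e l) z U
      exact h l 0 (by rw [sub_self, smul_zero])
    exact (sub_eq_zero.1 h1).symm
  have key : ∀ (U : OpenAddSubgroup W) (z₀ : Z), ∃ N : ℕ, 0 < N ∧ ∀ᶠ z in 𝓝 z₀,
      ∀ l x y, x - e l = N • y → F x z - f (l, z₀) ∈ U := by
    intro U z₀
    obtain ⟨N, hN, h⟩ := hf U z₀
    refine ⟨N, hN, ?_⟩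
    filter_upwards [h] with z hz l x y hl
    obtain ⟨N', hN', h'⟩ := hF x z U
    obtain ⟨l₂, y₂, hl₂⟩ := c2_exists hP x (Nat.mul_pos hN hN')
    have h1 : f (l₂, z) - F x z ∈ U := h' l₂ (N • y₂) (by rw [hl₂, mul_comm N N', mul_smul])
    obtain ⟨l', rfl⟩ := c2_diff hP hN hl (show x - e l₂ = N • (N' • y₂) by rw [hl₂, mul_smul])
    have h2 := U.sub_mem (hz l l') h1
    have h3 : F x z - f (l, z₀) = f (l + N • l', z) - f (l, z₀) - (f (l + N • l', z) - F x z) := by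
      abel
    rw [h3]
    exact h2
  have hc : Continuous fun q : P × Z => F q.1 q.2 := by
    rw [continuous_iff_continuousAt]
    rintro ⟨x₀, z₀⟩
    rw [ContinuousAt, ← sub_add_cancel (F x₀ z₀) 0, sub_zero]
    have h1 : Tendsto (fun q : P × Z => F q.1 q.2 - F x₀ z₀) (𝓝 (x₀, z₀)) (𝓝 0) := by
      intro V hV
      obtain ⟨U, hU⟩ := NonarchimedeanAddGroup.is_nonarchimedean V hV
      obtain ⟨N, hN, h⟩ := key U z₀
      obtain ⟨l, y, hl⟩ := c2_exists hP x₀ hN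
      have h2 : F x₀ z₀ - f (l, z₀) ∈ U := h.self_of_nhds l x₀ y hl
      rw [mem_map, nhds_prod_eq]
      refine mem_of_superset (Filter.prod_mem_prod (c2_nhds hP x₀ hN) h) ?_
      rintro ⟨x, z⟩ ⟨⟨y', hy'⟩, hz⟩
      apply hU
      have h3 : x - e l = N • (y' + y) := by
        rw [smul_add, ← hy', ← hl]
        abel
      have h4 := U.sub_mem (hz l x _ h3) h2
      have h5 : F x z - F x₀ z₀ = F x z - f (l, z₀) - (F x₀ z₀ - f (l, z₀)) := by abel
      show F x z - F x₀ z₀ ∈ U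
      rw [h5]
      exact h4
    have h6 := h1.add_const (F x₀ z₀)
    simp only [sub_add_cancel, zero_add, add_zero] at h6 ⊢
    exact h6
  exact ⟨⟨fun q => F q.1 q.2, hc⟩, hval⟩

/-- the translations by `ℤ^D` are acyclic on the continuous functions -/
theorem prof_acyc [CompactSpace P] (p : ℕ) (hp : 0 < p)
    (hW : ∀ U : OpenAddSubgroup W, ∃ e : ℕ, ∀ w : W, p ^ e • w ∈ U) (hP : Prof D P e) (S : GS)
    (φ : Multiplicative (Fin D → ℤ) ≃* S.G) (h : S.X ≃ₜ P × Z)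
    (heq : ∀ g x, h (S.act (φ g) x) = (e (Multiplicative.toAdd g) + (h x).1, (h x).2)) (m : ℕ) :
    (S.co W).Acyc (m + 1) := by
  let u0 : C(S.X, W) →+ MF D Z W :=
    { toFun := fun f => ⟨fun x => f (h.symm (e x.1, x.2)),
        res_mem hP (f.comp ⟨h.symm, h.symm.continuous⟩)⟩
      map_zero' := rfl
      map_add' := fun _ _ => rfl }
  have hbij : Function.Bijective u0 := by
    constructor
    · intro f g hfg
      have h1 : f.comp ⟨h.symm, h.symm.continuous⟩ = g.comp ⟨h.symm, h.symm.continuous⟩ :=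
        res_inj hP _ _ fun l z => congrFun (congrArg Subtype.val hfg) (l, z)
      ext x
      have h2 := DFunLike.congr_fun h1 (h x)
      simpa using h2
    · intro F
      obtain ⟨F', hF'⟩ := res_surj hP F.1 F.2
      refine ⟨F'.comp ⟨h, h.continuous⟩, Subtype.ext (funext fun x => ?_)⟩
      show F' (h (h.symm (e x.1, x.2))) = F.1 x
      rw [h.apply_symm_apply, hF']
  refine acyc_congr (S.gm W) (MFm D Z W) φ.symm (AddEquiv.ofBijective u0 hbij) ?_ (m + 1)
    (MF_acyc D p hp hW m)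
  have key : ∀ (g : S.G) (f : C(S.X, W)) (x : (Fin D → ℤ) × Z),
      f (S.act g⁻¹ (h.symm (e x.1, x.2))) =
        f (h.symm (e (-Multiplicative.toAdd (φ.symm g) + x.1), x.2)) := by
    intro g f x
    congr 1
    apply h.injective
    have h1 : g⁻¹ = φ (φ.symm g)⁻¹ := by rw [map_inv, φ.apply_symm_apply]
    rw [h1, heq, h.apply_symm_apply, h.apply_symm_apply, map_add, toAdd_inv, map_neg]
  intro g f
  exact Subtype.ext (funext fun x => key g f x)

end

end Pool.Agent.BRW
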