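import Pool.Agent.BR80.World

/-!
# A field with a family of local fields, the restricted product and the spaces of frames
-/

set_option autoImplicit false

noncomputable section

namespace Pool.Agent.BRW

open Matrix Filter Topology
open scoped RestrictedProduct WithZeroTopology

/-- the value group -/
abbrev VG : Type := WithZero (Multiplicative ℤ)

section loc

variable {K : Type} [Field K]

/-- the maximum of the valuations of the `r × r` minors of an `n × r` matrix -/
def mm (v : Valuation K VG) {n r : ℕ} (X : Matrix (Fin n) (Fin r) K) : VG :=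
  Finset.univ.sup fun s : Fin r → Fin n => v (X.submatrix s id).det

/-- the entries are integral -/
def Int (v : Valuation K VG) {n r : ℕ} (X : Matrix (Fin n) (Fin r) K) : Prop :=
  ∀ i j, v (X i j) ≤ 1

/-- the frames over `K` -/
def Fr (v : Valuation K VG) (n r : ℕ) : Type := {X : Matrix (Fin n) (Fin r) K // mm v X ≠ 0}

instance [TopologicalSpace K] (v : Valuation K VG) (n r : ℕ) : TopologicalSpace (Fr v n r) :=
  inferInstanceAs (TopologicalSpace {X : Matrix (Fin n) (Fin r) K // mm v X ≠ 0})

/-- the integral frames -/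
def FrO (v : Valuation K VG) (n r : ℕ) : Set (Fr v n r) := {X | Int v X.1 ∧ mm v X.1 = 1}

/-- put the column `w` in front of `X` -/
def cc {n r : ℕ} (w : Fin n → K) (X : Matrix (Fin n) (Fin r) K) : Matrix (Fin n) (Fin (r + 1)) K :=
  Matrix.of fun i => Fin.cons (w i) (X i)

/-- the Vandermonde vector -/
def wv (n : ℕ) (t : K) : Fin n → K := fun i => t ^ (i : ℕ)

end loc

/-- a field with a family of embeddings in local fields -/
structure Glob where
  F : Type
  [fieldF : Field F]
  [infF : Infinite F]
  ι : Type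
  K : ι → Type
  [fieldK : ∀ v, Field (K v)]
  [topK : ∀ v, TopologicalSpace (K v)]
  [trK : ∀ v, IsTopologicalDivisionRing (K v)]
  [t2K : ∀ v, T2Space (K v)]
  val : ∀ v, Valuation (K v) VG
  cont : ∀ v, Continuous (val v)
  emb : ∀ v, F →+* K v
  fin : ∀ x : F, {v | ¬ val v (emb v x) ≤ 1}.Finite
  /-- weak approximation with integrality elsewhere -/
  approx : ∀ (T : Finset ι) (x : ∀ v, K v) (γ : ι → VGˣ), ∃ ξ : F,
    (∀ v ∈ T, val v (x v - emb v ξ) < γ v) ∧ ∀ v, v ∉ T → val v (emb v ξ) ≤ 1
  /-- the balls are a basis of the topology -/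
  small : ∀ v, ∀ U ∈ 𝓝 (0 : K v), ∃ γ : VGˣ, ∀ x : K v, val v x < γ → x ∈ U
  ne : Nonempty ι

attribute [instance] Glob.fieldF Glob.infF Glob.fieldK Glob.topK Glob.trK Glob.t2K

namespace Glob

variable (G : Glob)

/-- the ring of integers at `v` -/
abbrev O (v : G.ι) : ValuationSubring (G.K v) := (G.val v).valuationSubring

/-- the restricted product -/
abbrev A : Type := Πʳ v : G.ι, [G.K v, G.O v]

theorem isOpen_O (v : G.ι) : IsOpen (G.O v : Set (G.K v)) := by
  have h : (G.O v : Set (G.K v)) = (G.val v) ⁻¹' (Set.Iic 1) := rfl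
  rw [h]
  refine IsOpen.preimage (G.cont v) ?_
  rw [WithZeroTopology.isOpen_iff]
  exact Or.inr ⟨1, one_ne_zero, fun x hx => le_of_lt (Set.mem_Iio.1 hx)⟩

instance : Fact (∀ v : G.ι, IsOpen (G.O v : Set (G.K v))) := ⟨G.isOpen_O⟩

instance : IsTopologicalRing G.A := RestrictedProduct.isTopologicalRing G.K

/-- the embedding of `F` -/
def embA : G.F →+* G.A where
  toFun x := ⟨fun v => G.emb v x, G.fin x⟩
  map_one' := by ext v; exact map_one (G.emb v)
  map_mul' x y := by ext v; exact map_mul (G.emb v) x y
  map_zero' := by ext v; exact map_zero (G.emb v)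
  map_add' x y := by ext v; exact map_add (G.emb v) x y

instance : Algebra G.F G.A := G.embA.toAlgebra

theorem algebraMap_apply (x : G.F) (v : G.ι) : (algebraMap G.F G.A x) v = G.emb v x := rfl

/-- the space of frames -/
abbrev FF (n r : ℕ) : Type := Πʳ v : G.ι, [Fr (G.val v) n r, FrO (G.val v) n r]

variable {G}

/-- the matrix of a frame -/
def vec {n r : ℕ} (φ : G.FF n r) : Matrix (Fin n) (Fin r) G.A := fun i j =>
  ⟨fun v => (φ v).1 i j, by
    filter_upwards [φ.2] with v hv
    exact hv.1 i j⟩

@[simp] theorem vec_apply {n r : ℕ} (φ : G.FF n r) (i : Fin n) (j : Fin r) (v : G.ι) :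
    vec φ i j v = (φ v).1 i j := rfl

end Glob

end Pool.Agent.BRW
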