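import Pool.Agent.BRW.Loc1

/-!
# General position over a local field
-/

set_option autoImplicit false

namespace Pool.Agent.BRW

open Matrix Filter Topology
open scoped WithZeroTopology

variable {K : Type} [Field K] (v : Valuation K VG) {n r : ℕ}

private theorem g1_det_le {m : ℕ} (M : Matrix (Fin m) (Fin m) K) (h : ∀ i j, v (M i j) ≤ 1) :
    v M.det ≤ 1 := by
  rw [Matrix.det_apply]
  refine Valuation.map_sum_le v fun σ _ => ?_
  rcases Int.units_eq_one_or (Equiv.Perm.sign σ) with h1 | h1
  · rw [h1, one_smul, map_prod]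
    exact Finset.prod_le_one' fun i _ => h _ _
  · rw [h1, Units.neg_smul, one_smul, Valuation.map_neg, map_prod]
    exact Finset.prod_le_one' fun i _ => h _ _

/-- if a polynomial of degree less than `n` with integral coefficients has small values at `n`
integral elements whose differences are units then its coefficients are small -/
theorem small_coeff {c t : Fin n → K} (ht : ∀ i, v (t i) ≤ 1)
    (hd : ∀ i j, i ≠ j → v (t i - t j) = 1)
    (h : ∀ j, v (∑ k, c k * t j ^ (k : ℕ)) < 1) (k : Fin n) : v (c k) < 1 := by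
  have hV : (Matrix.vandermonde t) *ᵥ c = fun j => ∑ k, c k * t j ^ (k : ℕ) := by
    ext j
    simp only [Matrix.mulVec, dotProduct, Matrix.vandermonde_apply]
    exact Finset.sum_congr rfl fun k _ => mul_comm _ _
  have hdet : v (Matrix.vandermonde t).det = 1 := by
    rw [Matrix.det_vandermonde, map_prod]
    refine Finset.prod_eq_one fun i _ => ?_
    rw [map_prod]
    refine Finset.prod_eq_one fun j hj => ?_
    exact hd j i (ne_of_gt (Finset.mem_Ioi.1 hj))
  have hadj : ∀ i j, v ((Matrix.vandermonde t).adjugate i j) ≤ 1 := by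
    intro i j
    rw [Matrix.adjugate_apply]
    refine g1_det_le v _ fun a b => ?_
    rw [Matrix.updateRow_apply]
    split_ifs
    · rw [Pi.single_apply]
      split_ifs
      · rw [map_one]
      · rw [map_zero]; exact bot_le
    · rw [Matrix.vandermonde_apply, map_pow]
      exact pow_le_one' (ht a) _
  have h1 : (Matrix.vandermonde t).det * c k =
      ∑ j, (Matrix.vandermonde t).adjugate k j * ∑ l, c l * t j ^ (l : ℕ) := by
    have h2 : ((Matrix.vandermonde t).adjugate * Matrix.vandermonde t) *ᵥ c =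
        (Matrix.vandermonde t).adjugate *ᵥ (fun j => ∑ k, c k * t j ^ (k : ℕ)) := by
      rw [← hV, Matrix.mulVec_mulVec]
    rw [Matrix.adjugate_mul] at h2
    have h3 := congrFun h2 k
    rw [Matrix.smul_mulVec, Matrix.one_mulVec] at h3
    exact h3
  have h2 : v (c k) = v ((Matrix.vandermonde t).det * c k) := by rw [map_mul, hdet, one_mul]
  rw [h2, h1]
  refine Valuation.map_sum_lt v one_ne_zero fun j _ => ?_
  rw [map_mul]
  exact mul_lt_one_of_nonneg_of_lt_one_right (hadj k j) bot_le (h j)

/-- if a polynomial of degree less than `n` vanishes at `n` different elements then its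
coefficients are zero -/
theorem zero_coeff {c t : Fin n → K} (hd : ∀ i j, i ≠ j → t i ≠ t j)
    (h : ∀ j, ∑ k, c k * t j ^ (k : ℕ) = 0) (k : Fin n) : c k = 0 := by
  have h1 : (Matrix.vandermonde t).det ≠ 0 :=
    Matrix.det_vandermonde_ne_zero_iff.2 fun i j hij => by
      by_contra hne
      exact hd i j hne hij
  have hV : (Matrix.vandermonde t) *ᵥ c = 0 := by
    ext j
    simp only [Matrix.mulVec, dotProduct, Matrix.vandermonde_apply, Pi.zero_apply]
    rw [← h j]
    exact Finset.sum_congr rfl fun k _ => mul_comm _ _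
  exact congrFun (Matrix.eq_zero_of_mulVec_eq_zero h1 hV) k

/-- the enlarged minor, expanded with respect to the new column: the coefficient of `w k` is
the minor `s` -/
theorem minor_expand (X : Matrix (Fin n) (Fin r) K) (s : Fin r → Fin n) (k : Fin n) :
    ∃ c : Fin n → K, (k ∉ Set.range s → c k = (X.submatrix s id).det) ∧
      ((∀ i j, v (X i j) ≤ 1) → ∀ i, v (c i) ≤ 1) ∧
      ∀ w : Fin n → K, ((cc w X).submatrix (Fin.cons k s : Fin (r + 1) → Fin n) id).det =
        ∑ i, c i * w i := by
  classical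
  refine ⟨fun a => ∑ i : Fin (r + 1), if (Fin.cons k s : Fin (r + 1) → Fin n) i = a then
    (-1) ^ (i : ℕ) * (X.submatrix ((Fin.cons k s : Fin (r + 1) → Fin n) ∘ i.succAbove) id).det
      else 0, fun hk => ?_, fun hX a => ?_, fun w => ?_⟩
  · simp only
    rw [Fin.sum_univ_succ, Fin.cons_zero, if_pos rfl]
    have h1 : ∑ i : Fin r, (if (Fin.cons k s : Fin (r + 1) → Fin n) i.succ = k then
        (-1) ^ ((i.succ : Fin (r + 1)) : ℕ) *
          (X.submatrix ((Fin.cons k s : Fin (r + 1) → Fin n) ∘ i.succ.succAbove) id).det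
        else 0) = 0 := by
      refine Finset.sum_eq_zero fun i _ => ?_
      rw [Fin.cons_succ, if_neg fun h => hk ⟨i, h⟩]
    rw [h1, add_zero]
    have h2 : (Fin.cons k s : Fin (r + 1) → Fin n) ∘ (0 : Fin (r + 1)).succAbove = s := by
      ext i
      simp
    rw [h2]
    simp
  · refine Valuation.map_sum_le v fun i _ => ?_
    split_ifs
    · rw [map_mul, map_pow, Valuation.map_neg, map_one, one_pow, one_mul]
      exact g1_det_le v _ fun _ _ => hX _ _
    · rw [map_zero]; exact bot_le
  · rw [Matrix.det_succ_column_zero]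
    simp only [Finset.sum_mul]
    rw [Finset.sum_comm]
    refine Finset.sum_congr rfl fun i _ => ?_
    rw [Finset.sum_eq_single ((Fin.cons k s : Fin (r + 1) → Fin n) i)]
    · rw [if_pos rfl]
      have h1 : ((cc w X).submatrix (Fin.cons k s : Fin (r + 1) → Fin n) id) i 0 =
          w ((Fin.cons k s : Fin (r + 1) → Fin n) i) := rfl
      have h2 : ((cc w X).submatrix (Fin.cons k s : Fin (r + 1) → Fin n) id).submatrix
          i.succAbove Fin.succ =
          X.submatrix ((Fin.cons k s : Fin (r + 1) → Fin n) ∘ i.succAbove) id := rfl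
      rw [h1, h2]
      ring
    · intro b _ hb
      rw [if_neg fun h => hb h.symm, zero_mul]
    · intro hh
      exact absurd (Finset.mem_univ _) hh

/-- counting -/
theorem exists_not_bad {I T : Type} [Fintype I] [Fintype T] (n : ℕ) (B : I → T → Prop)
    (hB : ∀ i, ∀ f : Fin n → T, Function.Injective f → ∃ j, ¬ B i (f j))
    (hT : Fintype.card I * (n - 1) < Fintype.card T) : ∃ t, ∀ i, ¬ B i t := by
  classical
  by_contra hcon
  push Not at hcon
  choose g hg using hcon
  obtain ⟨i, hi⟩ := Fintype.exists_lt_card_fiber_of_mul_lt_card g hT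
  have h1 : Fintype.card (Fin n) ≤ Fintype.card {t : T // g t = i} := by
    rw [Fintype.card_fin, Fintype.card_subtype]
    omega
  obtain ⟨f⟩ := Function.Embedding.nonempty_of_card_le h1
  obtain ⟨j, hj⟩ := hB i (fun j => (f j).1) (fun a b hab => f.injective (Subtype.ext hab))
  refine hj ?_
  have h2 := hg (f j).1
  rwa [(f j).2] at h2

private theorem g3_notMem {n r : ℕ} (hr : r < n) (s : Fin r → Fin n) : ∃ k, k ∉ Set.range s := by
  by_contra hcon
  push Not at hcon
  have h1 := Fintype.card_le_of_surjective s hcon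
  rw [Fintype.card_fin, Fintype.card_fin] at h1
  omega

/-- general position -/
theorem gp_field {I T : Type} [Fintype I] [Fintype T] (hr : r < n) (t : T → K)
    (ht : Function.Injective t) (hT : Fintype.card I * (n - 1) < Fintype.card T)
    (X : I → Matrix (Fin n) (Fin r) K) (hX : ∀ i, mm v (X i) ≠ 0) :
    ∃ a : T, ∀ i, mm v (cc (wv n (t a)) (X i)) ≠ 0 := by
  classical
  have hk : ∀ i, ∃ c : Fin n → K, ∃ s : Fin (r + 1) → Fin n, c ≠ 0 ∧ ∀ w : Fin n → K,
      ((cc w (X i)).submatrix s id).det = ∑ j, c j * w j := by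
    intro i
    obtain ⟨s, hs⟩ := exists_mm v (hX i)
    obtain ⟨k, hk⟩ : ∃ k, k ∉ Set.range s := g3_notMem hr s
    obtain ⟨c, h1, -, h3⟩ := minor_expand v (X i) s k
    refine ⟨c, Fin.cons k s, fun h0 => ?_, h3⟩
    have h4 := h1 hk
    rw [h0, Pi.zero_apply] at h4
    rw [← h4, map_zero] at hs
    exact hX i hs.symm
  choose c s hc hs using hk
  obtain ⟨a, ha⟩ := exists_not_bad n (fun i a => ∑ j, c i j * t a ^ (j : ℕ) = 0)
    (fun i f hf => by
      by_contra hcon
      push Not at hcon
      exact hc i (funext fun k => zero_coeff (t := fun j => t (f j))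
        (fun p q hpq h => hpq (hf (ht h))) hcon k)) hT
  refine ⟨a, fun i h0 => ha i ?_⟩
  have h1 := le_mm v (cc (wv n (t a)) (X i)) (s i)
  rw [h0, hs i] at h1
  exact (Valuation.zero_iff v).1 (le_antisymm h1 bot_le)

/-- integral general position -/
theorem gp_int {I T : Type} [Fintype I] [Fintype T] (hr : r < n) (t : T → K)
    (ht : ∀ a, v (t a) ≤ 1) (hd : ∀ a b, a ≠ b → v (t a - t b) = 1)
    (hT : Fintype.card I * (n - 1) < Fintype.card T)
    (X : I → Matrix (Fin n) (Fin r) K) (hX : ∀ i, Int v (X i)) (hX1 : ∀ i, mm v (X i) = 1) :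
    ∃ a : T, ∀ i, mm v (cc (wv n (t a)) (X i)) = 1 := by
  classical
  have hk : ∀ i, ∃ c : Fin n → K, ∃ s : Fin (r + 1) → Fin n, (∃ k, v (c k) = 1) ∧
      ∀ w : Fin n → K, ((cc w (X i)).submatrix s id).det = ∑ j, c j * w j := by
    intro i
    obtain ⟨s, hs⟩ := exists_mm v (X := X i) (by rw [hX1 i]; exact one_ne_zero)
    obtain ⟨k, hk⟩ : ∃ k, k ∉ Set.range s := g3_notMem hr s
    obtain ⟨c, h1, -, h3⟩ := minor_expand v (X i) s k
    exact ⟨c, Fin.cons k s, ⟨k, by rw [h1 hk, hs, hX1 i]⟩, h3⟩
  choose c s hc hs using hk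
  obtain ⟨a, ha⟩ := exists_not_bad n (fun i a => v (∑ j, c i j * t a ^ (j : ℕ)) < 1)
    (fun i f hf => by
      by_contra hcon
      push Not at hcon
      obtain ⟨k, hk⟩ := hc i
      have h1 := small_coeff v (t := fun j => t (f j)) (fun j => ht (f j))
        (fun p q hpq => hd _ _ (fun h => hpq (hf h))) hcon k
      rw [hk] at h1
      exact lt_irrefl _ h1) hT
  refine ⟨a, fun i => le_antisymm (mm_le_one v fun p q => ?_) ?_⟩
  · induction q using Fin.cases with
    | zero =>
      change v (t a ^ (p : ℕ)) ≤ 1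
      rw [map_pow]
      exact pow_le_one' (ht a) _
    | succ q => exact hX i p q
  · have h1 := le_mm v (cc (wv n (t a)) (X i)) (s i)
    rw [hs i] at h1
    exact (not_lt.1 (ha i)).trans h1

/-- choice of a maximal value -/
theorem exists_select {Y T : Type} [TopologicalSpace Y] [Fintype T] [Nonempty T]
    (f : T → Y → VG) (hf : ∀ a, Continuous (f a)) (h : ∀ y, ∃ a, f a y ≠ 0) :
    ∃ s : Y → T, IsLocallyConstant s ∧ ∀ y a, f a y ≤ f (s y) y := by
  classical
  have hne : ∀ y, ∃ a, ∀ b, f b y ≤ f a y := fun y => Finite.exists_max fun a => f a y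
  let M : Y → Set T := fun y => {a | ∀ b, f b y ≤ f a y}
  have hM : ∀ y₀, ∀ᶠ y in 𝓝 y₀, M y = M y₀ := by
    intro y₀
    obtain ⟨a₀, ha₀⟩ := hne y₀
    have hm : f a₀ y₀ ≠ 0 := by
      intro h0
      obtain ⟨a, ha⟩ := h y₀
      exact ha (le_antisymm ((ha₀ a).trans h0.le) zero_le)
    have key : ∀ a, ∀ᶠ y in 𝓝 y₀, (f a y₀ ≠ 0 → f a y = f a y₀) ∧
        (f a y₀ = 0 → f a y < f a₀ y₀) := by
      intro a
      by_cases ha : f a y₀ = 0
      · have h1 : Set.Iio (f a₀ y₀) ∈ 𝓝 (f a y₀) := by
          rw [ha]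
          exact WithZeroTopology.Iio_mem_nhds_zero hm
        filter_upwards [(hf a).continuousAt.eventually h1] with y hy
        exact ⟨fun hh => absurd ha hh, fun _ => hy⟩
      · have h1 : {f a y₀} ∈ 𝓝 (f a y₀) := by
          rw [WithZeroTopology.nhds_of_ne_zero ha]
          exact rfl
        filter_upwards [(hf a).continuousAt.eventually h1] with y hy
        exact ⟨fun _ => hy, fun hh => absurd hh ha⟩
    filter_upwards [eventually_all.2 key] with y hy
    have h0 : f a₀ y = f a₀ y₀ := (hy a₀).1 hm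
    have hle : ∀ a, f a y ≤ f a₀ y := by
      intro a
      rw [h0]
      by_cases ha : f a y₀ = 0
      · exact ((hy a).2 ha).le
      · rw [(hy a).1 ha]
        exact ha₀ a
    have hmem : ∀ a, a ∈ M y ↔ f a y = f a₀ y₀ := by
      intro a
      constructor
      · intro ha
        rw [← h0]
        exact le_antisymm (hle a) (ha a₀)
      · intro ha b
        rw [ha, ← h0]
        exact hle b
    have hmem0 : ∀ a, a ∈ M y₀ ↔ f a y₀ = f a₀ y₀ := by
      intro a
      constructor
      · intro ha
        exact le_antisymm (ha₀ a) (ha a₀)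
      · intro ha b
        rw [ha]
        exact ha₀ b
    ext a
    rw [hmem, hmem0]
    by_cases ha : f a y₀ = 0
    · have h1 := (hy a).2 ha
      constructor
      · intro h2
        exact absurd h2 h1.ne
      · intro h2
        exact absurd (h2.symm.trans ha) hm
    · rw [(hy a).1 ha]
  let sel : Set T → T := fun S => if hS : S.Nonempty then hS.choose else Classical.arbitrary T
  have hsel : ∀ y, sel (M y) ∈ M y := by
    intro y
    have hS : (M y).Nonempty := hne y
    have h1 : sel (M y) = hS.choose := dif_pos hS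
    rw [h1]
    exact hS.choose_spec
  refine ⟨fun y => sel (M y), (IsLocallyConstant.iff_eventually_eq _).2 fun y₀ => ?_,
    fun y a => hsel y a⟩
  filter_upwards [hM y₀] with y hy
  rw [hy]

end Pool.Agent.BRW
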