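import Pool.Agent.BRW.Rp
import Pool.Agent.BRW.Gp1

/-!
# The spaces of frames
-/

set_option autoImplicit false

namespace Pool.Agent.BRW

open Matrix Filter Topology Pool.Agent.BR80
open scoped RestrictedProduct WithZeroTopology

namespace Glob

variable {G : Glob}

/-- evaluation at a place -/
private def f1_ev (v : G.ι) : G.A →+* G.K v := RestrictedProduct.evalRingHom G.K v

private theorem f1_ev_apply (v : G.ι) (x : G.A) : f1_ev v x = x v := rfl

private theorem f1_mul {n m r : ℕ} (X : Matrix (Fin n) (Fin m) G.A)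
    (Y : Matrix (Fin m) (Fin r) G.A) (v : G.ι) :
    (X * Y).map (f1_ev v) = X.map (f1_ev v) * Y.map (f1_ev v) := Matrix.map_mul

private theorem f1_cont_apply {Y : Type} [TopologicalSpace Y] {n r : ℕ} {f : Y → G.FF n r}
    (hf : Continuous f) (v : G.ι) : Continuous fun y => (f y v).1 := (cont_FF_iff.1 hf).1 v

private theorem f1_ev_FF {n r : ℕ} (φ : G.FF n r) :
    ∀ᶠ v in cofinite, Int (G.val v) (φ v).1 ∧ mm (G.val v) (φ v).1 = 1 := φ.2

private theorem f1_ev_int {n r : ℕ} (X : Matrix (Fin n) (Fin r) G.A) :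
    ∀ᶠ v in cofinite, Int (G.val v) (X.map (f1_ev v)) := by
  have h2 : ∀ i j, ∀ᶠ v in cofinite, G.val v (X i j v) ≤ 1 := fun i j => (X i j).2
  exact eventually_all.2 fun i => eventually_all.2 fun j => h2 i j

theorem exists_face {n r : ℕ} (j : Fin (r + 1)) : ∃ f : C(G.FF n (r + 1), G.FF n r),
    ∀ φ, vec (f φ) = (vec φ).submatrix id j.succAbove := by
  refine ⟨⟨fun φ => ⟨fun v => ⟨(φ v).1.submatrix id j.succAbove, mm_drop_ne _ (φ v).2 j⟩, ?_⟩, ?_⟩,
    fun φ => rfl⟩
  · filter_upwards [f1_ev_FF φ] with v hv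
    refine ⟨fun i k => hv.1 i _, le_antisymm (mm_le_one _ fun i k => hv.1 i _) ?_⟩
    have := mm_drop_le (G.val v) hv.1 j
    rw [hv.2] at this
    exact this
  · refine cont_FF_iff.2 ⟨?_, ?_⟩
    · intro v
      exact (f1_cont_apply continuous_id v).matrix_submatrix _ _
    · intro y₀
      obtain ⟨S, hS, h⟩ := eventually_FF (f := fun φ : G.FF n (r + 1) => φ) continuous_id y₀
      refine ⟨S, hS, ?_⟩
      filter_upwards [h] with φ hφ v hv
      have h1 := hφ v hv
      refine ⟨fun i k => h1.1 i _, le_antisymm (mm_le_one _ fun i k => h1.1 i _) ?_⟩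
      have := mm_drop_le (G.val v) h1.1 j
      rw [h1.2] at this
      exact this

theorem exists_perm {n r : ℕ} (σ : Equiv.Perm (Fin r)) : ∃ f : C(G.FF n r, G.FF n r),
    ∀ φ, vec (f φ) = (vec φ).submatrix id σ := by
  refine ⟨⟨fun φ => ⟨fun v => ⟨(φ v).1.submatrix id σ, by
    rw [mm_perm]; exact (φ v).2⟩, ?_⟩, ?_⟩, fun φ => rfl⟩
  · filter_upwards [f1_ev_FF φ] with v hv
    exact ⟨fun i k => hv.1 i _, by
      show mm (G.val v) ((φ v).1.submatrix id σ) = 1
      rw [mm_perm]; exact hv.2⟩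
  · refine cont_FF_iff.2 ⟨?_, ?_⟩
    · intro v
      exact (f1_cont_apply continuous_id v).matrix_submatrix _ _
    · intro y₀
      obtain ⟨S, hS, h⟩ := eventually_FF (f := fun φ : G.FF n r => φ) continuous_id y₀
      refine ⟨S, hS, ?_⟩
      filter_upwards [h] with φ hφ v hv
      have h1 := hφ v hv
      exact ⟨fun i k => h1.1 i _, by
        show mm (G.val v) ((φ v).1.submatrix id σ) = 1
        rw [mm_perm]; exact h1.2⟩

theorem exists_mul {n r : ℕ} : ∃ f : C(SL n G.A × G.FF n r, G.FF n r),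
    ∀ (g : SL n G.A) (φ : G.FF n r), vec (f (g, φ)) = g.1 * vec φ := by
  have hinv : ∀ (g : SL n G.A) (v : G.ι),
      (g⁻¹).1.map (f1_ev v) * g.1.map (f1_ev v) = 1 := by
    intro g v
    rw [← f1_mul]
    have h1 : (g⁻¹).1 * g.1 = 1 := by
      have := congrArg Subtype.val (inv_mul_cancel g)
      exact this
    rw [h1]
    exact Matrix.map_one _ (map_zero _) (map_one _)
  have hne : ∀ (g : SL n G.A) (φ : G.FF n r) (v : G.ι),
      mm (G.val v) (g.1.map (f1_ev v) * (φ v).1) ≠ 0 := by
    intro g φ v h0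
    apply (φ v).2
    have h1 := mm_mul_zero (G.val v) ((g⁻¹).1.map (f1_ev v)) h0
    rw [← Matrix.mul_assoc, hinv, Matrix.one_mul] at h1
    exact h1
  have hone : ∀ (g : SL n G.A) (φ : G.FF n r) (v : G.ι), Int (G.val v) (g.1.map (f1_ev v)) →
      Int (G.val v) ((g⁻¹).1.map (f1_ev v)) → Int (G.val v) (φ v).1 → mm (G.val v) (φ v).1 = 1 →
      Int (G.val v) (g.1.map (f1_ev v) * (φ v).1) ∧
        mm (G.val v) (g.1.map (f1_ev v) * (φ v).1) = 1 := by
    intro g φ v h1 h2 h3 h4
    refine ⟨int_mul _ h1 h3, le_antisymm ?_ ?_⟩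
    · rw [← h4]
      exact mm_mul_le _ h1 _
    · have h5 := mm_mul_le (G.val v) h2 (g.1.map (f1_ev v) * (φ v).1)
      rw [← Matrix.mul_assoc, hinv, Matrix.one_mul, h4] at h5
      exact h5
  let F : SL n G.A × G.FF n r → G.FF n r := fun y =>
    ⟨fun v => ⟨y.1.1.map (f1_ev v) * (y.2 v).1, hne y.1 y.2 v⟩, by
      filter_upwards [f1_ev_FF y.2, f1_ev_int y.1.1, f1_ev_int (y.1⁻¹).1] with v h1 h2 h3
      exact hone y.1 y.2 v h2 h3 h1.1 h1.2⟩
  have hvec : ∀ y, vec (F y) = y.1.1 * vec y.2 := by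
    intro y
    ext i j v
    show (y.1.1.map (f1_ev v) * (y.2 v).1) i j = f1_ev v ((y.1.1 * vec y.2) i j)
    have h1 := congrFun (congrFun (f1_mul y.1.1 (vec y.2) v) i) j
    exact h1.symm
  refine ⟨⟨F, ?_⟩, fun g φ => hvec (g, φ)⟩
  apply cont_FF_of_vec
  · have e : (fun y => vec (F y)) = fun y : SL n G.A × G.FF n r => y.1.1 * vec y.2 := funext hvec
    rw [e]
    exact (continuous_subtype_val.comp continuous_fst).matrix_mul
      (continuous_vec.comp continuous_snd)
  · intro y₀
    have c1 : Continuous fun y : SL n G.A × G.FF n r => y.1.1 :=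
      continuous_subtype_val.comp continuous_fst
    have c2 : Continuous fun y : SL n G.A × G.FF n r => (y.1⁻¹).1 := by
      have e : (fun y : SL n G.A × G.FF n r => (y.1⁻¹).1) = fun y => y.1.1.adjugate := by
        funext y
        exact Matrix.SpecialLinearGroup.coe_inv y.1
      rw [e]
      exact c1.matrix_adjugate
    obtain ⟨S1, hS1, h1⟩ := eventually_int c1 y₀
    obtain ⟨S2, hS2, h2⟩ := eventually_int c2 y₀
    obtain ⟨S3, hS3, h3⟩ := eventually_FF (f := fun y : SL n G.A × G.FF n r => y.2)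
      continuous_snd y₀
    refine ⟨S1 ∪ S2 ∪ S3, (hS1.union hS2).union hS3, ?_⟩
    filter_upwards [h1, h2, h3] with y g1 g2 g3 v hv
    simp only [Set.mem_union, not_or] at hv
    exact (hone y.1 y.2 v (g1 v hv.1.1) (g2 v hv.1.2) (g3 v hv.2).1 (g3 v hv.2).2).2

private theorem f2_left {F : Type} [Field F] {n r : ℕ} (X : Matrix (Fin n) (Fin r) F)
    (h : LinearIndependent F X.col) : ∃ Y : Matrix (Fin r) (Fin n) F, Y * X = 1 := by
  have hinj : Function.Injective X.mulVec := Matrix.mulVec_injective_iff.2 h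
  have hk : LinearMap.ker (Matrix.toLin' X) = ⊥ :=
    LinearMap.ker_eq_bot.2 fun a b hab => hinj (by simpa [Matrix.toLin'_apply] using hab)
  obtain ⟨g, hg⟩ := LinearMap.exists_leftInverse_of_injective _ hk
  refine ⟨LinearMap.toMatrix' g, ?_⟩
  have h1 := congrArg LinearMap.toMatrix' hg
  rw [LinearMap.toMatrix'_comp, LinearMap.toMatrix'_toLin', LinearMap.toMatrix'_id] at h1
  exact h1

theorem exists_rat {n r : ℕ} (X : Matrix (Fin n) (Fin r) G.F) (h : LinearIndependent G.F X.col) :
    ∃ φ : G.FF n r, vec φ = X.map (algebraMap G.F G.A) := by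
  obtain ⟨Y, hY⟩ := f2_left X h
  refine exists_of_inv (X.map (algebraMap G.F G.A)) (Y.map (algebraMap G.F G.A)) ?_
  rw [← Matrix.map_mul, hY]
  exact Matrix.map_one _ (map_zero _) (map_one _)

theorem exists_ofGL {n : ℕ} : ∃ f : C(GL (Fin n) G.A, G.FF n n), ∀ g, vec (f g) = g.1 := by
  have hex : ∀ g : GL (Fin n) G.A, ∃ φ : G.FF n n, vec φ = g.1 := fun g =>
    exists_of_inv g.1 (g⁻¹).1 (Units.inv_mul g)
  choose F hF using hex
  refine ⟨⟨F, ?_⟩, hF⟩
  apply cont_FF_of_vec
  · have e : (fun y => vec (F y)) = fun g : GL (Fin n) G.A => g.1 := funext hF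
    rw [e]
    exact Units.continuous_val
  · intro y₀
    have c1 : Continuous fun g : GL (Fin n) G.A => g.1 := Units.continuous_val
    have c2 : Continuous fun g : GL (Fin n) G.A => (g⁻¹).1 := Units.continuous_coe_inv
    obtain ⟨S1, hS1, h1⟩ := eventually_int c1 y₀
    obtain ⟨S2, hS2, h2⟩ := eventually_int c2 y₀
    refine ⟨S1 ∪ S2, hS1.union hS2, ?_⟩
    filter_upwards [h1, h2] with g g1 g2 v hv
    rw [Set.mem_union, not_or] at hv
    have e1 : (F g v).1 = g.1.map (f1_ev v) := by
      have := congrArg (fun X : Matrix (Fin n) (Fin n) G.A => X.map (f1_ev v)) (hF g)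
      exact this
    rw [e1]
    refine mm_eq_one_of_inv (G.val v) (g1 v hv.1) (g2 v hv.2) ?_
    show (g⁻¹).1.map (f1_ev v) * g.1.map (f1_ev v) = 1
    rw [← f1_mul, Units.inv_mul]
    exact Matrix.map_one _ (map_zero _) (map_one _)

private theorem f2_det {n : ℕ} (φ : G.FF n n) (v : G.ι) : (vec φ).det v = (φ v).1.det := by
  have h := RingHom.map_det (f1_ev v) (vec φ)
  exact h

private theorem f2_det_ne {n : ℕ} (φ : G.FF n n) (v : G.ι) : (φ v).1.det ≠ 0 := by
  intro h
  apply (φ v).2
  rw [mm_square, h, map_zero]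

private theorem f2_detInv {n : ℕ} : ∃ f : C(G.FF n n, G.A), ∀ φ, (vec φ).det * f φ = 1 := by
  obtain ⟨g, hg⟩ := exists_CA (G := G) (Y := G.FF n n) (fun v φ => ((φ v).1.det)⁻¹) (by
    intro v
    exact (f1_cont_apply continuous_id v).matrix_det.inv₀ fun φ => f2_det_ne φ v) (by
    intro y₀
    obtain ⟨S, hS, h⟩ := eventually_FF (f := fun φ : G.FF n n => φ) continuous_id y₀
    refine ⟨S, hS, ?_⟩
    filter_upwards [h] with φ hφ v hv
    have h1 := (hφ v hv).2
    rw [mm_square] at h1
    rw [map_inv₀, h1, inv_one])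
  refine ⟨g, fun φ => ?_⟩
  ext v
  show f1_ev v ((vec φ).det * g φ) = f1_ev v 1
  rw [map_mul, map_one, f1_ev_apply, f1_ev_apply, f2_det, hg]
  exact mul_inv_cancel₀ (f2_det_ne φ v)

theorem isUnit_det {n : ℕ} (φ : G.FF n n) : IsUnit (vec φ).det := by
  obtain ⟨f, hf⟩ := f2_detInv (G := G) (n := n)
  exact IsUnit.of_mul_eq_one _ (hf φ)

/-- the inverse of the determinant is continuous -/
theorem exists_detInv {n : ℕ} : ∃ f : C(G.FF n n, G.A), ∀ φ, (vec φ).det * f φ = 1 := by
  exact f2_detInv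

private theorem f3_cc_int {K : Type} [Field K] (v : Valuation K VG) {n r : ℕ} {t : K}
    (ht : v t ≤ 1) {X : Matrix (Fin n) (Fin r) K} (hX : Int v X) : Int v (cc (wv n t) X) := by
  intro i j
  refine Fin.cases ?_ (fun j => ?_) j
  · show v (t ^ (i : ℕ)) ≤ 1
    rw [map_pow]
    exact pow_le_one' ht _
  · exact hX i j

private theorem f3_cc_cont {K : Type} [Field K] [TopologicalSpace K] {n r : ℕ} {Y : Type}
    [TopologicalSpace Y] {w : Y → Fin n → K} {X : Y → Matrix (Fin n) (Fin r) K}
    (hw : Continuous w) (hX : Continuous X) : Continuous fun y => cc (w y) (X y) := by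
  refine continuous_matrix fun i j => ?_
  refine Fin.cases ?_ (fun j => ?_) j
  · exact (continuous_apply i).comp hw
  · exact hX.matrix_elem i j

/-- the local general position map: for continuous families of frames over `K v` there is a
locally constant choice of a Vandermonde vector -/
theorem exists_gp_loc {n r : ℕ} (hr : r < n) {Y : Type} [TopologicalSpace Y] {I : Type} [Finite I]
    {T : Type} [Fintype T] (t : T → G.F) (ht : Function.Injective t)
    (hT : Nat.card I * (n - 1) < Fintype.card T) (v : G.ι) (φ : I → Y → Fr (G.val v) n r)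
    (hφ : ∀ i, Continuous (φ i)) :
    ∃ s : Y → T, IsLocallyConstant s ∧
      (∀ y i, mm (G.val v) (cc (wv n (G.emb v (t (s y)))) (φ i y).1) ≠ 0) ∧
      ∀ y, (∀ a, G.val v (G.emb v (t a)) ≤ 1) → (∀ a b, a ≠ b →
        G.val v (G.emb v (t a) - G.emb v (t b)) = 1) → (∀ i, φ i y ∈ FrO (G.val v) n r) →
        ∀ i, mm (G.val v) (cc (wv n (G.emb v (t (s y)))) (φ i y).1) = 1 := by
  classical
  have hFI : Fintype I := Fintype.ofFinite I
  rw [Nat.card_eq_fintype_card] at hT
  have hne : Nonempty T := Fintype.card_pos_iff.1 (by omega)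
  have hφc : ∀ i, Continuous fun y => (φ i y).1 := fun i => continuous_subtype_val.comp (hφ i)
  have hmc : ∀ (a : T) (i : I), Continuous fun y =>
      mm (G.val v) (cc (wv n (G.emb v (t a))) (φ i y).1) := fun a i =>
    (continuous_mm (G.cont v)).comp (f3_cc_cont continuous_const (hφc i))
  let f : T → Y → VG := fun a y => (Finset.univ : Finset (Option I)).inf' Finset.univ_nonempty
    fun o => o.elim 1 fun i => mm (G.val v) (cc (wv n (G.emb v (t a))) (φ i y).1)
  have hfc : ∀ a, Continuous (f a) := by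
    intro a
    refine Continuous.finset_inf'_apply _ fun o _ => ?_
    cases o with
    | none => exact continuous_const
    | some i => exact hmc a i
  have hfle : ∀ a y i, f a y ≤ mm (G.val v) (cc (wv n (G.emb v (t a))) (φ i y).1) := by
    intro a y i
    exact Finset.inf'_le (f := fun o : Option I => o.elim 1 fun i =>
      mm (G.val v) (cc (wv n (G.emb v (t a))) (φ i y).1)) (Finset.mem_univ (some i))
  have hfmem : ∀ a y, f a y = 1 ∨ ∃ i, f a y = mm (G.val v) (cc (wv n (G.emb v (t a))) (φ i y).1) := by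
    intro a y
    obtain ⟨o, _, ho⟩ := Finset.exists_mem_eq_inf' (s := (Finset.univ : Finset (Option I)))
      Finset.univ_nonempty (fun o : Option I => o.elim 1 fun i =>
        mm (G.val v) (cc (wv n (G.emb v (t a))) (φ i y).1))
    cases o with
    | none => exact Or.inl ho
    | some i => exact Or.inr ⟨i, ho⟩
  have ht' : Function.Injective fun a => G.emb v (t a) := (G.emb v).injective.comp ht
  obtain ⟨s, hs, hmax⟩ := exists_select f hfc (by
    intro y
    obtain ⟨a, ha⟩ := gp_field (G.val v) hr (fun a => G.emb v (t a)) ht' hT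
      (fun i => (φ i y).1) (fun i => (φ i y).2)
    refine ⟨a, ?_⟩
    rcases hfmem a y with h | ⟨i, h⟩
    · rw [h]; exact one_ne_zero
    · rw [h]; exact ha i)
  refine ⟨s, hs, ?_, ?_⟩
  · intro y i h0
    obtain ⟨a, ha⟩ := gp_field (G.val v) hr (fun a => G.emb v (t a)) ht' hT
      (fun i => (φ i y).1) (fun i => (φ i y).2)
    have h1 := hmax y a
    have h2 := hfle (s y) y i
    rw [h0] at h2
    have h3 : f a y = 0 := le_zero_iff.1 (h1.trans h2)
    rcases hfmem a y with h | ⟨i, h⟩
    · rw [h] at h3; exact one_ne_zero h3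
    · rw [h] at h3; exact ha i h3
  · intro y hi hd hO i
    obtain ⟨a, ha⟩ := gp_int (G.val v) hr (fun a => G.emb v (t a)) hi hd hT
      (fun i => (φ i y).1) (fun i => (hO i).1) (fun i => (hO i).2)
    have h3 : f a y = 1 := by
      rcases hfmem a y with h | ⟨i, h⟩
      · exact h
      · rw [h]; exact ha i
    refine le_antisymm (mm_le_one _ (f3_cc_int _ (hi _) (hO i).1)) ?_
    calc (1 : VG) = f a y := h3.symm
      _ ≤ f (s y) y := hmax y a
      _ ≤ _ := hfle (s y) y i

/-- different elements of `F` have integral values and differences which are units almost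
everywhere -/
theorem eventually_diff {T : Type} [Finite T] (t : T → G.F) (ht : Function.Injective t) :
    ∀ᶠ v in cofinite, (∀ a, G.val v (G.emb v (t a)) ≤ 1) ∧
      ∀ a b, a ≠ b → G.val v (G.emb v (t a) - G.emb v (t b)) = 1 := by
  have h1 : ∀ x : G.F, ∀ᶠ v in cofinite, G.val v (G.emb v x) ≤ 1 := fun x => G.fin x
  have h2 : ∀ᶠ v in cofinite, ∀ a, G.val v (G.emb v (t a)) ≤ 1 :=
    eventually_all.2 fun a => h1 (t a)
  have h3 : ∀ᶠ v in cofinite, ∀ a b, a ≠ b → G.val v (G.emb v (t a) - G.emb v (t b)) = 1 := by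
    refine eventually_all.2 fun a => eventually_all.2 fun b => ?_
    by_cases hab : a = b
    · exact Eventually.of_forall fun v h => absurd hab h
    · have hne : t a - t b ≠ 0 := sub_ne_zero.2 fun h => hab (ht h)
      filter_upwards [h1 (t a - t b), h1 (t a - t b)⁻¹] with v g1 g2 _
      rw [← map_sub]
      refine le_antisymm g1 ?_
      have g3 : G.val v (G.emb v (t a - t b)) * G.val v (G.emb v (t a - t b)⁻¹) = 1 := by
        rw [← map_mul, ← map_mul, mul_inv_cancel₀ hne, map_one, map_one]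
      calc (1 : VG) = G.val v (G.emb v (t a - t b)) * G.val v (G.emb v (t a - t b)⁻¹) := g3.symm
        _ ≤ G.val v (G.emb v (t a - t b)) * 1 := mul_le_mul_right g2 _
        _ = _ := mul_one _
  filter_upwards [h2, h3] with v g1 g2
  exact ⟨g1, g2⟩

/-- general position -/
theorem gp {n r : ℕ} (hr : r < n) (Y : Type) [TopologicalSpace Y] (I : Type) [Finite I]
    (φ : I → C(Y, G.FF n r)) : ∃ ψ : I → C(Y, G.FF n (r + 1)),
      (∀ i y, (vec (ψ i y)).submatrix id (Fin.succAbove 0) = vec (φ i y)) ∧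
      ∀ (i i' : I) (y : Y) (k : Fin n), vec (ψ i y) k 0 = vec (ψ i' y) k 0 := by
  classical
  set N : ℕ := Nat.card I * (n - 1) + 1 with hN
  let t : Fin N → G.F := fun a => Infinite.natEmbedding G.F a.val
  have ht : Function.Injective t := fun a b h =>
    Fin.ext ((Infinite.natEmbedding G.F).injective h)
  have hT : Nat.card I * (n - 1) < Fintype.card (Fin N) := by
    rw [Fintype.card_fin]
    omega
  have hc : ∀ (v : G.ι) (i : I), Continuous fun y => (φ i y) v := by
    intro v i
    exact continuous_induced_rng.2 (f1_cont_apply (φ i).continuous v)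
  have hloc := fun v : G.ι => exists_gp_loc hr (Y := Y) (I := I) t ht hT v
    (fun i y => (φ i y) v) (hc v)
  choose s hs hne hone using hloc
  have hfin := eventually_diff t ht
  have hO : ∀ y, ∀ᶠ v in cofinite, ∀ i, φ i y v ∈ FrO (G.val v) n r := fun y =>
    eventually_all.2 fun i => (φ i y).2
  let ψ : I → Y → G.FF n (r + 1) := fun i y =>
    ⟨fun v => ⟨cc (wv n (G.emb v (t (s v y)))) (φ i y v).1, hne v y i⟩, by
      filter_upwards [hfin, hO y] with v h1 h2
      exact ⟨f3_cc_int _ (h1.1 _) (h2 i).1, hone v y h1.1 h1.2 h2 i⟩⟩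
  have hψ : ∀ i, Continuous (ψ i) := by
    intro i
    rw [cont_FF_iff]
    constructor
    · intro v
      refine f3_cc_cont ?_ (f1_cont_apply (φ i).continuous v)
      exact ((hs v).comp fun a => wv n (G.emb v (t a))).continuous
    · intro y₀
      have hex : ∀ i, ∃ S : Set G.ι, S.Finite ∧ ∀ᶠ y in 𝓝 y₀, ∀ v, v ∉ S →
          Int (G.val v) (φ i y v).1 ∧ mm (G.val v) (φ i y v).1 = 1 := fun i =>
        eventually_FF (φ i).continuous y₀
      choose S hS hS' using hex
      refine ⟨(⋃ i, S i) ∪ {v | ¬ ((∀ a, G.val v (G.emb v (t a)) ≤ 1) ∧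
        ∀ a b, a ≠ b → G.val v (G.emb v (t a) - G.emb v (t b)) = 1)},
        (Set.finite_iUnion hS).union hfin, ?_⟩
      filter_upwards [eventually_all.2 hS'] with y hy v hv
      rw [Set.mem_union, not_or, Set.mem_iUnion, not_exists] at hv
      have h1 := not_not.1 hv.2
      have h2 : ∀ i, φ i y v ∈ FrO (G.val v) n r := fun i => hy i v (hv.1 i)
      exact ⟨f3_cc_int _ (h1.1 _) (h2 i).1, hone v y h1.1 h1.2 h2 i⟩
  refine ⟨fun i => ⟨ψ i, hψ i⟩, ?_, ?_⟩
  · intro i y
    ext k j v
    rfl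
  · intro i i' y k
    ext v
    rfl

/-- extend a frame at the end -/
theorem exists_snoc {n r : ℕ} (hr : r < n) : ∃ f : C(G.FF n r, G.FF n (r + 1)),
    ∀ φ i (j : Fin r), vec (f φ) i j.castSucc = vec φ i j := by
  obtain ⟨ψ, hψ, -⟩ := gp (G := G) hr (G.FF n r) Unit (fun _ => ContinuousMap.id _)
  obtain ⟨f, hf⟩ := exists_perm (G := G) (n := n) (finRotate (r + 1))
  refine ⟨f.comp (ψ ()), fun φ i j => ?_⟩
  show vec (f (ψ () φ)) i j.castSucc = _
  rw [hf]
  have h1 := congrFun (congrFun (hψ () φ) i) j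
  rw [Matrix.submatrix_apply, Fin.succAbove_zero] at h1
  rw [Matrix.submatrix_apply]
  have e : finRotate (r + 1) j.castSucc = j.succ := by
    exact finRotate_of_lt j.2
  rw [e]
  exact h1

/-- the last step: `r + 1 = n` -/
theorem exists_sec_last {r : ℕ} : ∃ f : C(G.FF (r + 1) r, SL (r + 1) G.A),
    ∀ φ i (j : Fin r), (f φ).1 i j.castSucc = vec φ i j := by
  obtain ⟨f, hf⟩ := exists_snoc (G := G) (Nat.lt_succ_self r)
  obtain ⟨d, hd⟩ := exists_detInv (G := G) (n := r + 1)
  let M : G.FF (r + 1) r → Matrix (Fin (r + 1)) (Fin (r + 1)) G.A := fun φ =>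
    (vec (f φ)).updateCol (Fin.last r) (d (f φ) • fun i => vec (f φ) i (Fin.last r))
  have hM : ∀ φ, (M φ).det = 1 := by
    intro φ
    show ((vec (f φ)).updateCol (Fin.last r) (d (f φ) • fun i => vec (f φ) i (Fin.last r))).det = 1
    rw [Matrix.det_updateCol_smul]
    have e : (vec (f φ)).updateCol (Fin.last r) (fun i => vec (f φ) i (Fin.last r)) = vec (f φ) :=
      Matrix.updateCol_eq_self _ _
    rw [e, mul_comm]
    exact hd (f φ)
  have hMc : Continuous M := by
    have c1 : Continuous fun φ => vec (f φ) := continuous_vec.comp f.continuous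
    have c2 : Continuous fun φ => d (f φ) := d.continuous.comp f.continuous
    refine continuous_matrix fun i j => ?_
    by_cases hj : j = Fin.last r
    · subst hj
      have e : (fun φ => M φ i (Fin.last r)) = fun φ => d (f φ) * vec (f φ) i (Fin.last r) := by
        funext φ
        show (vec (f φ)).updateCol (Fin.last r) _ i (Fin.last r) = _
        rw [Matrix.updateCol_self]
        rfl
      rw [e]
      exact c2.mul (c1.matrix_elem i _)
    · have e : (fun φ => M φ i j) = fun φ => vec (f φ) i j := by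
        funext φ
        show (vec (f φ)).updateCol (Fin.last r) _ i j = _
        rw [Matrix.updateCol_ne hj]
      rw [e]
      exact c1.matrix_elem i j
  refine ⟨⟨fun φ => ⟨M φ, hM φ⟩, hMc.subtype_mk _⟩, fun φ i j => ?_⟩
  show (vec (f φ)).updateCol (Fin.last r) _ i j.castSucc = _
  rw [Matrix.updateCol_ne (Fin.castSucc_lt_last j).ne, hf]

theorem exists_sec {n r : ℕ} (hr : r < n) : ∃ f : C(G.FF n r, SL n G.A),
    ∀ φ i (j : Fin r), (f φ).1 i (Fin.castLE hr.le j) = vec φ i j := by
  obtain ⟨k, hk⟩ : ∃ k, n = r + 1 + k := ⟨n - (r + 1), by omega⟩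
  subst hk
  induction k generalizing r with
  | zero =>
    obtain ⟨f, hf⟩ := exists_sec_last (G := G) (r := r)
    exact ⟨f, fun φ i j => hf φ i j⟩
  | succ k ih =>
    obtain ⟨f, hf⟩ := exists_snoc (G := G) hr
    have e : r + 1 + (k + 1) = r + 1 + 1 + k := by omega
    have hr' : r + 1 < r + 1 + (k + 1) := by omega
    obtain ⟨g, hg⟩ : ∃ g : C(G.FF (r + 1 + (k + 1)) (r + 1), SL (r + 1 + (k + 1)) G.A),
        ∀ φ i (j : Fin (r + 1)), (g φ).1 i (Fin.castLE hr'.le j) = vec φ i j := by
      have := ih (r := r + 1) (by omega)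
      revert hr'
      rw [e]
      intro hr'
      exact this
    refine ⟨g.comp f, fun φ i j => ?_⟩
    show (g (f φ)).1 i (Fin.castLE hr.le j) = _
    rw [← hf φ i j, ← hg (f φ) i j.castSucc]
    rfl

end Glob

end Pool.Agent.BRW
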