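import Pool.Agent.BRW.Frm

/-!
# Continuous generation of `SL_n` by transvections
-/

set_option autoImplicit false

namespace Pool.Agent.BRW

open Matrix Filter Topology Pool.Agent.BR80
open scoped RestrictedProduct WithZeroTopology

/-- the subgroup generated by the continuous families of transvections -/
def EG (n : ℕ) (R : Type) [CommRing R] [TopologicalSpace R] [IsTopologicalRing R]
    (Z : Type) [TopologicalSpace Z] : Subgroup C(Z, SL n R) :=
  Subgroup.closure {e : C(Z, SL n R) | ∃ (i j : Fin n) (h : i ≠ j) (c : C(Z, R)),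
      ∀ z, e z = elt i j h (c z)}

section ring

variable {n : ℕ} {R : Type} [CommRing R] [TopologicalSpace R] [IsTopologicalRing R]
  {Z : Type} [TopologicalSpace Z]

/-- a transvection -/
theorem exists_elt (i j : Fin n) (h : i ≠ j) (c : C(Z, R)) :
    ∃ e ∈ EG n R Z, ∀ z, e z = elt i j h (c z) := by
  refine ⟨⟨fun z => elt i j h (c z), ?_⟩, Subgroup.subset_closure ⟨i, j, h, c, fun z => rfl⟩,
    fun z => rfl⟩
  refine Continuous.subtype_mk ?_ _
  refine continuous_matrix fun k l => ?_
  simp only [Matrix.transvection, Matrix.add_apply, Matrix.single_apply]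
  split_ifs
  · fun_prop
  · fun_prop

omit [TopologicalSpace R] [IsTopologicalRing R] in
private theorem e1_tv (i j : Fin n) (h : i ≠ j) (c : R) (y : Fin n → R) (k : Fin n) :
    ((elt i j h c).1 *ᵥ y) k = y k + if k = i then c * y j else 0 := by
  change ((Matrix.transvection i j c) *ᵥ y) k = _
  rw [Matrix.transvection, Matrix.add_mulVec, Matrix.one_mulVec, Pi.add_apply]
  congr 1
  simp only [Matrix.mulVec, dotProduct, Matrix.single_apply]
  split_ifs with hk
  · subst hk
    simp
  · refine Finset.sum_eq_zero fun l _ => ?_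
    rw [if_neg (fun hh => hk hh.1.symm), zero_mul]

omit [TopologicalSpace R] [IsTopologicalRing R] in
private theorem e1_tv_same (i j : Fin n) (h : i ≠ j) (c : R) (y : Fin n → R) :
    ((elt i j h c).1 *ᵥ y) i = y i + c * y j := by
  rw [e1_tv, if_pos rfl]

omit [TopologicalSpace R] [IsTopologicalRing R] in
private theorem e1_tv_ne (i j : Fin n) (h : i ≠ j) (c : R) (y : Fin n → R) {k : Fin n}
    (hk : k ≠ i) : ((elt i j h c).1 *ᵥ y) k = y k := by
  rw [e1_tv, if_neg hk, add_zero]

/-- add a linear combination of the other entries to the entry `i` -/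
theorem exists_row (i : Fin n) (c : Fin n → C(Z, R)) :
    ∃ e ∈ EG n R Z, ∀ z (x : Fin n → R), ((e z).1 *ᵥ x) i = x i + ∑ j ∈ Finset.univ.erase i,
      c j z * x j ∧ ∀ k, k ≠ i → ((e z).1 *ᵥ x) k = x k := by
  suffices H : ∀ s : Finset (Fin n), i ∉ s → ∃ e ∈ EG n R Z, ∀ z (x : Fin n → R),
      ((e z).1 *ᵥ x) i = x i + ∑ j ∈ s, c j z * x j ∧ ∀ k, k ≠ i → ((e z).1 *ᵥ x) k = x k from
    H _ (Finset.notMem_erase i _)
  intro s
  induction s using Finset.induction_on with
  | empty =>
    intro _
    refine ⟨1, Subgroup.one_mem _, fun z x => ?_⟩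
    have h1 : ((1 : C(Z, SL n R)) z).1 = (1 : Matrix (Fin n) (Fin n) R) := rfl
    rw [h1, Matrix.one_mulVec]
    exact ⟨by simp, fun k _ => rfl⟩
  | insert a s ha ih =>
    intro hi
    have hia : i ≠ a := fun h => hi (h ▸ Finset.mem_insert_self _ _)
    have his : i ∉ s := fun h => hi (Finset.mem_insert_of_mem h)
    obtain ⟨e, he, h⟩ := ih his
    obtain ⟨e', he', h'⟩ := exists_elt (R := R) (Z := Z) i a hia (c a)
    refine ⟨e' * e, Subgroup.mul_mem _ he' he, fun z x => ?_⟩
    have h1 : ((e' * e) z).1 = (e' z).1 * (e z).1 := rfl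
    obtain ⟨h2, h3⟩ := h z x
    rw [h1, ← Matrix.mulVec_mulVec, h']
    refine ⟨?_, fun k hk => ?_⟩
    · rw [e1_tv_same, h2, h3 a hia.symm, Finset.sum_insert ha]
      ring
    · rw [e1_tv_ne _ _ _ _ _ hk, h3 k hk]

/-- add multiples of the entry `i` to the others -/
theorem exists_col (i : Fin n) (c : Fin n → C(Z, R)) :
    ∃ e ∈ EG n R Z, ∀ z (x : Fin n → R), ((e z).1 *ᵥ x) i = x i ∧
      ∀ k, k ≠ i → ((e z).1 *ᵥ x) k = x k + c k z * x i := by
  suffices H : ∀ s : Finset (Fin n), i ∉ s → ∃ e ∈ EG n R Z, ∀ z (x : Fin n → R),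
      ((e z).1 *ᵥ x) i = x i ∧ (∀ k, k ∈ s → ((e z).1 *ᵥ x) k = x k + c k z * x i) ∧
        ∀ k, k ∉ s → ((e z).1 *ᵥ x) k = x k by
    obtain ⟨e, he, h⟩ := H _ (Finset.notMem_erase i Finset.univ)
    exact ⟨e, he, fun z x => ⟨(h z x).1, fun k hk =>
      (h z x).2.1 k (Finset.mem_erase.2 ⟨hk, Finset.mem_univ _⟩)⟩⟩
  intro s
  induction s using Finset.induction_on with
  | empty =>
    intro _
    refine ⟨1, Subgroup.one_mem _, fun z x => ?_⟩
    have h1 : ((1 : C(Z, SL n R)) z).1 = (1 : Matrix (Fin n) (Fin n) R) := rfl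
    rw [h1, Matrix.one_mulVec]
    exact ⟨rfl, fun k hk => absurd hk (Finset.notMem_empty _), fun k _ => rfl⟩
  | insert a s ha ih =>
    intro hi
    have hia : i ≠ a := fun h => hi (h ▸ Finset.mem_insert_self _ _)
    have his : i ∉ s := fun h => hi (Finset.mem_insert_of_mem h)
    obtain ⟨e, he, h⟩ := ih his
    obtain ⟨e', he', h'⟩ := exists_elt (R := R) (Z := Z) a i hia.symm (c a)
    refine ⟨e' * e, Subgroup.mul_mem _ he' he, fun z x => ?_⟩
    have h1 : ((e' * e) z).1 = (e' z).1 * (e z).1 := rfl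
    obtain ⟨h2, h3, h4⟩ := h z x
    rw [h1, ← Matrix.mulVec_mulVec, h']
    refine ⟨?_, fun k hk => ?_, fun k hk => ?_⟩
    · rw [e1_tv_ne _ _ _ _ _ hia, h2]
    · by_cases hka : k = a
      · subst hka
        rw [e1_tv_same, h4 k ha, h2]
      · rw [e1_tv_ne _ _ _ _ _ hka]
        exact h3 k (Finset.mem_of_mem_insert_of_ne hk hka)
    · have hka : k ≠ a := fun hh => hk (hh ▸ Finset.mem_insert_self _ _)
      rw [e1_tv_ne _ _ _ _ _ hka]
      exact h4 k fun hh => hk (Finset.mem_insert_of_mem hh)

private def e2_mat (M : Matrix (Fin n) (Fin n) R) : Matrix (Fin (n + 1)) (Fin (n + 1)) R :=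
  (Matrix.fromBlocks M 0 0 (1 : Matrix (Fin 1) (Fin 1) R)).submatrix finSumFinEquiv.symm
    finSumFinEquiv.symm

private theorem e2_symm_cast (i : Fin n) :
    (finSumFinEquiv (m := n) (n := 1)).symm i.castSucc = Sum.inl i :=
  finSumFinEquiv_symm_apply_castAdd i

private theorem e2_symm_last :
    (finSumFinEquiv (m := n) (n := 1)).symm (Fin.last n) = Sum.inr 0 :=
  finSumFinEquiv_symm_last

omit [TopologicalSpace R] [IsTopologicalRing R] in
private theorem e2_mat_cc (M : Matrix (Fin n) (Fin n) R) (i j : Fin n) :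
    e2_mat M i.castSucc j.castSucc = M i j := by
  rw [e2_mat, Matrix.submatrix_apply, e2_symm_cast, e2_symm_cast, Matrix.fromBlocks_apply₁₁]

omit [TopologicalSpace R] [IsTopologicalRing R] in
private theorem e2_mat_cl (M : Matrix (Fin n) (Fin n) R) (i : Fin n) :
    e2_mat M i.castSucc (Fin.last n) = 0 := by
  rw [e2_mat, Matrix.submatrix_apply, e2_symm_cast, e2_symm_last, Matrix.fromBlocks_apply₁₂]
  rfl

omit [TopologicalSpace R] [IsTopologicalRing R] in
private theorem e2_mat_lc (M : Matrix (Fin n) (Fin n) R) (j : Fin n) :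
    e2_mat M (Fin.last n) j.castSucc = 0 := by
  rw [e2_mat, Matrix.submatrix_apply, e2_symm_cast, e2_symm_last, Matrix.fromBlocks_apply₂₁]
  rfl

omit [TopologicalSpace R] [IsTopologicalRing R] in
private theorem e2_mat_ll (M : Matrix (Fin n) (Fin n) R) :
    e2_mat M (Fin.last n) (Fin.last n) = 1 := by
  rw [e2_mat, Matrix.submatrix_apply, e2_symm_last, Matrix.fromBlocks_apply₂₂, Matrix.one_apply_eq]

omit [TopologicalSpace R] [IsTopologicalRing R] in
private theorem e2_mat_mul (M N : Matrix (Fin n) (Fin n) R) :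
    e2_mat (M * N) = e2_mat M * e2_mat N := by
  rw [e2_mat, e2_mat, e2_mat, Matrix.submatrix_mul_equiv, Matrix.fromBlocks_multiply]
  simp

omit [TopologicalSpace R] [IsTopologicalRing R] in
private theorem e2_mat_one : e2_mat (1 : Matrix (Fin n) (Fin n) R) = 1 := by
  rw [e2_mat, Matrix.fromBlocks_one, Matrix.submatrix_one_equiv]

omit [TopologicalSpace R] [IsTopologicalRing R] in
private theorem e2_mat_det (M : Matrix (Fin n) (Fin n) R) : (e2_mat M).det = M.det := by
  rw [e2_mat, Matrix.det_submatrix_equiv_self, Matrix.det_fromBlocks_zero₂₁, Matrix.det_one,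
    mul_one]

private def e2_SL (g : SL n R) : SL (n + 1) R := ⟨e2_mat g.1, by rw [e2_mat_det]; exact g.2⟩

omit [IsTopologicalRing R] in
private theorem e2_cont : Continuous (e2_SL : SL n R → SL (n + 1) R) := by
  refine Continuous.subtype_mk ?_ _
  refine continuous_matrix fun k l => ?_
  have hc : ∀ i j : Fin n, Continuous fun g : SL n R => g.1 i j := fun i j =>
    (continuous_subtype_val).matrix_elem i j
  induction k using Fin.lastCases with
  | last =>
    induction l using Fin.lastCases with
    | last => simp only [e2_mat_ll]; exact continuous_const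
    | cast l => simp only [e2_mat_lc]; exact continuous_const
  | cast k =>
    induction l using Fin.lastCases with
    | last => simp only [e2_mat_cl]; exact continuous_const
    | cast l => simp only [e2_mat_cc]; exact hc k l

private def e2_hom (n : ℕ) (R : Type) [CommRing R] [TopologicalSpace R] [IsTopologicalRing R]
    (Z : Type) [TopologicalSpace Z] : C(Z, SL n R) →* C(Z, SL (n + 1) R) where
  toFun b := ⟨fun z => e2_SL (b z), e2_cont.comp b.continuous⟩
  map_one' := by
    ext z : 1
    exact Subtype.ext e2_mat_one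
  map_mul' a b := by
    ext z : 1
    exact Subtype.ext (e2_mat_mul _ _)

/-- the embedding of `SL_n` in `SL_(n+1)` -/
theorem exists_emb (b : C(Z, SL n R)) (hb : b ∈ EG n R Z) : ∃ e ∈ EG (n + 1) R Z,
    ∀ z, (∀ i j : Fin n, (e z).1 i.castSucc j.castSucc = (b z).1 i j) ∧
      (∀ i : Fin n, (e z).1 i.castSucc (Fin.last n) = 0) ∧
      (∀ j : Fin n, (e z).1 (Fin.last n) j.castSucc = 0) ∧
      (e z).1 (Fin.last n) (Fin.last n) = 1 := by
  have H : EG n R Z ≤ (EG (n + 1) R Z).comap (e2_hom n R Z) := by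
    refine (Subgroup.closure_le _).2 ?_
    rintro e ⟨i, j, h, c, he⟩
    refine Subgroup.mem_comap.2 (Subgroup.subset_closure ?_)
    refine ⟨i.castSucc, j.castSucc, fun hh => h (Fin.castSucc_injective n hh), c, fun z => ?_⟩
    refine Subtype.ext (Matrix.ext fun k l => ?_)
    have h1 : (e2_hom n R Z e z).1 = e2_mat (e z).1 := rfl
    rw [h1, he z]
    change e2_mat (Matrix.transvection i j (c z)) k l =
      Matrix.transvection i.castSucc j.castSucc (c z) k l
    induction k using Fin.lastCases with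
    | last =>
      induction l using Fin.lastCases with
      | last =>
        rw [e2_mat_ll, Matrix.transvection, Matrix.add_apply, Matrix.one_apply_eq,
          Matrix.single_apply, if_neg (fun hh => (Fin.castSucc_ne_last i) hh.1), add_zero]
      | cast l =>
        rw [e2_mat_lc, Matrix.transvection, Matrix.add_apply,
          Matrix.one_apply_ne (Fin.castSucc_ne_last l).symm,
          Matrix.single_apply, if_neg (fun hh => (Fin.castSucc_ne_last i) hh.1), add_zero]
    | cast k =>
      induction l using Fin.lastCases with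
      | last =>
        rw [e2_mat_cl, Matrix.transvection, Matrix.add_apply,
          Matrix.one_apply_ne (Fin.castSucc_ne_last k),
          Matrix.single_apply, if_neg (fun hh => (Fin.castSucc_ne_last j) hh.2), add_zero]
      | cast l =>
        rw [e2_mat_cc, Matrix.transvection, Matrix.transvection, Matrix.add_apply,
          Matrix.add_apply, Matrix.one_apply, Matrix.one_apply, Matrix.single_apply,
          Matrix.single_apply]
        simp only [Fin.castSucc_inj]
  refine ⟨e2_hom n R Z b, H hb, fun z => ?_⟩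
  have h1 : (e2_hom n R Z b z).1 = e2_mat (b z).1 := rfl
  rw [h1]
  exact ⟨e2_mat_cc _, e2_mat_cl _, e2_mat_lc _, e2_mat_ll _⟩

/-- if the last column is `e_n` and all families in dimension `n` are generated -/
theorem mem_of_last (ih : ∀ b : C(Z, SL n R), b ∈ EG n R Z) (a : C(Z, SL (n + 1) R))
    (h0 : ∀ z (i : Fin n), (a z).1 i.castSucc (Fin.last n) = 0)
    (h1 : ∀ z, (a z).1 (Fin.last n) (Fin.last n) = 1) : a ∈ EG (n + 1) R Z := by
  have hdet : ∀ z, (Matrix.of fun i j : Fin n => (a z).1 i.castSucc j.castSucc).det = 1 := by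
    intro z
    have h2 : (a z).1 = (Matrix.fromBlocks (Matrix.of fun i j : Fin n => (a z).1 i.castSucc j.castSucc)
        0 (Matrix.of fun (_ : Fin 1) (j : Fin n) => (a z).1 (Fin.last n) j.castSucc)
        (1 : Matrix (Fin 1) (Fin 1) R)).submatrix finSumFinEquiv.symm finSumFinEquiv.symm := by
      refine Matrix.ext fun k l => ?_
      induction k using Fin.lastCases with
      | last =>
        induction l using Fin.lastCases with
        | last =>
          rw [Matrix.submatrix_apply, e2_symm_last, Matrix.fromBlocks_apply₂₂,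
            Matrix.one_apply_eq, h1]
        | cast l =>
          rw [Matrix.submatrix_apply, e2_symm_last, e2_symm_cast, Matrix.fromBlocks_apply₂₁]
          rfl
      | cast k =>
        induction l using Fin.lastCases with
        | last =>
          rw [Matrix.submatrix_apply, e2_symm_last, e2_symm_cast, Matrix.fromBlocks_apply₁₂, h0]
          rfl
        | cast l =>
          rw [Matrix.submatrix_apply, e2_symm_cast, e2_symm_cast, Matrix.fromBlocks_apply₁₁]
          rfl
    have h3 := (a z).2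
    rw [h2, Matrix.det_submatrix_equiv_self, Matrix.det_fromBlocks_zero₁₂, Matrix.det_one,
      mul_one] at h3
    exact h3
  have hel : ∀ i j : Fin (n + 1), Continuous fun z => (a z).1 i j := fun i j =>
    (continuous_subtype_val.comp a.continuous).matrix_elem i j
  let b : C(Z, SL n R) := ⟨fun z => ⟨Matrix.of fun i j : Fin n => (a z).1 i.castSucc j.castSucc,
    hdet z⟩, Continuous.subtype_mk (continuous_matrix fun i j => hel _ _) _⟩
  have hb : ∀ z i j, (b z).1 i j = (a z).1 i.castSucc j.castSucc := fun z i j => rfl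
  obtain ⟨e, he, hz⟩ := exists_emb b (ih b)
  obtain ⟨e', he', hz'⟩ := exists_row (R := R) (Z := Z) (Fin.last n)
    (fun j => ⟨fun z => (a z).1 (Fin.last n) j, hel _ _⟩)
  have hae : a = e * e' := by
    ext z : 1
    refine Subtype.ext ?_
    have h2 : ((e * e') z).1 = (e z).1 * (e' z).1 := rfl
    rw [h2]
    refine Matrix.ext_of_mulVec_single fun l => ?_
    generalize (Pi.single l 1 : Fin (n + 1) → R) = x
    rw [← Matrix.mulVec_mulVec]
    obtain ⟨h3, h4⟩ := hz' z x
    obtain ⟨g1, g2, g3, g4⟩ := hz z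
    have h5 : ∀ j : Fin n, ((e' z).1 *ᵥ x) j.castSucc = x j.castSucc := fun j =>
      h4 _ (Fin.castSucc_ne_last j)
    ext k
    induction k using Fin.lastCases with
    | last =>
      rw [Matrix.mulVec, Matrix.mulVec, dotProduct, dotProduct, Fin.sum_univ_castSucc,
        Fin.sum_univ_castSucc, h1, g4, h3]
      have h6 : ∑ j : Fin n, (e z).1 (Fin.last n) j.castSucc * ((e' z).1 *ᵥ x) j.castSucc = 0 :=
        Finset.sum_eq_zero fun j _ => by rw [g3, zero_mul]
      rw [h6]
      have h7 : ∑ j ∈ Finset.univ.erase (Fin.last n), (a z).1 (Fin.last n) j * x j =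
          ∑ j : Fin n, (a z).1 (Fin.last n) j.castSucc * x j.castSucc := by
        have h8 := Finset.sum_erase_add Finset.univ (fun j => (a z).1 (Fin.last n) j * x j)
          (Finset.mem_univ (Fin.last n))
        rw [Fin.sum_univ_castSucc] at h8
        exact add_right_cancel h8
      change _ = 0 + 1 * (x (Fin.last n) +
        ∑ j ∈ Finset.univ.erase (Fin.last n), (a z).1 (Fin.last n) j * x j)
      rw [h7]
      ring
    | cast k =>
      rw [Matrix.mulVec, Matrix.mulVec, dotProduct, dotProduct, Fin.sum_univ_castSucc,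
        Fin.sum_univ_castSucc, h0, g2, zero_mul, zero_mul, add_zero, add_zero]
      exact Finset.sum_congr rfl fun j _ => by rw [g1, h5, hb]
  rw [hae]
  exact Subgroup.mul_mem _ he he'

end ring

section loc

variable {K : Type} [Field K] [TopologicalSpace K] [IsTopologicalDivisionRing K] [T2Space K]
  {v : Valuation K VG} (hv : Continuous v)
  {n : ℕ} {Y : Type} [TopologicalSpace Y]

include hv

omit [TopologicalSpace K] [IsTopologicalDivisionRing K] [T2Space K] hv [TopologicalSpace Y] in
private theorem e3_aux (w : Fin (n + 1) → VG) (γ : VG) (h1 : ∀ i, w i ≤ γ) (h2 : ∃ i, w i = γ) :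
    (∀ i : Fin n, w i.castSucc < w (Fin.last n)) ↔ ∀ i : Fin n, w i.castSucc < γ := by
  refine ⟨fun H i => (H i).trans_le (h1 _), fun H i => ?_⟩
  obtain ⟨j, hj⟩ := h2
  induction j using Fin.lastCases with
  | last => rw [hj]; exact H i
  | cast k => exact absurd (H k) (by rw [hj]; exact lt_irrefl _)

/-- first step: `1` where the last entry is larger than all the others -/
theorem loc_one (x : Y → Fin (n + 1) → K) (hx : Continuous x) (h : ∀ y, ∃ i, x y i ≠ 0) :
    ∃ c : Y → K, Continuous c ∧ (∀ y, c y = 0 ∨ c y = 1) ∧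
      (∀ y, c y = 0 → ∃ i : Fin n, ∀ j, v (x y j) ≤ v (x y i.castSucc)) ∧
      ∀ y, c y = 1 → ∀ i : Fin n, v (x y i.castSucc) < v (x y (Fin.last n)) := by
  classical
  have hcx : ∀ i, Continuous fun y => x y i := fun i => (continuous_apply i).comp hx
  have hmax : ∀ y, ∃ m, (∀ i, v (x y i) ≤ v (x y m)) ∧ v (x y m) ≠ 0 := by
    intro y
    obtain ⟨m, -, hm⟩ := Finset.exists_max_image Finset.univ (fun i => v (x y i))
      ⟨Fin.last n, Finset.mem_univ _⟩
    refine ⟨m, fun i => hm i (Finset.mem_univ i), fun h0 => ?_⟩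
    obtain ⟨i, hi⟩ := h y
    have h1 := hm i (Finset.mem_univ i)
    rw [h0] at h1
    exact hi ((Valuation.zero_iff v).1 (le_antisymm h1 bot_le))
  have hP : ∀ y₀, ∀ᶠ y in 𝓝 y₀, ((∀ i : Fin n, v (x y i.castSucc) < v (x y (Fin.last n))) ↔
      ∀ i : Fin n, v (x y₀ i.castSucc) < v (x y₀ (Fin.last n))) := by
    intro y₀
    obtain ⟨m, hm, hm0⟩ := hmax y₀
    have h3 : ∀ i, ∀ᶠ y in 𝓝 y₀, (v (x y i) < v (x y₀ m) ↔ v (x y₀ i) < v (x y₀ m)) ∧
        v (x y i) ≤ v (x y₀ m) := by
      intro i
      rcases (hm i).lt_or_eq with hlt | heq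
      · have h4 : ∀ᶠ γ in 𝓝 (v (x y₀ i)), γ < v (x y₀ m) := by
          refine IsOpen.mem_nhds ?_ hlt
          rw [WithZeroTopology.isOpen_iff]
          exact Or.inr ⟨v (x y₀ m), hm0, fun z hz => hz⟩
        filter_upwards [(hv.comp (hcx i)).continuousAt.eventually h4] with y hy
        exact ⟨⟨fun _ => hlt, fun _ => hy⟩, le_of_lt hy⟩
      · have h0 : x y₀ i ≠ 0 := fun h0 => hm0 (by rw [← heq, h0, map_zero])
        filter_upwards [eventually_val hv (hcx i) h0] with y hy
        rw [hy, heq]
        exact ⟨Iff.rfl, le_rfl⟩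
    have h0 : x y₀ m ≠ 0 := fun h0 => hm0 (by rw [h0, map_zero])
    filter_upwards [eventually_all.2 h3, eventually_val hv (hcx m) h0] with y hy hym
    rw [e3_aux (fun i => v (x y i)) (v (x y₀ m)) (fun i => (hy i).2) ⟨m, hym⟩,
      e3_aux (fun i => v (x y₀ i)) (v (x y₀ m)) hm ⟨m, rfl⟩]
    exact forall_congr' fun i => (hy i.castSucc).1
  refine ⟨fun y => if (∀ i : Fin n, v (x y i.castSucc) < v (x y (Fin.last n))) then 1 else 0,
    ?_, fun y => ?_, fun y hy => ?_, fun y hy => ?_⟩
  · refine ((IsLocallyConstant.iff_eventually_eq _).2 fun y₀ => ?_).continuous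
    filter_upwards [hP y₀] with y hy
    simp only [hy]
  · by_cases hh : ∀ i : Fin n, v (x y i.castSucc) < v (x y (Fin.last n))
    · exact Or.inr (if_pos hh)
    · exact Or.inl (if_neg hh)
  · by_cases hh : ∀ i : Fin n, v (x y i.castSucc) < v (x y (Fin.last n))
    · simp only [if_pos hh] at hy
      exact absurd hy one_ne_zero
    · obtain ⟨m, hm, hm0⟩ := hmax y
      induction m using Fin.lastCases with
      | last =>
        obtain ⟨i, hi⟩ := not_forall.1 hh
        exact ⟨i, fun j => (hm j).trans (not_lt.1 hi)⟩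
      | cast i => exact ⟨i, hm⟩
  · by_cases hh : ∀ i : Fin n, v (x y i.castSucc) < v (x y (Fin.last n))
    · exact hh
    · simp only [if_neg hh] at hy
      exact absurd hy zero_ne_one

/-- second step -/
theorem loc_two (x : Y → Fin (n + 1) → K) (hx : Continuous x)
    (h : ∀ y, ∃ i : Fin n, x y i.castSucc ≠ 0) :
    ∃ d : Fin n → Y → K, (∀ i, Continuous (d i)) ∧
      (∀ y, ∑ i, d i y * x y i.castSucc = 1 - x y (Fin.last n)) ∧
      ∀ y, (∀ i, v (x y i) ≤ 1) → (∃ i : Fin n, v (x y i.castSucc) = 1) →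
        ∀ i, v (d i y) ≤ 1 := by
  classical
  rcases isEmpty_or_nonempty Y with hY | hY
  · exact ⟨fun _ _ => 0, fun i => continuous_const, fun y => (hY.false y).elim,
      fun y => (hY.false y).elim⟩
  have hcx : ∀ i, Continuous fun y => x y i := fun i => (continuous_apply i).comp hx
  have : Nonempty (Fin n) := ⟨(h hY.some).choose⟩
  obtain ⟨s, hs, hmax⟩ := exists_select (fun (i : Fin n) y => v (x y i.castSucc))
    (fun i => hv.comp (hcx _)) (fun y => by
      obtain ⟨i, hi⟩ := h y
      exact ⟨i, fun h0 => hi ((Valuation.zero_iff v).1 h0)⟩)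
  have hne : ∀ y, x y (s y).castSucc ≠ 0 := by
    intro y h0
    obtain ⟨i, hi⟩ := h y
    have h1 := hmax y i
    simp only [h0, map_zero] at h1
    exact hi ((Valuation.zero_iff v).1 (le_antisymm h1 bot_le))
  refine ⟨fun i y => if i = s y then (1 - x y (Fin.last n)) / x y (s y).castSucc else 0,
    fun i => ?_, fun y => ?_, fun y h1 h2 i => ?_⟩
  · refine continuous_iff_continuousAt.2 fun y₀ => ?_
    have h3 : ContinuousAt (fun y => if i = s y₀ then
        (1 - x y (Fin.last n)) / x y (s y₀).castSucc else 0) y₀ := by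
      split_ifs
      · exact ContinuousAt.div (continuousAt_const.sub (hcx _).continuousAt)
          (hcx _).continuousAt (hne y₀)
      · exact continuousAt_const
    refine h3.congr ?_
    filter_upwards [(IsLocallyConstant.iff_eventually_eq _).1 hs y₀] with y hy
    rw [hy]
  · rw [Finset.sum_eq_single (s y)]
    · simp only [if_true]
      exact div_mul_cancel₀ _ (hne y)
    · intro j _ hj
      simp only [if_neg hj, zero_mul]
    · intro hh
      exact absurd (Finset.mem_univ _) hh
  · by_cases hi : i = s y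
    · simp only [if_pos hi]
      obtain ⟨j, hj⟩ := h2
      have h4 : v (x y (s y).castSucc) = 1 := le_antisymm (h1 _) (hj ▸ hmax y j)
      rw [map_div₀, h4, div_one]
      refine (Valuation.map_sub v 1 _).trans ?_
      rw [map_one]
      exact max_le le_rfl (h1 _)
    · simp only [if_neg hi, map_zero]
      exact bot_le

end loc

namespace Glob

variable {G : Glob}

private theorem e4_sum {n : ℕ} (f : Fin n → G.A) (v : G.ι) : (∑ i, f i) v = ∑ i, f i v := by
  let ev : G.A →+ G.K v := ⟨⟨fun a => a v, rfl⟩, fun a b => rfl⟩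
  exact map_sum ev f Finset.univ

/-- the elimination of a column -/
theorem elim {n : ℕ} (hn : 0 < n) {Z : Type} [TopologicalSpace Z] (x : C(Z, G.FF (n + 1) 1)) :
    ∃ e ∈ EG (n + 1) G.A Z, ∀ z, (e z).1 *ᵥ (fun i => vec (x z) i 0) =
      fun i => if i = Fin.last n then 1 else 0 := by
  classical
  have hxc := cont_FF_iff.1 x.continuous
  have hX : ∀ v, Continuous fun z (i : Fin (n + 1)) => (x z v).1 i 0 := fun v =>
    continuous_pi fun i => (hxc.1 v).matrix_elem i 0
  have hne : ∀ v z, ∃ i, (x z v).1 i 0 ≠ 0 := by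
    intro v z
    by_contra hcon
    push Not at hcon
    refine (x z v).2 ?_
    rw [mm_col]
    refine le_antisymm (Finset.sup_le fun i _ => ?_) bot_le
    rw [hcon i, map_zero]
  choose c hc1 hc2 hc3 hc4 using fun v =>
    loc_one (G.cont v) (fun z (i : Fin (n + 1)) => (x z v).1 i 0) (hX v) (hne v)
  have hc5 : ∀ v z, G.val v (c v z) ≤ 1 := by
    intro v z
    rcases hc2 v z with h | h
    · rw [h, map_zero]; exact bot_le
    · rw [h, map_one]
  obtain ⟨C, hC⟩ := exists_CA c hc1 (fun y₀ => ⟨∅, Set.finite_empty,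
    Eventually.of_forall fun y v _ => hc5 v y⟩)
  obtain ⟨k0, hk0⟩ : ∃ k0 : Fin n, k0 = ⟨0, hn⟩ := ⟨_, rfl⟩
  have hi0 : k0.castSucc ≠ Fin.last n := Fin.castSucc_ne_last _
  obtain ⟨e1, he1, h1⟩ := exists_elt (R := G.A) (Z := Z) k0.castSucc (Fin.last n) hi0 C
  obtain ⟨y1, hy1⟩ : ∃ y1 : Z → Fin (n + 1) → G.A,
      y1 = fun z => (e1 z).1 *ᵥ (fun i => vec (x z) i 0) := ⟨_, rfl⟩
  obtain ⟨X1, hX1d⟩ : ∃ X1 : ∀ v : G.ι, Z → Fin (n + 1) → G.K v, X1 = fun v z i =>
      (x z v).1 i 0 + if i = k0.castSucc then c v z * (x z v).1 (Fin.last n) 0 else 0 := ⟨_, rfl⟩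
  have hy1v : ∀ z i v, y1 z i v = X1 v z i := by
    intro z i v
    rw [hy1, hX1d]
    simp only
    rw [h1, e1_tv]
    by_cases hi : i = k0.castSucc
    · rw [if_pos hi, if_pos hi, ← hC]
      rfl
    · rw [if_neg hi, if_neg hi, add_zero, add_zero]
      rfl
  have hX1 : ∀ v, Continuous (X1 v) := by
    intro v
    rw [hX1d]
    refine continuous_pi fun i => ?_
    refine ((continuous_apply i).comp (hX v)).add ?_
    split_ifs
    · exact (hc1 v).mul ((continuous_apply (Fin.last n)).comp (hX v))
    · exact continuous_const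
  have hM : ∀ v z, ∃ i : Fin n, ∀ j, G.val v ((x z v).1 j 0) ≤ G.val v (X1 v z i.castSucc) := by
    intro v z
    rcases hc2 v z with h | h
    · obtain ⟨i, hi⟩ := hc3 v z h
      refine ⟨i, fun j => ?_⟩
      rw [hX1d]
      simp only [h, zero_mul, ite_self, add_zero]
      exact hi j
    · have h2 := hc4 v z h
      refine ⟨k0, fun j => ?_⟩
      rw [hX1d]
      simp only [h, one_mul, if_true]
      rw [Valuation.map_add_eq_of_lt_right _ (h2 k0)]
      induction j using Fin.lastCases with
      | last => exact le_rfl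
      | cast j => exact (h2 j).le
  have hne1 : ∀ v z, ∃ i : Fin n, X1 v z i.castSucc ≠ 0 := by
    intro v z
    obtain ⟨i, hi⟩ := hM v z
    obtain ⟨j, hj⟩ := hne v z
    refine ⟨i, fun h0 => hj ?_⟩
    have h3 := hi j
    rw [h0, map_zero] at h3
    exact (Valuation.zero_iff _).1 (le_antisymm h3 bot_le)
  have hInt1 : ∀ v z, Int (G.val v) (x z v).1 → mm (G.val v) (x z v).1 = 1 →
      (∀ i, G.val v (X1 v z i) ≤ 1) ∧ ∃ i : Fin n, G.val v (X1 v z i.castSucc) = 1 := by
    intro v z h2 h3
    have h4 : ∀ i, G.val v (X1 v z i) ≤ 1 := by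
      intro i
      rw [hX1d]
      simp only
      refine (Valuation.map_add _ _ _).trans (max_le (h2 i 0) ?_)
      split_ifs
      · rw [map_mul]
        exact mul_le_one' (hc5 v z) (h2 _ 0)
      · rw [map_zero]; exact bot_le
    refine ⟨h4, ?_⟩
    obtain ⟨i, hi⟩ := hM v z
    refine ⟨i, le_antisymm (h4 _) ?_⟩
    rw [mm_col] at h3
    rw [← h3]
    exact Finset.sup_le fun j _ => hi j
  choose d hd1 hd2 hd3 using fun v => loc_two (G.cont v) (X1 v) (hX1 v) (hne1 v)
  have hDe : ∀ i : Fin n, ∃ g : C(Z, G.A), ∀ y v, g y v = d v i y := by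
    intro i
    refine exists_CA (fun v => d v i) (fun v => hd1 v i) fun y₀ => ?_
    obtain ⟨S, hS, h2⟩ := hxc.2 y₀
    refine ⟨S, hS, ?_⟩
    filter_upwards [h2] with y hy v hv
    obtain ⟨h3, h4⟩ := hInt1 v y (hy v hv).1 (hy v hv).2
    exact hd3 v y h3 h4 i
  choose D hD using hDe
  obtain ⟨e2, he2, h2⟩ := exists_row (R := G.A) (Z := Z) (Fin.last n)
    (fun j => Fin.lastCases 0 D j)
  have hy1c : ∀ k, Continuous fun z => y1 z k := by
    intro k
    rw [hy1]
    have h3 : Continuous fun z => (fun i => vec (x z) i 0 : Fin (n + 1) → G.A) :=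
      continuous_pi fun i => (continuous_vec.comp x.continuous).matrix_elem i 0
    exact (continuous_apply k).comp
      ((continuous_subtype_val.comp e1.continuous).matrix_mulVec h3)
  obtain ⟨e3, he3, h3⟩ := exists_col (R := G.A) (Z := Z) (Fin.last n)
    (fun k => ⟨fun z => - y1 z k, (hy1c k).neg⟩)
  refine ⟨e3 * (e2 * e1), Subgroup.mul_mem _ he3 (Subgroup.mul_mem _ he2 he1), fun z => ?_⟩
  have h4 : ((e3 * (e2 * e1)) z).1 = (e3 z).1 * ((e2 z).1 * (e1 z).1) := rfl
  rw [h4, ← Matrix.mulVec_mulVec, ← Matrix.mulVec_mulVec]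
  have h5 : (e1 z).1 *ᵥ (fun i => vec (x z) i 0) = y1 z := by rw [hy1]
  rw [h5]
  obtain ⟨h6, h7⟩ := h2 z (y1 z)
  obtain ⟨h8, h9⟩ := h3 z ((e2 z).1 *ᵥ y1 z)
  have hsum : ((e2 z).1 *ᵥ y1 z) (Fin.last n) = 1 := by
    rw [h6]
    have h10 := Finset.sum_erase_add Finset.univ
      (fun j => (Fin.lastCases 0 D j : C(Z, G.A)) z * y1 z j) (Finset.mem_univ (Fin.last n))
    rw [Fin.sum_univ_castSucc] at h10
    rw [add_right_cancel h10]
    ext v
    have h11 : (y1 z (Fin.last n) + ∑ i : Fin n,
        (Fin.lastCases 0 D i.castSucc : C(Z, G.A)) z * y1 z i.castSucc) v =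
        X1 v z (Fin.last n) + ∑ i : Fin n, d v i z * X1 v z i.castSucc := by
      rw [RestrictedProduct.add_apply, hy1v, e4_sum]
      congr 1
      refine Finset.sum_congr rfl fun i _ => ?_
      rw [Fin.lastCases_castSucc, RestrictedProduct.mul_apply, hD, hy1v]
    rw [h11, hd2]
    change _ = (1 : G.K v)
    ring
  ext k : 1
  by_cases hk : k = Fin.last n
  · rw [if_pos hk, hk, h8, hsum]
  · rw [if_neg hk, h9 k hk, h7 k hk, hsum]
    change y1 z k + (- y1 z k) * 1 = 0
    ring

theorem gen (n : ℕ) (Z : Type) [TopologicalSpace Z] (a : C(Z, SL n G.A)) : a ∈ EG n G.A Z := by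
  classical
  induction n with
  | zero =>
    have h1 : a = 1 := by
      ext z : 1
      refine Subtype.ext (Matrix.ext fun i => i.elim0)
    rw [h1]
    exact Subgroup.one_mem _
  | succ n ih =>
    rcases Nat.eq_zero_or_pos n with rfl | hn
    · have h1 : a = 1 := by
        ext z : 1
        refine Subtype.ext (Matrix.ext fun i j => ?_)
        have h2 := (a z).2
        rw [Matrix.det_fin_one] at h2
        have hi : i = 0 := Fin.ext (by omega)
        have hj : j = 0 := Fin.ext (by omega)
        rw [hi, hj]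
        exact h2
      rw [h1]
      exact Subgroup.one_mem _
    · obtain ⟨m, hm⟩ := exists_mul (G := G) (n := n + 1) (r := 1)
      obtain ⟨φ, hφ⟩ := exists_of_inv (G := G)
        (Matrix.of fun (i : Fin (n + 1)) (_ : Fin 1) => if i = Fin.last n then (1 : G.A) else 0)
        (Matrix.of fun (_ : Fin 1) (i : Fin (n + 1)) => if i = Fin.last n then (1 : G.A) else 0)
        (by
          ext i j : 2
          rw [Subsingleton.elim i 0, Subsingleton.elim j 0, Matrix.mul_apply,
            Matrix.one_apply_eq, Finset.sum_eq_single (Fin.last n)]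
          · simp
          · intro b _ hb
            simp [hb]
          · intro hh
            exact absurd (Finset.mem_univ _) hh)
      obtain ⟨e, he, hez⟩ := elim hn
        (⟨fun z => m (a z, φ), m.continuous.comp (a.continuous.prodMk continuous_const)⟩ :
          C(Z, G.FF (n + 1) 1))
      have hcol : ∀ z, (fun i => vec (m (a z, φ)) i 0) = fun i => (a z).1 i (Fin.last n) := by
        intro z
        ext i : 1
        rw [hm, hφ, Matrix.mul_apply, Finset.sum_eq_single (Fin.last n)]
        · simp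
        · intro b _ hb
          simp [hb]
        · intro hh
          exact absurd (Finset.mem_univ _) hh
      have hea : ∀ z k, ((e * a) z).1 k (Fin.last n) = if k = Fin.last n then 1 else 0 := by
        intro z k
        have h1 := congrFun (hez z) k
        rw [← h1]
        change ((e z).1 * (a z).1) k (Fin.last n) = ((e z).1 *ᵥ fun i => vec (m (a z, φ)) i 0) k
        rw [hcol z]
        rfl
      have hmem : e * a ∈ EG (n + 1) G.A Z := mem_of_last ih (e * a)
        (fun z i => by rw [hea, if_neg (Fin.castSucc_ne_last i)])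
        (fun z => by rw [hea, if_pos rfl])
      have h3 := Subgroup.mul_mem _ (Subgroup.inv_mem _ he) hmem
      rwa [inv_mul_cancel_left] at h3

end Glob

end Pool.Agent.BRW
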