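import Pool.Agent.BRW.Loc1

/-!
# Continuous maps into restricted products
-/

set_option autoImplicit false

namespace Pool.Agent.BRW

open Matrix Filter Topology
open scoped RestrictedProduct WithZeroTopology

private theorem r1_nhds {ι : Type} {R : ι → Type} [∀ i, TopologicalSpace (R i)]
    {B : ∀ i, Set (R i)} (hB : ∀ i, IsOpen (B i)) (x : Πʳ i, [R i, B i])
    {U : Set (Πʳ i, [R i, B i])} (hU : U ∈ 𝓝 x) :
    ∃ (T : Finset ι) (V : ∀ i, Set (R i)), (∀ i, V i ∈ 𝓝 (x i)) ∧ (∀ i, i ∉ T → x i ∈ B i) ∧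
      ∀ y : Πʳ i, [R i, B i], (∀ i ∈ T, y i ∈ V i) → (∀ i, i ∉ T → y i ∈ B i) → y ∈ U := by
  classical
  set S : Set ι := {i | x i ∈ B i} with hSdef
  have hSfin : (Sᶜ : Set ι).Finite := x.2
  have hS : cofinite ≤ 𝓟 S := le_principal_iff.2 x.2
  let x' : Πʳ i, [R i, B i]_[𝓟 S] := ⟨x.1, mem_principal_self S⟩
  have hx' : RestrictedProduct.inclusion R B hS x' = x := rfl
  rw [← hx', RestrictedProduct.nhds_eq_map_inclusion hB, mem_map,
    RestrictedProduct.isEmbedding_coe_of_principal.nhds_eq_comap, mem_comap] at hU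
  obtain ⟨W, hW, hWU⟩ := hU
  rw [nhds_pi, Filter.mem_pi] at hW
  obtain ⟨I, hI, t, ht, htW⟩ := hW
  refine ⟨hI.toFinset ∪ hSfin.toFinset, fun i => if x i ∈ B i then t i ∩ B i else t i,
    fun i => ?_, fun i hi => ?_, fun y hy hy' => ?_⟩
  · dsimp only
    split_ifs with h
    · exact inter_mem (ht i) ((hB i).mem_nhds h)
    · exact ht i
  · by_contra hne
    apply hi
    rw [Finset.mem_union, Set.Finite.mem_toFinset, Set.Finite.mem_toFinset]
    exact Or.inr hne
  · have hyS : ∀ i ∈ S, y i ∈ B i := by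
      intro i hi
      by_cases hiT : i ∈ hI.toFinset ∪ hSfin.toFinset
      · have h := hy i hiT
        dsimp only at h
        rw [if_pos (show x i ∈ B i from hi)] at h
        exact h.2
      · exact hy' i hiT
    let y' : Πʳ i, [R i, B i]_[𝓟 S] := ⟨y.1, mem_principal.2 hyS⟩
    have hy'1 : RestrictedProduct.inclusion R B hS y' = y := rfl
    rw [← hy'1]
    apply hWU
    apply htW
    intro i hi
    have hiT : i ∈ hI.toFinset ∪ hSfin.toFinset := by
      rw [Finset.mem_union, Set.Finite.mem_toFinset]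
      exact Or.inl hi
    have h := hy i hiT
    dsimp only at h
    show y i ∈ t i
    split_ifs at h with h1
    · exact h.1
    · exact h

/-- the general criterion -/
theorem rp_cont_iff {ι : Type} {R : ι → Type} [∀ i, TopologicalSpace (R i)]
    {B : ∀ i, Set (R i)} (hB : ∀ i, IsOpen (B i)) {Y : Type} [TopologicalSpace Y]
    {f : Y → Πʳ i, [R i, B i]} :
    Continuous f ↔ (∀ i, Continuous fun y => f y i) ∧
      ∀ y₀, ∃ S : Set ι, S.Finite ∧ ∀ᶠ y in 𝓝 y₀, ∀ i, i ∉ S → f y i ∈ B i := by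
  classical
  constructor
  · intro hf
    refine ⟨fun i => (RestrictedProduct.continuous_eval i).comp hf, fun y₀ => ?_⟩
    refine ⟨{i | f y₀ i ∈ B i}ᶜ, (f y₀).2, ?_⟩
    have ho : IsOpen {g : Πʳ i, [R i, B i] | ∀ i, i ∉ ({i | f y₀ i ∈ B i}ᶜ : Set ι) →
        g.1 i ∈ B i} := RestrictedProduct.isOpen_forall_imp_mem hB
    refine hf.continuousAt.eventually (ho.mem_nhds ?_)
    intro i hi
    exact not_not.1 hi
  · rintro ⟨hc, hb⟩
    rw [continuous_iff_continuousAt]
    intro y₀ U hU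
    obtain ⟨T, V, hV, hT, h⟩ := r1_nhds hB (f y₀) hU
    obtain ⟨S, hS, hSb⟩ := hb y₀
    have h1 : ∀ᶠ y in 𝓝 y₀, ∀ i ∈ T, f y i ∈ V i :=
      (Filter.eventually_all_finset T).2 fun i _ => (hc i).continuousAt.eventually (hV i)
    have h2 : ∀ᶠ y in 𝓝 y₀, ∀ i ∈ hS.toFinset \ T, f y i ∈ B i := by
      refine (Filter.eventually_all_finset _).2 fun i hi => ?_
      exact (hc i).continuousAt.eventually ((hB i).mem_nhds (hT i (Finset.mem_sdiff.1 hi).2))
    rw [mem_map]
    filter_upwards [h1, h2, hSb] with y h1 h2 h3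
    refine h (f y) h1 fun i hi => ?_
    by_cases hiS : i ∈ S
    · exact h2 i (Finset.mem_sdiff.2 ⟨hS.mem_toFinset.2 hiS, hi⟩)
    · exact h3 i hiS

/-- neighbourhoods in a restricted product -/
theorem rp_mem_nhds {ι : Type} {R : ι → Type} [∀ i, TopologicalSpace (R i)]
    {B : ∀ i, Set (R i)} (hB : ∀ i, IsOpen (B i)) (x : Πʳ i, [R i, B i])
    {U : Set (Πʳ i, [R i, B i])} (hU : U ∈ 𝓝 x) :
    ∃ (T : Finset ι) (V : ∀ i, Set (R i)), (∀ i, V i ∈ 𝓝 (x i)) ∧ (∀ i, i ∉ T → x i ∈ B i) ∧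
      ∀ y : Πʳ i, [R i, B i], (∀ i ∈ T, y i ∈ V i) → (∀ i, i ∉ T → y i ∈ B i) → y ∈ U :=
  r1_nhds hB x hU

namespace Glob

variable {G : Glob}

theorem cont_A_iff {Y : Type} [TopologicalSpace Y] {f : Y → G.A} :
    Continuous f ↔ (∀ v, Continuous fun y => f y v) ∧
      ∀ y₀, ∃ S : Set G.ι, S.Finite ∧ ∀ᶠ y in 𝓝 y₀, ∀ v, v ∉ S → G.val v (f y v) ≤ 1 :=
  rp_cont_iff (R := G.K) (B := fun v => (G.O v : Set (G.K v))) G.isOpen_O

/-- construction of continuous functions with values in the restricted product -/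
theorem exists_CA {Y : Type} [TopologicalSpace Y] (f : ∀ v : G.ι, Y → G.K v)
    (hc : ∀ v, Continuous (f v))
    (hb : ∀ y₀, ∃ S : Set G.ι, S.Finite ∧ ∀ᶠ y in 𝓝 y₀, ∀ v, v ∉ S → G.val v (f v y) ≤ 1) :
    ∃ g : C(Y, G.A), ∀ y v, g y v = f v y := by
  have h0 : ∀ y, ∀ᶠ v in cofinite, f v y ∈ (G.O v : Set (G.K v)) := by
    intro y
    obtain ⟨S, hS, h⟩ := hb y
    refine hS.subset fun v hv => ?_
    by_contra hvS
    exact hv (h.self_of_nhds v hvS)
  let g : Y → G.A := fun y => ⟨fun v => f v y, h0 y⟩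
  have hg : Continuous g := cont_A_iff.2 ⟨hc, hb⟩
  exact ⟨⟨g, hg⟩, fun y v => rfl⟩

/-- a continuous map to the matrices is integral near a point outside a finite set -/
theorem eventually_int {Y : Type} [TopologicalSpace Y] {n r : ℕ}
    {f : Y → Matrix (Fin n) (Fin r) G.A} (hf : Continuous f) (y₀ : Y) :
    ∃ S : Set G.ι, S.Finite ∧ ∀ᶠ y in 𝓝 y₀, ∀ v, v ∉ S → Int (G.val v) fun i j => f y i j v := by
  have h : ∀ i j, ∃ S : Set G.ι, S.Finite ∧
      ∀ᶠ y in 𝓝 y₀, ∀ v, v ∉ S → G.val v (f y i j v) ≤ 1 := by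
    intro i j
    have h1 : Continuous fun y => f y i j :=
      (continuous_apply j).comp ((continuous_apply i).comp hf)
    exact (cont_A_iff.1 h1).2 y₀
  choose S hS hb using h
  refine ⟨⋃ i, ⋃ j, S i j, Set.finite_iUnion fun i => Set.finite_iUnion fun j => hS i j, ?_⟩
  have h2 : ∀ᶠ y in 𝓝 y₀, ∀ i j, ∀ v, v ∉ S i j → G.val v (f y i j v) ≤ 1 :=
    eventually_all.2 fun i => eventually_all.2 fun j => hb i j
  filter_upwards [h2] with y hy v hv i j
  exact hy i j v fun hvS => hv (Set.mem_iUnion.2 ⟨i, Set.mem_iUnion.2 ⟨j, hvS⟩⟩)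

theorem cont_FF_iff {Y : Type} [TopologicalSpace Y] {n r : ℕ} {f : Y → G.FF n r} :
    Continuous f ↔ (∀ v, Continuous fun y => (f y v).1) ∧
      ∀ y₀, ∃ S : Set G.ι, S.Finite ∧ ∀ᶠ y in 𝓝 y₀, ∀ v, v ∉ S →
        Int (G.val v) (f y v).1 ∧ mm (G.val v) (f y v).1 = 1 := by
  have h := rp_cont_iff (R := fun v => Fr (G.val v) n r) (B := fun v => FrO (G.val v) n r)
    (fun v => isOpen_FrO (G.cont v)) (f := f)
  have h1 : ∀ v, (Continuous fun y => f y v) ↔ Continuous fun y => (f y v).1 := by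
    intro v
    exact continuous_induced_rng
  rw [h, forall_congr' h1]
  rfl

theorem vec_injective {n r : ℕ} : Function.Injective (vec : G.FF n r → _) := by
  intro φ ψ h
  refine RestrictedProduct.ext _ _ fun v => Subtype.ext ?_
  funext i j
  have h1 := congrFun (congrFun h i) j
  exact congrArg (fun a : G.A => a v) h1

theorem continuous_vec {n r : ℕ} : Continuous (vec : G.FF n r → Matrix (Fin n) (Fin r) G.A) := by
  have h := (cont_FF_iff (G := G) (n := n) (r := r) (f := fun φ : G.FF n r => φ)).1 continuous_id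
  refine continuous_pi fun i => continuous_pi fun j => cont_A_iff.2 ⟨fun v => ?_, fun φ₀ => ?_⟩
  · exact (continuous_apply j).comp ((continuous_apply i).comp (h.1 v))
  · obtain ⟨S, hS, hb⟩ := h.2 φ₀
    refine ⟨S, hS, ?_⟩
    filter_upwards [hb] with φ hφ v hv
    exact (hφ v hv).1 i j

theorem cont_FF_of_vec {Y : Type} [TopologicalSpace Y] {n r : ℕ} {f : Y → G.FF n r}
    (hf : Continuous fun y => vec (f y))
    (h : ∀ y₀, ∃ S : Set G.ι, S.Finite ∧ ∀ᶠ y in 𝓝 y₀, ∀ v, v ∉ S →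
        mm (G.val v) (f y v).1 = 1) : Continuous f := by
  refine cont_FF_iff.2 ⟨fun v => ?_, fun y₀ => ?_⟩
  · refine continuous_pi fun i => continuous_pi fun j => ?_
    have h1 : Continuous fun y => vec (f y) i j :=
      (continuous_apply j).comp ((continuous_apply i).comp hf)
    exact (cont_A_iff.1 h1).1 v
  · obtain ⟨S, hS, hb⟩ := h y₀
    obtain ⟨S', hS', hb'⟩ := eventually_int hf y₀
    refine ⟨S ∪ S', hS.union hS', ?_⟩
    filter_upwards [hb, hb'] with y h1 h2 v hv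
    exact ⟨h2 v fun h => hv (Or.inr h), h1 v fun h => hv (Or.inl h)⟩

/-- near a frame all frames are integral outside a finite set -/
theorem eventually_FF {Y : Type} [TopologicalSpace Y] {n r : ℕ} {f : Y → G.FF n r}
    (hf : Continuous f) (y₀ : Y) : ∃ S : Set G.ι, S.Finite ∧ ∀ᶠ y in 𝓝 y₀, ∀ v, v ∉ S →
        Int (G.val v) (f y v).1 ∧ mm (G.val v) (f y v).1 = 1 :=
  (cont_FF_iff.1 hf).2 y₀

/-- construction of frames -/
def mkF {n r : ℕ} (X : Matrix (Fin n) (Fin r) G.A)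
    (h : ∀ v, mm (G.val v) (fun i j => X i j v : Matrix (Fin n) (Fin r) (G.K v)) ≠ 0)
    (h1 : ∀ᶠ v in cofinite,
      mm (G.val v) (fun i j => X i j v : Matrix (Fin n) (Fin r) (G.K v)) = 1) : G.FF n r :=
  ⟨fun v => ⟨fun i j => X i j v, h v⟩, by
    have h2 : ∀ i j, ∀ᶠ v in cofinite, G.val v (X i j v) ≤ 1 := fun i j => (X i j).2
    have h3 : ∀ᶠ v in cofinite, ∀ i j, G.val v (X i j v) ≤ 1 :=
      eventually_all.2 fun i => eventually_all.2 fun j => h2 i j
    filter_upwards [h1, h3] with v h1 h3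
    exact ⟨h3, h1⟩⟩

@[simp] theorem vec_mkF {n r : ℕ} (X : Matrix (Fin n) (Fin r) G.A) (h h1) :
    vec (mkF X h h1) = X := rfl

@[simp] theorem mkF_apply {n r : ℕ} (X : Matrix (Fin n) (Fin r) G.A) (h h1) (v : G.ι) :
    (mkF X h h1 v).1 = fun i j => X i j v := rfl

private theorem r3_sum (v : G.ι) {κ : Type} (s : Finset κ) (f : κ → G.A) :
    (∑ k ∈ s, f k) v = ∑ k ∈ s, f k v := by
  classical
  induction s using Finset.induction_on with
  | empty => rfl
  | insert a s ha ih => rw [Finset.sum_insert ha, Finset.sum_insert ha, ← ih]; rfl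

private def r3_ev (v : G.ι) {n r : ℕ} (X : Matrix (Fin n) (Fin r) G.A) :
    Matrix (Fin n) (Fin r) (G.K v) := fun i j => X i j v

private theorem r3_mul (v : G.ι) {n r : ℕ} (X : Matrix (Fin n) (Fin r) G.A)
    (Y : Matrix (Fin r) (Fin n) G.A) (h : Y * X = 1) : r3_ev v Y * r3_ev v X = 1 := by
  ext i j
  have h1 : (Y * X) i j v = (1 : Matrix (Fin r) (Fin r) G.A) i j v := by rw [h]
  rw [Matrix.mul_apply, r3_sum] at h1
  rw [Matrix.mul_apply]
  refine (show _ = _ from h1).trans ?_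
  by_cases hij : i = j
  · subst hij; rw [Matrix.one_apply_eq, Matrix.one_apply_eq]; rfl
  · rw [Matrix.one_apply_ne hij, Matrix.one_apply_ne hij]; rfl

private theorem r3_int {n r : ℕ} (X : Matrix (Fin n) (Fin r) G.A) :
    ∀ᶠ v in cofinite, Int (G.val v) (r3_ev v X) := by
  have h2 : ∀ i j, ∀ᶠ v in cofinite, G.val v (X i j v) ≤ 1 := fun i j => (X i j).2
  exact eventually_all.2 fun i => eventually_all.2 fun j => h2 i j

/-- construction of frames with a left inverse -/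
theorem exists_of_inv {n r : ℕ} (X : Matrix (Fin n) (Fin r) G.A) (Y : Matrix (Fin r) (Fin n) G.A)
    (h : Y * X = 1) : ∃ φ : G.FF n r, vec φ = X := by
  refine ⟨mkF X (fun v => mm_ne_of_inv _ (r3_mul v X Y h)) ?_, rfl⟩
  filter_upwards [r3_int X, r3_int Y] with v h1 h2
  exact mm_eq_one_of_inv _ h1 h2 (r3_mul v X Y h)

/-- density of `F` -/
theorem dense (G : Glob) : DenseRange (algebraMap G.F G.A) := by
  intro x
  rw [mem_closure_iff_nhds]
  intro U hU
  obtain ⟨T, V, hV, hx, hTV⟩ := rp_mem_nhds G.isOpen_O x hU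
  have h1 : ∀ v, ∃ γ : VGˣ, ∀ z : G.K v, G.val v z < γ → x v - z ∈ V v := by
    intro v
    have h2 : {z : G.K v | x v - z ∈ V v} ∈ 𝓝 (0 : G.K v) := by
      have h3 : Tendsto (fun z : G.K v => x v - z) (𝓝 0) (𝓝 (x v)) := by
        have h4 : Continuous fun z : G.K v => x v - z := continuous_const.sub continuous_id
        have h5 := h4.tendsto 0
        rwa [sub_zero] at h5
      exact h3 (hV v)
    exact G.small v _ h2
  choose γ hγ using h1
  obtain ⟨ξ, h2, h3⟩ := G.approx T (fun v => x v) γ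
  refine ⟨algebraMap G.F G.A ξ, ?_, ⟨ξ, rfl⟩⟩
  refine hTV _ (fun v hv => ?_) (fun v hv => h3 v hv)
  have h4 := hγ v _ (h2 v hv)
  rw [sub_sub_cancel] at h4
  exact h4

theorem inj (G : Glob) : Function.Injective (algebraMap G.F G.A) := by
  intro x y h
  obtain ⟨v⟩ := G.ne
  have h1 : (algebraMap G.F G.A x) v = (algebraMap G.F G.A y) v := by rw [h]
  exact (G.emb v).injective h1

end Glob

end Pool.Agent.BRW
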