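import Pool.Agent.BRW.Cmp
import Pool.Agent.BRW.Rp

/-!
# The integral adeles
-/

set_option autoImplicit false

noncomputable section

namespace Pool.Agent.BRW

open Filter Topology Pool.Agent.BR80
open scoped RestrictedProduct WithZeroTopology

namespace Glob

/-- the integral structure -/
structure Lat (G : Glob) where
  d : ℕ
  b : (Fin d → ℤ) →+ G.F
  b_inj : Function.Injective b
  b_range : ∀ x : G.F, (∀ v, G.val v (G.emb v x) ≤ 1) ↔ ∃ l, b l = x
  chr : ∀ N : ℕ, 0 < N → (N : G.F) ≠ 0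
  cpt : ∀ v, CompactSpace (G.O v)
  res : ∀ v, ∃ p : ℕ, 0 < p ∧ G.val v (p : G.K v) < 1

variable (G : Glob)

/-- the integral vectors -/
def OO (κ : Type) : AddSubgroup (κ → G.A) where
  carrier := {a | ∀ k v, G.val v (a k v) ≤ 1}
  zero_mem' := fun k v => by
    change G.val v 0 ≤ 1
    rw [map_zero]
    exact zero_le_one
  add_mem' := fun {a b} ha hb k v => (Valuation.map_add _ _ _).trans (max_le (ha k v) (hb k v))
  neg_mem' := fun {a} ha k v => by
    change G.val v (-(a k v)) ≤ 1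
    rw [Valuation.map_neg]
    exact ha k v

theorem mem_OO {κ : Type} {a : κ → G.A} : a ∈ G.OO κ ↔ ∀ k v, G.val v (a k v) ≤ 1 := Iff.rfl

theorem isOpen_OO (κ : Type) [Finite κ] : IsOpen (G.OO κ : Set (κ → G.A)) := by
  have h1 : IsOpen {f : G.A | ∀ v, f.1 v ∈ G.O v} :=
    RestrictedProduct.isOpen_forall_mem (A := fun v => (G.O v : Set (G.K v))) G.isOpen_O
  have h2 : (G.OO κ : Set (κ → G.A)) =
      ⋂ k : κ, (fun a : κ → G.A => a k) ⁻¹' {f : G.A | ∀ v, f.1 v ∈ G.O v} := by
    ext a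
    simp only [Set.mem_iInter, Set.mem_preimage]
    rfl
  rw [h2]
  exact isOpen_iInter_of_finite fun k => h1.preimage (continuous_apply k)

theorem compact_OO (L : G.Lat) (κ : Type) [Finite κ] : CompactSpace (G.OO κ) := by
  have hcpt : ∀ v, CompactSpace (G.O v) := L.cpt
  let f : (κ → ∀ v, G.O v) → (κ → G.A) := fun x k =>
    RestrictedProduct.structureMap G.K (fun v => (G.O v : Set (G.K v))) cofinite (x k)
  have hf : Continuous f := by
    refine continuous_pi fun k => ?_
    exact (RestrictedProduct.isEmbedding_structureMap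
      (R := G.K) (A := fun v => (G.O v : Set (G.K v))) (𝓕 := cofinite)).continuous.comp
      (continuous_apply k)
  have h1 : (G.OO κ : Set (κ → G.A)) = Set.range f := by
    ext a
    constructor
    · intro ha
      refine ⟨fun k v => ⟨a k v, ha k v⟩, ?_⟩
      rfl
    · rintro ⟨x, rfl⟩
      intro k v
      exact (x k v).2
  have h2 : IsCompact (G.OO κ : Set (κ → G.A)) := by
    rw [h1]
    exact isCompact_range hf
  exact isCompact_iff_compactSpace.1 h2

/-- the rational vectors -/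
def diag (κ : Type) : (κ → G.F) →+ (κ → G.A) where
  toFun := fun x k => algebraMap G.F G.A (x k)
  map_zero' := by funext k; exact map_zero _
  map_add' := fun x y => by funext k; exact map_add _ _ _

theorem exists_add (κ : Type) [Finite κ] (a : κ → G.A) : ∃ x : κ → G.F, ∃ o ∈ G.OO κ,
    G.diag κ x + o = a := by
  have h1 : ∀ k : κ, ∃ ξ : G.F, ∀ v, G.val v (a k v - G.emb v ξ) ≤ 1 := by
    intro k
    have h2 : {v | ¬ G.val v (a k v) ≤ 1}.Finite := (a k).2
    obtain ⟨ξ, h3, h4⟩ := G.approx h2.toFinset (fun v => a k v) (fun _ => 1)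
    refine ⟨ξ, fun v => ?_⟩
    by_cases hv : v ∈ h2.toFinset
    · exact le_of_lt (by simpa using h3 v hv)
    · have h5 : G.val v (a k v) ≤ 1 := by
        by_contra h6
        exact hv (h2.mem_toFinset.2 h6)
      exact (Valuation.map_sub _ _ _).trans (max_le h5 (h4 v hv))
  choose x hx using h1
  refine ⟨x, a - G.diag κ x, fun k v => ?_, add_sub_cancel _ _⟩
  exact hx k v

/-- a basis of the lattice -/
theorem exists_basis (L : G.Lat) (κ : Type) [Finite κ] : ∃ (D : ℕ) (b : (Fin D → ℤ) →+ (κ → G.F)),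
    Function.Injective b ∧ ∀ x, G.diag κ x ∈ G.OO κ ↔ ∃ l, b l = x := by
  classical
  have := Fintype.ofFinite κ
  let e : κ × Fin L.d ≃ Fin (Fintype.card (κ × Fin L.d)) := Fintype.equivFin _
  let b : (Fin (Fintype.card (κ × Fin L.d)) → ℤ) →+ (κ → G.F) :=
    { toFun := fun l k => L.b fun j => l (e (k, j))
      map_zero' := by
        funext k
        exact map_zero L.b
      map_add' := fun l m => by
        funext k
        exact map_add L.b _ _ }
  refine ⟨Fintype.card (κ × Fin L.d), b, ?_, fun x => ?_⟩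
  · intro l m h
    funext i
    have h1 : b l (e.symm i).1 = b m (e.symm i).1 := congrFun h _
    have h2 := congrFun (L.b_inj h1) (e.symm i).2
    simpa using h2
  · constructor
    · intro h
      have h1 : ∀ k, ∃ l, L.b l = x k := fun k => (L.b_range (x k)).1 fun v => h k v
      choose l hl using h1
      refine ⟨fun i => l (e.symm i).1 (e.symm i).2, ?_⟩
      funext k
      show L.b (fun j => l (e.symm (e (k, j))).1 (e.symm (e (k, j))).2) = x k
      rw [← hl k]
      congr 1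
      funext j
      rw [Equiv.symm_apply_apply]
    · rintro ⟨l, rfl⟩ k v
      exact (L.b_range _).2 ⟨_, rfl⟩ v

theorem t3_small_nat (L : G.Lat) (v : G.ι) (γ : VGˣ) :
    ∃ N : ℕ, 0 < N ∧ G.val v (N : G.K v) < γ := by
  obtain ⟨p, hp, h⟩ := L.res v
  obtain ⟨n, hn⟩ := exists_pow_lt₀ h γ
  refine ⟨p ^ n, Nat.pow_pos hp, ?_⟩
  rw [Nat.cast_pow, map_pow]
  exact hn

theorem t3_nat_le (v : G.ι) (N : ℕ) : G.val v (N : G.K v) ≤ 1 := by
  induction N with
  | zero => rw [Nat.cast_zero, map_zero]; exact zero_le_one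
  | succ N ih =>
    rw [Nat.cast_succ]
    exact (Valuation.map_add _ _ _).trans (max_le ih (le_of_eq (map_one _)))

/-- division by `N` -/
def t3_dv (κ : Type) (N : ℕ) (a : κ → G.A) : κ → G.A :=
  fun k => algebraMap G.F G.A ((N : G.F)⁻¹) * a k

theorem t3_dv_cont (κ : Type) (N : ℕ) : Continuous (G.t3_dv κ N) :=
  continuous_pi fun k => continuous_const.mul (continuous_apply k)

theorem t3_nsmul_dv (L : G.Lat) (κ : Type) {N : ℕ} (hN : 0 < N) (a : κ → G.A) :
    N • G.t3_dv κ N a = a := by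
  funext k
  have h1 : (N : G.F) ≠ 0 := L.chr N hN
  change N • (algebraMap G.F G.A ((N : G.F)⁻¹) * a k) = a k
  rw [nsmul_eq_mul, ← mul_assoc, ← map_natCast (algebraMap G.F G.A), ← map_mul,
    mul_inv_cancel₀ h1, map_one, one_mul]

theorem t3_dv_nsmul (L : G.Lat) (κ : Type) {N : ℕ} (hN : 0 < N) (a : κ → G.A) :
    G.t3_dv κ N (N • a) = a := by
  funext k
  have h1 : (N : G.F) ≠ 0 := L.chr N hN
  change algebraMap G.F G.A ((N : G.F)⁻¹) * (N • a k) = a k
  rw [nsmul_eq_mul, ← mul_assoc, ← map_natCast (algebraMap G.F G.A), ← map_mul,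
    inv_mul_cancel₀ h1, map_one, one_mul]

theorem t3_dense (κ : Type) [Finite κ] (D : ℕ) (b : (Fin D → ℤ) →+ (κ → G.F))
    (hb' : ∀ x, G.diag κ x ∈ G.OO κ ↔ ∃ l, b l = x)
    (e : (Fin D → ℤ) →+ G.OO κ) (he : ∀ l, (e l : κ → G.A) = G.diag κ (b l)) :
    DenseRange e := by
  have hd : DenseRange (G.diag κ) := DenseRange.piMap fun _ => G.dense
  intro o
  rw [mem_closure_iff_nhds]
  intro t ht
  rw [nhds_subtype, mem_comap] at ht
  obtain ⟨V, hV, hVt⟩ := ht
  have h1 : V ∩ (G.OO κ : Set (κ → G.A)) ∈ 𝓝 (o : κ → G.A) :=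
    inter_mem hV ((G.isOpen_OO κ).mem_nhds o.2)
  obtain ⟨V', hV', hVo, hoV⟩ := mem_nhds_iff.1 h1
  obtain ⟨x, hx⟩ := hd.exists_mem_open hVo ⟨_, hoV⟩
  have h2 := hV' hx
  obtain ⟨l, rfl⟩ := (hb' x).1 h2.2
  refine ⟨e l, hVt ?_, l, rfl⟩
  change (e l : κ → G.A) ∈ V
  rw [he]
  exact h2.1

theorem t3_small (L : G.Lat) (κ : Type) [Finite κ] (U : Set (G.OO κ)) (hU : U ∈ 𝓝 0) :
    ∃ N : ℕ, 0 < N ∧ ∀ x : G.OO κ, N • x ∈ U := by
  classical
  haveI := Fintype.ofFinite κ
  rw [nhds_subtype, mem_comap] at hU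
  obtain ⟨V, hV, hVU⟩ := hU
  rw [ZeroMemClass.coe_zero, nhds_pi, mem_pi'] at hV
  obtain ⟨I, W, hW, hWV⟩ := hV
  choose T V' h1 h2 h3 using fun k => rp_mem_nhds G.isOpen_O ((0 : κ → G.A) k) (hW k)
  have h4 : ∀ k v, V' k v ∈ 𝓝 (0 : G.K v) := fun k v => h1 k v
  choose γ hγ using fun k v => G.small v (V' k v) (h4 k v)
  choose n hn0 hn using fun k v => G.t3_small_nat L v (γ k v)
  refine ⟨∏ k, ∏ v ∈ T k, n k v, Finset.prod_pos fun k _ => Finset.prod_pos fun v _ => hn0 k v,
    fun x => hVU ?_⟩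
  set N := ∏ k, ∏ v ∈ T k, n k v with hN
  refine hWV fun k _ => h3 k _ (fun v hv => hγ k v _ ?_) fun v _ => ?_
  · have e1 : (((N • x : G.OO κ) : κ → G.A) k) v = (N : G.K v) * (x : κ → G.A) k v := by
      have e2 : (((N • x : G.OO κ) : κ → G.A) k) v = (N • ((x : κ → G.A) k)) v := rfl
      rw [e2, nsmul_eq_mul]
      rfl
    rw [e1, map_mul]
    have h5 : (n k v) ∣ N := (Finset.dvd_prod_of_mem _ hv).trans
      (Finset.dvd_prod_of_mem (fun k => ∏ v ∈ T k, n k v) (Finset.mem_univ k))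
    obtain ⟨q, hq⟩ := h5
    rw [hq, Nat.cast_mul, map_mul]
    calc G.val v (n k v : G.K v) * G.val v (q : G.K v) * G.val v ((x : κ → G.A) k v)
        ≤ G.val v (n k v : G.K v) * 1 * 1 := by
          gcongr
          · exact G.t3_nat_le v q
          · exact x.2 k v
      _ = G.val v (n k v : G.K v) := by rw [mul_one, mul_one]
      _ < γ k v := hn k v
  · exact (N • x).2 k v

/-- the integral vectors are the profinite completion of the lattice -/
theorem prof (L : G.Lat) (κ : Type) [Finite κ] (D : ℕ) (b : (Fin D → ℤ) →+ (κ → G.F))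
    (hb : Function.Injective b) (hb' : ∀ x, G.diag κ x ∈ G.OO κ ↔ ∃ l, b l = x)
    (e : (Fin D → ℤ) →+ G.OO κ) (he : ∀ l, (e l : κ → G.A) = G.diag κ (b l)) :
    Prof D (G.OO κ) e where
  dense := G.t3_dense κ D b hb' e he
  opn := fun N hN => by
    have h1 : ∀ᶠ x : G.OO κ in 𝓝 0, G.t3_dv κ N (x : κ → G.A) ∈ (G.OO κ : Set (κ → G.A)) := by
      have hc : Continuous fun x : G.OO κ => G.t3_dv κ N (x : κ → G.A) :=
        (G.t3_dv_cont κ N).comp continuous_subtype_val
      refine hc.continuousAt.eventually_mem ((G.isOpen_OO κ).mem_nhds ?_)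
      have e0 : G.t3_dv κ N ((0 : G.OO κ) : κ → G.A) = 0 := by
        funext k
        exact mul_zero _
      rw [e0]
      exact (G.OO κ).zero_mem
    filter_upwards [h1] with x hx
    exact ⟨⟨_, hx⟩, Subtype.ext (G.t3_nsmul_dv L κ hN (x : κ → G.A)).symm⟩
  small := fun U hU => G.t3_small L κ U hU
  div := fun N hN l x hx => by
    have h1 : G.diag κ (b l) = N • (x : κ → G.A) := by
      rw [← he, hx]
      rfl
    have h2 : G.diag κ (fun k => (N : G.F)⁻¹ * b l k) = (x : κ → G.A) := by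
      rw [← G.t3_dv_nsmul L κ hN (x : κ → G.A), ← h1]
      funext k
      exact map_mul (algebraMap G.F G.A) _ _
    have h3 : G.diag κ (fun k => (N : G.F)⁻¹ * b l k) ∈ G.OO κ := by
      rw [h2]
      exact x.2
    obtain ⟨l', hl'⟩ := (hb' _).1 h3
    refine ⟨l', hb ?_⟩
    rw [map_nsmul, hl']
    funext k
    change b l k = N • ((N : G.F)⁻¹ * b l k)
    rw [nsmul_eq_mul, ← mul_assoc, mul_inv_cancel₀ (L.chr N hN), one_mul]

/-- the action of the rational vectors on the quotient -/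
@[reducible] def quoAct (κ : Type) : MulAction (Multiplicative (κ → G.F)) ((κ → G.A) ⧸ G.OO κ) where
  smul := fun g q => ((G.diag κ (Multiplicative.toAdd g) : κ → G.A) : (κ → G.A) ⧸ G.OO κ) + q
  one_smul := fun q => by
    change ((G.diag κ 0 : κ → G.A) : (κ → G.A) ⧸ G.OO κ) + q = q
    rw [map_zero, QuotientAddGroup.mk_zero, zero_add]
  mul_smul := fun g h q => by
    change ((G.diag κ (Multiplicative.toAdd g + Multiplicative.toAdd h) : κ → G.A) :
      (κ → G.A) ⧸ G.OO κ) + q = (G.diag κ (Multiplicative.toAdd g) : κ → G.A) +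
        (((G.diag κ (Multiplicative.toAdd h) : κ → G.A) : (κ → G.A) ⧸ G.OO κ) + q)
    rw [map_add, QuotientAddGroup.mk_add, add_assoc]

theorem acyc (L : G.Lat) {W : Type} [AddCommGroup W] [UniformSpace W] [IsUniformAddGroup W]
    [CompleteSpace W] [T2Space W] [NonarchimedeanAddGroup W] (p : ℕ) (hp : 0 < p)
    (hW : ∀ U : OpenAddSubgroup W, ∃ e : ℕ, ∀ w : W, p ^ e • w ∈ U)
    (κ : Type) [Finite κ] (Z : Type) [TopologicalSpace Z] (m : ℕ) :
    ∀ x ∈ ((vecGS G.F G.A κ Z).co W).Zg (m + 1), x ∈ ((vecGS G.F G.A κ Z).co W).Bg (m + 1) := by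
  haveI := G.compact_OO L κ
  obtain ⟨D, b, hb, hb'⟩ := G.exists_basis L κ
  let e : (Fin D → ℤ) →+ G.OO κ :=
    { toFun := fun l => ⟨G.diag κ (b l), (hb' _).2 ⟨l, rfl⟩⟩
      map_zero' := Subtype.ext (by
        change G.diag κ (b 0) = 0
        rw [map_zero, map_zero])
      map_add' := fun l l' => Subtype.ext (by
        change G.diag κ (b (l + l')) = G.diag κ (b l) + G.diag κ (b l')
        rw [map_add, map_add]) }
  have hP : Prof D (G.OO κ) e := G.prof L κ D b hb hb' e fun _ => rfl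
  letI act : MulAction (vecGS G.F G.A κ Z).G ((κ → G.A) ⧸ G.OO κ) := G.quoAct κ
  haveI : MulAction.IsPretransitive (vecGS G.F G.A κ Z).G ((κ → G.A) ⧸ G.OO κ) := by
    refine ⟨fun q q' => ?_⟩
    obtain ⟨a, rfl⟩ := QuotientAddGroup.mk_surjective q
    obtain ⟨a', rfl⟩ := QuotientAddGroup.mk_surjective q'
    obtain ⟨x, o, ho, hx⟩ := G.exists_add κ (a' - a)
    refine ⟨(Multiplicative.ofAdd x : Multiplicative (κ → G.F)), ?_⟩
    change ((G.diag κ x : κ → G.A) : (κ → G.A) ⧸ G.OO κ) + (a : (κ → G.A) ⧸ G.OO κ) = a'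
    rw [← QuotientAddGroup.mk_add, QuotientAddGroup.eq]
    have e0 : a' = G.diag κ x + o + a := by
      rw [hx]
      abel
    have e1 : -(G.diag κ x + a) + a' = o := by
      rw [e0]
      abel
    rw [e1]
    exact ho
  have hπ : ∀ (g : (vecGS G.F G.A κ Z).G) (x : (vecGS G.F G.A κ Z).X),
      ((((vecGS G.F G.A κ Z).act g x).1 : κ → G.A) : (κ → G.A) ⧸ G.OO κ) =
        g • ((x.1 : κ → G.A) : (κ → G.A) ⧸ G.OO κ) := fun g x => rfl
  have hc : IsLocallyConstant fun x : (κ → G.A) × Z => ((x.1 : κ → G.A) : (κ → G.A) ⧸ G.OO κ) := by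
    rw [IsLocallyConstant.iff_eventually_eq]
    intro x
    have h1 : ∀ᶠ y : (κ → G.A) × Z in 𝓝 x, -y.1 + x.1 ∈ (G.OO κ : Set (κ → G.A)) := by
      refine ContinuousAt.eventually_mem (f := fun y : (κ → G.A) × Z => -y.1 + x.1) ?_ ?_
      · exact (by fun_prop : Continuous fun y : (κ → G.A) × Z => -y.1 + x.1).continuousAt
      · refine (G.isOpen_OO κ).mem_nhds ?_
        change -x.1 + x.1 ∈ G.OO κ
        rw [neg_add_cancel]
        exact (G.OO κ).zero_mem
    filter_upwards [h1] with y hy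
    exact QuotientAddGroup.eq.2 hy
  have hmem : ∀ a : κ → G.A, ((a : κ → G.A) : (κ → G.A) ⧸ G.OO κ) = 0 ↔ a ∈ G.OO κ :=
    fun a => QuotientAddGroup.eq_zero_iff a
  refine acyc_open W (vecGS G.F G.A κ Z) ((κ → G.A) ⧸ G.OO κ)
    (fun x => ((x.1 : κ → G.A) : (κ → G.A) ⧸ G.OO κ)) hπ hc 0 m ?_
  let φ0 : Multiplicative (Fin D → ℤ) →*
      MulAction.stabilizer (vecGS G.F G.A κ Z).G (0 : (κ → G.A) ⧸ G.OO κ) :=
    { toFun := fun l => ⟨Multiplicative.ofAdd (b (Multiplicative.toAdd l)), by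
        rw [MulAction.mem_stabilizer_iff]
        change ((G.diag κ (b (Multiplicative.toAdd l)) : κ → G.A) : (κ → G.A) ⧸ G.OO κ) + 0 = 0
        rw [add_zero, hmem]
        exact (hb' _).2 ⟨_, rfl⟩⟩
      map_one' := Subtype.ext (by
        change Multiplicative.ofAdd (b 0) = 1
        rw [map_zero]
        rfl)
      map_mul' := fun l l' => Subtype.ext (by
        change Multiplicative.ofAdd (b (Multiplicative.toAdd l + Multiplicative.toAdd l')) = _
        rw [map_add]
        rfl) }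
  have hφ0 : Function.Bijective φ0 := by
    constructor
    · intro l l' h
      have h1 : (Multiplicative.ofAdd (b (Multiplicative.toAdd l)) : Multiplicative (κ → G.F)) =
          Multiplicative.ofAdd (b (Multiplicative.toAdd l')) := congrArg Subtype.val h
      exact hb (Multiplicative.ofAdd.injective h1)
    · rintro ⟨g, hg⟩
      rw [MulAction.mem_stabilizer_iff] at hg
      have h1 : ((G.diag κ (Multiplicative.toAdd (show Multiplicative (κ → G.F) from g)) :
          κ → G.A) : (κ → G.A) ⧸ G.OO κ) + 0 = 0 := hg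
      rw [add_zero, hmem] at h1
      obtain ⟨l, hl⟩ := (hb' _).1 h1
      refine ⟨Multiplicative.ofAdd l, Subtype.ext ?_⟩
      change Multiplicative.ofAdd (b l) = g
      rw [hl]
      rfl
  let h : (subGS (vecGS G.F G.A κ Z) ((κ → G.A) ⧸ G.OO κ)
      (fun x => ((x.1 : κ → G.A) : (κ → G.A) ⧸ G.OO κ)) hπ 0).X ≃ₜ G.OO κ × Z :=
    { toFun := fun x => (⟨x.1.1, (hmem _).1 x.2⟩, x.1.2)
      invFun := fun y => ⟨(y.1.1, y.2), (hmem _).2 y.1.2⟩
      left_inv := fun x => rfl
      right_inv := fun y => rfl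
      continuous_toFun := by
        refine Continuous.prodMk ?_ ?_
        · exact (continuous_fst.comp continuous_subtype_val).subtype_mk _
        · exact continuous_snd.comp continuous_subtype_val
      continuous_invFun := by
        refine Continuous.subtype_mk ?_ _
        exact (continuous_subtype_val.comp continuous_fst).prodMk continuous_snd }
  let φ : Multiplicative (Fin D → ℤ) ≃*
      MulAction.stabilizer (vecGS G.F G.A κ Z).G (0 : (κ → G.A) ⧸ G.OO κ) :=
    MulEquiv.ofBijective φ0 hφ0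
  exact prof_acyc p hp hW hP (subGS (vecGS G.F G.A κ Z) ((κ → G.A) ⧸ G.OO κ)
      (fun x => ((x.1 : κ → G.A) : (κ → G.A) ⧸ G.OO κ)) hπ 0) φ h (fun g x => rfl) m

end Glob

end Pool.Agent.BRW
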