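import Pool.Agent.BRW.Defs

/-!
# The maximal minor
-/

set_option autoImplicit false

namespace Pool.Agent.BRW

open Matrix Filter Topology
open scoped WithZeroTopology

variable {K : Type} [Field K] (v : Valuation K VG) {n r m : ℕ}

/-- the determinant of a product, expanded -/
theorem det_mul_expand {R : Type} [CommRing R] (A : Matrix (Fin r) (Fin n) R)
    (B : Matrix (Fin n) (Fin r) R) :
    (A * B).det = ∑ f : Fin r → Fin n, (∏ i, A i (f i)) * (B.submatrix f id).det := by

  have h1 : (A * B).det = (Matrix.detRowAlternating (n := Fin r) (R := R)).toMultilinearMap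
      (fun i => ∑ k : Fin n, A i k • B k) := by
    change (A * B).det = Matrix.det (fun i => ∑ k : Fin n, A i k • B k)
    congr 1
    funext i j
    rw [Matrix.mul_apply, Finset.sum_apply]
    rfl
  rw [h1, MultilinearMap.map_sum]
  refine Finset.sum_congr rfl fun f _ => ?_
  rw [MultilinearMap.map_smul_univ]
  rfl

theorem le_mm (X : Matrix (Fin n) (Fin r) K) (s : Fin r → Fin n) :
    v (X.submatrix s id).det ≤ mm v X := by

  exact Finset.le_sup (f := fun s : Fin r → Fin n => v (X.submatrix s id).det) (Finset.mem_univ s)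

theorem exists_mm {X : Matrix (Fin n) (Fin r) K} (h : mm v X ≠ 0) :
    ∃ s : Fin r → Fin n, v (X.submatrix s id).det = mm v X := by

  have hne : (Finset.univ : Finset (Fin r → Fin n)).Nonempty := by
    by_contra hc
    rw [Finset.not_nonempty_iff_eq_empty] at hc
    apply h
    unfold mm
    rw [hc, Finset.sup_empty]
    rfl
  obtain ⟨s, _, hs⟩ := Finset.exists_mem_eq_sup Finset.univ hne
    (fun s : Fin r → Fin n => v (X.submatrix s id).det)
  exact ⟨s, hs.symm⟩

theorem mm_le_iff {X : Matrix (Fin n) (Fin r) K} {c : VG} :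
    mm v X ≤ c ↔ ∀ s : Fin r → Fin n, v (X.submatrix s id).det ≤ c := by

  unfold mm
  rw [Finset.sup_le_iff]
  exact ⟨fun h s => h s (Finset.mem_univ s), fun h s _ => h s⟩

theorem mm_eq_zero_iff {X : Matrix (Fin n) (Fin r) K} :
    mm v X = 0 ↔ ∀ s : Fin r → Fin n, (X.submatrix s id).det = 0 := by

  rw [← le_zero_iff, mm_le_iff]
  refine forall_congr' fun s => ?_
  rw [le_zero_iff, Valuation.zero_iff]

private theorem l1_det_le {k : ℕ} (M : Matrix (Fin k) (Fin k) K) (h : ∀ i j, v (M i j) ≤ 1) :
    v M.det ≤ 1 := by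
  let M' : Matrix (Fin k) (Fin k) v.integer := fun i j => ⟨M i j, h i j⟩
  have h1 : M = v.integer.subtype.mapMatrix M' := rfl
  rw [h1, ← RingHom.map_det]
  exact M'.det.2

theorem mm_le_one {X : Matrix (Fin n) (Fin r) K} (h : Int v X) : mm v X ≤ 1 := by

  rw [mm_le_iff]
  exact fun s => l1_det_le v _ fun i j => h _ _

private theorem l2_prod_le {k : ℕ} (f : Fin k → K) (h : ∀ i, v (f i) ≤ 1) : v (∏ i, f i) ≤ 1 := by
  rw [map_prod]
  exact Finset.prod_le_one' fun i _ => h i

private theorem l2_mul_le {g : Matrix (Fin r) (Fin n) K} (hg : Int v g)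
    (X : Matrix (Fin n) (Fin r) K) : v (g * X).det ≤ mm v X := by
  rw [det_mul_expand]
  refine v.map_sum_le fun f _ => ?_
  rw [map_mul]
  calc v (∏ i, g i (f i)) * v (X.submatrix f id).det ≤ 1 * mm v X :=
        mul_le_mul' (l2_prod_le v _ fun i => hg _ _) (le_mm v X f)
    _ = mm v X := one_mul _

theorem mm_mul_le {g : Matrix (Fin m) (Fin n) K} (hg : Int v g) (X : Matrix (Fin n) (Fin r) K) :
    mm v (g * X) ≤ mm v X := by

  rw [mm_le_iff]
  intro s
  have h1 : (g * X).submatrix s id = g.submatrix s id * X := rfl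
  rw [h1]
  exact l2_mul_le v (fun i j => hg _ _) X

theorem mm_mul_zero (g : Matrix (Fin m) (Fin n) K) {X : Matrix (Fin n) (Fin r) K}
    (h : mm v X = 0) : mm v (g * X) = 0 := by

  rw [mm_eq_zero_iff] at h ⊢
  intro s
  have h1 : (g * X).submatrix s id = g.submatrix s id * X := rfl
  rw [h1, det_mul_expand]
  refine Finset.sum_eq_zero fun f _ => ?_
  rw [h f, mul_zero]

theorem int_mul {g : Matrix (Fin m) (Fin n) K} (hg : Int v g) {X : Matrix (Fin n) (Fin r) K}
    (hX : Int v X) : Int v (g * X) := by

  intro i j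
  rw [Matrix.mul_apply]
  refine v.map_sum_le fun k _ => ?_
  rw [map_mul]
  exact mul_le_one' (hg i k) (hX k j)

theorem mm_ne_of_inv {X : Matrix (Fin n) (Fin r) K} {Y : Matrix (Fin r) (Fin n) K}
    (h : Y * X = 1) : mm v X ≠ 0 := by

  intro hc
  have h1 := det_mul_expand Y X
  rw [h, Matrix.det_one] at h1
  rw [mm_eq_zero_iff] at hc
  rw [Finset.sum_eq_zero fun f _ => by rw [hc f, mul_zero]] at h1
  exact one_ne_zero h1

theorem mm_eq_one_of_inv {X : Matrix (Fin n) (Fin r) K} {Y : Matrix (Fin r) (Fin n) K}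
    (hX : Int v X) (hY : Int v Y) (h : Y * X = 1) : mm v X = 1 := by

  refine le_antisymm (mm_le_one v hX) ?_
  have h1 := l2_mul_le v hY X
  rw [h, Matrix.det_one, map_one] at h1
  exact h1

private theorem l3_term (X : Matrix (Fin n) (Fin (r + 1)) K) (j : Fin (r + 1))
    (s : Fin (r + 1) → Fin n) (i : Fin (r + 1)) :
    v ((-1) ^ ((i : ℕ) + (j : ℕ)) * (X.submatrix s id) i j *
      ((X.submatrix s id).submatrix i.succAbove j.succAbove).det) =
    v (X (s i) j) *
      v (((X.submatrix id j.succAbove).submatrix (fun k => s (i.succAbove k)) id).det) := by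
  rw [map_mul, map_mul, map_pow, Valuation.map_neg, map_one, one_pow, one_mul]
  rfl

/-- omit a column -/
theorem mm_drop_le {X : Matrix (Fin n) (Fin (r + 1)) K} (h : Int v X) (j : Fin (r + 1)) :
    mm v X ≤ mm v (X.submatrix id j.succAbove) := by
  rw [mm_le_iff]
  intro s
  rw [Matrix.det_succ_column _ j]
  refine Valuation.map_sum_le v fun i _ => ?_
  rw [l3_term]
  calc _ ≤ 1 * mm v (X.submatrix id j.succAbove) :=
        mul_le_mul' (h _ _) (le_mm v _ _)
    _ = _ := one_mul _

theorem mm_drop_ne {X : Matrix (Fin n) (Fin (r + 1)) K} (h : mm v X ≠ 0) (j : Fin (r + 1)) :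
    mm v (X.submatrix id j.succAbove) ≠ 0 := by
  intro h0
  apply h
  rw [mm_eq_zero_iff] at h0 ⊢
  intro s
  rw [Matrix.det_succ_column _ j]
  refine Finset.sum_eq_zero fun i _ => ?_
  have h1 := h0 (fun k => s (i.succAbove k))
  have h2 : ((X.submatrix s id).submatrix i.succAbove j.succAbove).det = 0 := h1
  rw [h2, mul_zero]

/-- permute the columns -/
theorem mm_perm (X : Matrix (Fin n) (Fin r) K) (σ : Equiv.Perm (Fin r)) :
    mm v (X.submatrix id σ) = mm v X := by
  unfold mm
  refine Finset.sup_congr rfl fun s _ => ?_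
  have h : (X.submatrix id σ).submatrix s id = (X.submatrix s id).submatrix id σ := rfl
  rw [h, Matrix.det_permute', map_mul]
  have h1 : v ((Equiv.Perm.sign σ : ℤ) : K) = 1 := by
    rcases Int.units_eq_one_or (Equiv.Perm.sign σ) with h | h <;> simp [h]
  rw [h1, one_mul]

theorem mm_square (X : Matrix (Fin n) (Fin n) K) : mm v X = v X.det := by

  refine le_antisymm ?_ (le_mm v X id)
  rw [mm_le_iff]
  intro s
  have h0 : ((1 : Matrix (Fin n) (Fin n) K) * X).submatrix s id =
      (1 : Matrix (Fin n) (Fin n) K).submatrix s id * X := rfl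
  have h1 : X.submatrix s id = (1 : Matrix (Fin n) (Fin n) K).submatrix s id * X := by
    rw [← h0, Matrix.one_mul]
  rw [h1, Matrix.det_mul, map_mul]
  calc v ((1 : Matrix (Fin n) (Fin n) K).submatrix s id).det * v X.det ≤ 1 * v X.det := by
        refine mul_le_mul' (l1_det_le v _ fun i j => ?_) le_rfl
        rw [Matrix.submatrix_apply, Matrix.one_apply]
        split_ifs
        · rw [map_one]
        · rw [map_zero]
          exact zero_le_one
    _ = v X.det := one_mul _

/-- one column -/
theorem mm_col (X : Matrix (Fin n) (Fin 1) K) :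
    mm v X = Finset.univ.sup fun i => v (X i 0) := by

  have h1 : ∀ s : Fin 1 → Fin n, (X.submatrix s id).det = X (s 0) 0 := by
    intro s
    rw [Matrix.det_fin_one]
    rfl
  refine le_antisymm ?_ ?_
  · rw [mm_le_iff]
    intro s
    rw [h1]
    exact Finset.le_sup (f := fun i => v (X i 0)) (Finset.mem_univ (s 0))
  · refine Finset.sup_le fun i _ => ?_
    have h2 := le_mm v X (fun _ => i)
    rw [h1] at h2
    exact h2

section top

variable {v} [TopologicalSpace K] [IsTopologicalRing K] (hv : Continuous v)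

include hv

theorem continuous_mm : Continuous fun X : Matrix (Fin n) (Fin r) K => mm v X := by
  unfold mm
  refine Continuous.finset_sup_apply fun s _ => ?_
  exact hv.comp (Continuous.matrix_det (continuous_id.matrix_submatrix s id))

theorem isOpen_FrO : IsOpen (FrO v n r) := by
  have h1 : IsOpen {X : Fr v n r | ∀ i j, v (X.1 i j) ≤ 1} := by
    simp only [Set.ofPred_forall]
    refine isOpen_iInter_of_finite fun i => isOpen_iInter_of_finite fun j => ?_
    have h2 : Continuous fun X : Fr v n r => v (X.1 i j) :=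
      hv.comp ((continuous_apply_apply i j).comp continuous_subtype_val)
    have h3 : IsOpen (Set.Iic (1 : VG)) := by
      rw [WithZeroTopology.isOpen_iff]
      exact Or.inr ⟨1, one_ne_zero, fun x hx => le_of_lt (Set.mem_Iio.1 hx)⟩
    exact h3.preimage h2
  have h4 : IsOpen {X : Fr v n r | mm v X.1 = 1} := by
    have h2 : Continuous fun X : Fr v n r => mm v X.1 :=
      (continuous_mm hv).comp continuous_subtype_val
    have h3 : IsOpen ({1} : Set VG) := by
      rw [WithZeroTopology.isOpen_iff]
      exact Or.inl (by simp)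
    exact h3.preimage h2
  exact h1.inter h4

/-- a nonzero value is locally constant -/
theorem eventually_val {Y : Type} [TopologicalSpace Y] {f : Y → K} (hf : Continuous f) {y₀ : Y}
    (h : f y₀ ≠ 0) : ∀ᶠ y in 𝓝 y₀, v (f y) = v (f y₀) := by
  have h3 : IsOpen ({v (f y₀)} : Set VG) := by
    rw [WithZeroTopology.isOpen_iff]
    refine Or.inl fun h0 => ?_
    exact (v.ne_zero_iff.2 h) (Set.mem_singleton_iff.1 h0).symm
  exact (hv.comp hf).continuousAt.eventually (h3.mem_nhds rfl)

end top

end Pool.Agent.BRW
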