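import Pool.Agent.BRW.Ac1

/-!
# The module of the almost periodic functions on `ℤ^D`
-/

set_option autoImplicit false

namespace Pool.Agent.BRW

open Filter Topology Pool.Agent.BR80

/-- The functions on `ℤ^D × Z` which are, modulo every open subgroup of `W` and locally on `Z`,
periodic in the first variable and constant in the second. -/
def MF (D : ℕ) (Z W : Type) [TopologicalSpace Z] [AddCommGroup W] [TopologicalSpace W] :
    AddSubgroup ((Fin D → ℤ) × Z → W) where
  carrier := {f | ∀ (U : OpenAddSubgroup W) (z₀ : Z), ∃ N : ℕ, 0 < N ∧ ∀ᶠ z in 𝓝 z₀,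
    ∀ l l' : Fin D → ℤ, f (l + N • l', z) - f (l, z₀) ∈ U}
  zero_mem' := fun U z₀ => ⟨1, one_pos, Eventually.of_forall fun z l l' => by
    change (0 : W) - 0 ∈ U
    rw [sub_zero]
    exact U.zero_mem⟩
  add_mem' := by
    intro a b ha hb U z₀
    obtain ⟨N, hN, h⟩ := ha U z₀
    obtain ⟨N', hN', h'⟩ := hb U z₀
    refine ⟨N * N', Nat.mul_pos hN hN', ?_⟩
    filter_upwards [h, h'] with z h h' l l'
    have h1 := h l (N' • l')
    have h2 := h' l (N • l')
    rw [← mul_smul] at h1
    rw [← mul_smul, mul_comm N' N] at h2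
    have h3 := U.add_mem h1 h2
    have e : (a + b) (l + (N * N') • l', z) - (a + b) (l, z₀) =
        (a (l + (N * N') • l', z) - a (l, z₀)) + (b (l + (N * N') • l', z) - b (l, z₀)) := by
      simp only [Pi.add_apply]
      abel
    rw [e]
    exact h3
  neg_mem' := by
    intro a ha U z₀
    obtain ⟨N, hN, h⟩ := ha U z₀
    refine ⟨N, hN, ?_⟩
    filter_upwards [h] with z h l l'
    have e : (-a) (l + N • l', z) - (-a) (l, z₀) = -(a (l + N • l', z) - a (l, z₀)) := by
      simp only [Pi.neg_apply]
      abel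
    rw [e]
    exact U.neg_mem (h l l')

/-- The action of `ℤ^D` by translation. -/
def MFm (D : ℕ) (Z W : Type) [TopologicalSpace Z] [AddCommGroup W] [TopologicalSpace W] : GM where
  G := Multiplicative (Fin D → ℤ)
  M := MF D Z W
  ρ :=
    { toFun := fun g =>
        { toFun := fun f => ⟨fun x => f.1 (-Multiplicative.toAdd g + x.1, x.2), fun U z₀ => by
            obtain ⟨N, hN, h⟩ := f.2 U z₀
            refine ⟨N, hN, ?_⟩
            filter_upwards [h] with z h l l'
            have := h (-Multiplicative.toAdd g + l) l'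
            rwa [add_assoc] at this⟩
          map_zero' := rfl
          map_add' := fun _ _ => rfl }
      map_one' := AddMonoidHom.ext fun f => Subtype.ext (funext fun x => by
        change f.1 (-0 + x.1, x.2) = f.1 x
        rw [neg_zero, zero_add])
      map_mul' := fun g h => AddMonoidHom.ext fun f => Subtype.ext (funext fun x => by
        change f.1 (-(Multiplicative.toAdd g + Multiplicative.toAdd h) + x.1, x.2) =
          f.1 (-Multiplicative.toAdd h + (-Multiplicative.toAdd g + x.1), x.2)
        have e : -(Multiplicative.toAdd g + Multiplicative.toAdd h) + x.1 =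
            -Multiplicative.toAdd h + (-Multiplicative.toAdd g + x.1) := by abel
        rw [e]) }

theorem MFm_apply (D : ℕ) (Z W : Type) [TopologicalSpace Z] [AddCommGroup W] [TopologicalSpace W]
    (g : Multiplicative (Fin D → ℤ)) (f : MF D Z W) (x : (Fin D → ℤ) × Z) :
    (show MF D Z W from (MFm D Z W).ρ g f).1 x = f.1 (-Multiplicative.toAdd g + x.1, x.2) := rfl

section

variable {Z W : Type} [TopologicalSpace Z] [AddCommGroup W] [TopologicalSpace W]
  [IsTopologicalAddGroup W]

/-- the sum with prescribed differences, normalised -/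
private noncomputable def m1_I {A : Type} [AddCommGroup A] (h : ℤ → A) (n : ℤ) : A :=
  (Finset.Ico n 0).sum (fun i => h (i + 1)) - (Finset.Ico 0 n).sum (fun i => h (i + 1))

private theorem m1_step {A : Type} [AddCommGroup A] (h : ℤ → A) (n : ℤ) :
    m1_I h n - m1_I h (n + 1) = h (n + 1) := by
  unfold m1_I
  rcases lt_or_ge n 0 with hn | hn
  · have h1 : Finset.Ico 0 n = ∅ := Finset.Ico_eq_empty (by omega)
    have h2 : Finset.Ico 0 (n + 1) = ∅ := Finset.Ico_eq_empty (by omega)
    have h3 : Finset.Ico n 0 = insert n (Finset.Ico (n + 1) 0) := by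
      ext k
      simp only [Finset.mem_Ico, Finset.mem_insert]
      omega
    have h4 : n ∉ Finset.Ico (n + 1) 0 := by
      simp only [Finset.mem_Ico]
      omega
    simp only [h1, h2, h3, Finset.sum_empty, Finset.sum_insert h4]
    abel
  · have h1 : Finset.Ico n 0 = ∅ := Finset.Ico_eq_empty (by omega)
    have h2 : Finset.Ico (n + 1) 0 = ∅ := Finset.Ico_eq_empty (by omega)
    have h3 : Finset.Ico 0 (n + 1) = insert n (Finset.Ico 0 n) := by
      ext k
      simp only [Finset.mem_Ico, Finset.mem_insert]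
      omega
    have h4 : n ∉ Finset.Ico 0 n := by
      simp only [Finset.mem_Ico]
      omega
    simp only [h1, h2, h3, Finset.sum_empty, Finset.sum_insert h4]
    abel

private theorem m1_step' {A : Type} [AddCommGroup A] (h : ℤ → A) (n : ℤ) :
    m1_I h (-1 + n) - m1_I h n = h n := by
  have h1 := m1_step h (-1 + n)
  have h2 : -1 + n + 1 = n := by omega
  rw [h2] at h1
  exact h1

private theorem m1_map {A B : Type} [AddCommGroup A] [AddCommGroup B] (q : A →+ B) (h : ℤ → A)
    (n : ℤ) : q (m1_I h n) = m1_I (fun i => q (h i)) n := by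
  unfold m1_I
  rw [map_sub, map_sum, map_sum]

private theorem m1_const {A : Type} [AddCommGroup A] (P : ℤ → A) (h : ∀ n, P (n + 1) = P n)
    (n : ℤ) : P n = P 0 := by
  induction n using Int.induction_on with
  | zero => rfl
  | succ n ih => rw [h, ih]
  | pred n ih =>
    have := h (-(n : ℤ) - 1)
    rw [sub_add_cancel] at this
    rw [← this, ih]

private theorem m1_per {A : Type} [AddCommGroup A] (h : ℤ → A) (N : ℤ)
    (hN : ∀ n, h (n + N) = h n) (k : ℕ) (hk : ∀ a : A, k • a = 0) (j n : ℤ) :
    m1_I h (n + (N * k) * j) = m1_I h n := by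
  have h1 : ∀ n, m1_I h (n + N) - m1_I h n = m1_I h (0 + N) - m1_I h 0 := by
    refine m1_const (fun n => m1_I h (n + N) - m1_I h n) fun n => ?_
    have e1 := m1_step h n
    have e2 := m1_step h (n + N)
    have e3 : h (n + N + 1) = h (n + 1) := by
      rw [show n + N + 1 = n + 1 + N by ring, hN]
    rw [e3, ← e1] at e2
    have e4 : n + 1 + N = n + N + 1 := by ring
    change m1_I h (n + 1 + N) - m1_I h (n + 1) = m1_I h (n + N) - m1_I h n
    rw [e4]
    have e5 := congrArg (fun x => m1_I h (n + N) - x) e2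
    have e6 : m1_I h (n + N + 1) = m1_I h (n + N) - (m1_I h n - m1_I h (n + 1)) := by
      rw [← e2]
      abel
    rw [e6]
    abel
  obtain ⟨c, hc⟩ : ∃ c, c = m1_I h (0 + N) - m1_I h 0 := ⟨_, rfl⟩
  have h2 : ∀ (i : ℕ) (n : ℤ), m1_I h (n + N * i) = m1_I h n + i • c := by
    intro i
    induction i with
    | zero =>
      intro n
      simp
    | succ i ih =>
      intro n
      have e1 : n + N * ((i + 1 : ℕ) : ℤ) = (n + N * i) + N := by
        push_cast
        ring
      have e2 := h1 (n + N * i)
      rw [← hc] at e2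
      rw [e1, succ_nsmul, ← add_assoc, ← ih n, ← e2]
      abel
  have h3 : ∀ n : ℤ, m1_I h (n + N * k) = m1_I h n := by
    intro n
    rw [h2 k n, hk, add_zero]
  have h4 : ∀ j : ℤ, m1_I h (n + (N * k) * j) = m1_I h (n + (N * k) * 0) := by
    refine m1_const (fun j => m1_I h (n + (N * k) * j)) fun j => ?_
    rw [← h3 (n + (N * k) * j)]
    congr 1
    ring
  rw [h4 j, mul_zero, add_zero]

/-- The first basis vector minus one is surjective. -/
theorem MF_surj (D p : ℕ) (hp : 0 < p) (hW : ∀ U : OpenAddSubgroup W, ∃ e : ℕ, ∀ w : W, p ^ e • w ∈ U)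
    (f : MF (D + 1) Z W) : ∃ F : MF (D + 1) Z W,
      ∀ (l : Fin (D + 1) → ℤ) (z : Z), F.1 (-Pi.single 0 1 + l, z) - F.1 (l, z) = f.1 (l, z) := by

  let up : (Fin (D + 1) → ℤ) → ℤ → (Fin (D + 1) → ℤ) := fun l i => Function.update l 0 i
  let F0 : (Fin (D + 1) → ℤ) × Z → W := fun x => m1_I (fun i => f.1 (up x.1 i, x.2)) (x.1 0)
  have hF : F0 ∈ MF (D + 1) Z W := by
    intro U z₀
    obtain ⟨N, hN, h⟩ := f.2 U z₀
    obtain ⟨e, he⟩ := hW U
    refine ⟨N * p ^ e, Nat.mul_pos hN (pow_pos hp e), ?_⟩
    have h0 := h.self_of_nhds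
    filter_upwards [h] with z h l l'
    let q : W →+ W ⧸ U.toAddSubgroup := QuotientAddGroup.mk' U.toAddSubgroup
    have hq : ∀ a b : W, a - b ∈ U → q a = q b := by
      intro a b hab
      rw [← sub_eq_zero, ← map_sub]
      exact (QuotientAddGroup.eq_zero_iff (a - b)).2 hab
    have hq' : ∀ a b : W, q a = q b → a - b ∈ U := by
      intro a b hab
      rw [← sub_eq_zero, ← map_sub] at hab
      exact (QuotientAddGroup.eq_zero_iff (a - b)).1 hab
    apply hq'
    change q (m1_I (fun i => f.1 (up (l + (N * p ^ e) • l') i, z)) ((l + (N * p ^ e) • l') 0)) =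
      q (m1_I (fun i => f.1 (up l i, z₀)) (l 0))
    rw [m1_map, m1_map]
    have h1 : ∀ i, q (f.1 (up (l + (N * p ^ e) • l') i, z)) = q (f.1 (up l i, z₀)) := by
      intro i
      have e1 : up (l + (N * p ^ e) • l') i = up l i + N • (p ^ e • Function.update l' 0 0) := by
        funext j
        by_cases hj : j = 0
        · subst hj
          simp [up]
        · simp only [up, Pi.add_apply, Pi.smul_apply, Function.update_of_ne hj]
          rw [mul_smul]
      rw [e1]
      exact hq _ _ (h _ _)
    simp only [h1]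
    have h2 : (l + (N * p ^ e) • l') 0 = l 0 + ((N : ℤ) * (p ^ e : ℕ)) * l' 0 := by
      simp only [Pi.add_apply, Pi.smul_apply]
      rw [nsmul_eq_mul]
      push_cast
      ring
    rw [h2]
    refine m1_per _ (N : ℤ) (fun n => ?_) (p ^ e) (fun a => ?_) _ _
    · have e1 : up l (n + N) = up l n + N • (Pi.single 0 1 : Fin (D + 1) → ℤ) := by
        funext j
        by_cases hj : j = 0
        · subst hj
          simp [up]
        · simp [up, Function.update_of_ne hj, Pi.single_eq_of_ne hj]
      change q (f.1 (up l (n + N), z₀)) = q (f.1 (up l n, z₀))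
      rw [e1]
      exact hq _ _ (h0 _ _)
    · obtain ⟨w, rfl⟩ := QuotientAddGroup.mk'_surjective U.toAddSubgroup a
      rw [← map_nsmul]
      exact (QuotientAddGroup.eq_zero_iff _).2 (he w)
  refine ⟨⟨F0, hF⟩, fun l z => ?_⟩
  have h1 : ∀ i, up (-Pi.single 0 1 + l) i = up l i := by
    intro i
    funext j
    by_cases hj : j = 0
    · subst hj
      simp [up]
    · simp [up, Function.update_of_ne hj, Pi.single_eq_of_ne hj]
  change m1_I (fun i => f.1 (up (-Pi.single 0 1 + l) i, z))
    ((-Pi.single 0 1 + l : Fin (D + 1) → ℤ) 0) - m1_I (fun i => f.1 (up l i, z)) (l 0) = f.1 (l, z)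
  have h2 : (-Pi.single 0 1 + l : Fin (D + 1) → ℤ) 0 = -1 + l 0 := by simp
  have h3 : up l (l 0) = l := Function.update_eq_self _ _
  simp only [h1, h2]
  rw [m1_step', h3]

private theorem m2_exists (D : ℕ) : ∃ a : GM.Hom (MFm (D + 1) Z W) (MFm D Z W),
    (∀ (g : Multiplicative (Fin (D + 1) → ℤ)) (i : Fin D),
      Multiplicative.toAdd (show Multiplicative (Fin D → ℤ) from a.φ g) i =
        Multiplicative.toAdd g (Fin.succ i)) ∧
    (∀ (f : MF D Z W) x, (show MF (D + 1) Z W from a.u f).1 x = f.1 (fun i => x.1 i.succ, x.2)) := by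
  let φ : (Fin (D + 1) → ℤ) →+ (Fin D → ℤ) :=
    { toFun := fun l i => l i.succ
      map_zero' := rfl
      map_add' := fun _ _ => rfl }
  let u : MF D Z W →+ MF (D + 1) Z W :=
    { toFun := fun f => ⟨fun x => f.1 (fun i => x.1 i.succ, x.2), fun U z₀ => by
        obtain ⟨N, hN, h⟩ := f.2 U z₀
        refine ⟨N, hN, ?_⟩
        filter_upwards [h] with z h l l'
        exact h (fun i => l i.succ) (fun i => l' i.succ)⟩
      map_zero' := rfl
      map_add' := fun _ _ => rfl }
  let φ' : Multiplicative (Fin (D + 1) → ℤ) →* Multiplicative (Fin D → ℤ) :=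
    AddMonoidHom.toMultiplicative φ
  exact ⟨⟨φ', u, fun g x => rfl⟩, fun g i => rfl, fun f x => rfl⟩

/-- The functions which do not depend on the first coordinate. -/
theorem exists_MF_hom (D : ℕ) [T2Space W] : ∃ a : GM.Hom (MFm (D + 1) Z W) (MFm D Z W),
    (∀ (g : Multiplicative (Fin (D + 1) → ℤ)) (i : Fin D),
      Multiplicative.toAdd (show Multiplicative (Fin D → ℤ) from a.φ g) i =
        Multiplicative.toAdd g (Fin.succ i)) ∧
    (∀ (f : MF D Z W) x, (show MF (D + 1) Z W from a.u f).1 x = f.1 (fun i => x.1 i.succ, x.2)) := by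

  exact m2_exists D

theorem MF_acyc (D p : ℕ) (hp : 0 < p)
    (hW : ∀ U : OpenAddSubgroup W, ∃ e : ℕ, ∀ w : W, p ^ e • w ∈ U) (m : ℕ) :
    (MFm D Z W).cx.Acyc (m + 1) := by

  induction D generalizing m with
  | zero =>
    have : Subsingleton (MFm 0 Z W).G := inferInstanceAs (Subsingleton (Multiplicative (Fin 0 → ℤ)))
    exact acyc_triv (MFm 0 Z W) m
  | succ D ih =>
    obtain ⟨a, ha1, ha2⟩ := m2_exists (Z := Z) (W := W) D
    refine acyc_ext (MFm (D + 1) Z W) (MFm D Z W) a ?_ ?_ ?_ ?_ (fun m => ih m) m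
    · intro g
      refine ⟨Multiplicative.ofAdd (Fin.cons 0 (Multiplicative.toAdd
        (show Multiplicative (Fin D → ℤ) from g)) : Fin (D + 1) → ℤ), ?_⟩
      apply Multiplicative.toAdd.injective
      funext i
      exact ha1 _ i
    · intro f f' h
      refine Subtype.ext (funext fun x => ?_)
      have h1 := congrArg (fun y : MF (D + 1) Z W => y.1 (Fin.cons 0 x.1, x.2)) h
      have h2 := ha2 f (Fin.cons 0 x.1, x.2)
      have h3 := ha2 f' (Fin.cons 0 x.1, x.2)
      exact h2.symm.trans (h1.trans h3)
    · intro x hx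
      let x' : MF (D + 1) Z W := x
      refine ⟨(⟨fun y => x'.1 (Fin.cons 0 y.1, y.2), fun U z₀ => ?_⟩ : MF D Z W), ?_⟩
      · obtain ⟨N, hN, h⟩ := x'.2 U z₀
        refine ⟨N, hN, ?_⟩
        filter_upwards [h] with z h l l'
        have h1 := h (Fin.cons 0 l) (Fin.cons 0 l')
        have h2 : (Fin.cons 0 l + N • Fin.cons 0 l' : Fin (D + 1) → ℤ) = Fin.cons 0 (l + N • l') := by
          funext j
          refine Fin.cases ?_ (fun i => ?_) j
          · simp
          · simp
        rw [h2] at h1
        exact h1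
      · refine Subtype.ext (funext fun y => ?_)
        rw [ha2]
        let g : Multiplicative (Fin (D + 1) → ℤ) :=
          Multiplicative.ofAdd (-(Pi.single 0 (y.1 0)) : Fin (D + 1) → ℤ)
        have hg : g ∈ a.φ.ker := by
          apply Multiplicative.toAdd.injective
          funext i
          refine (ha1 _ i).trans ?_
          change (-(Pi.single 0 (y.1 0)) : Fin (D + 1) → ℤ) i.succ = 0
          simp
        have h1 := congrArg (fun w : MF (D + 1) Z W => w.1
          (Fin.cons 0 (fun i : Fin D => y.1 i.succ), y.2)) (hx g hg)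
        have h2 : -(Multiplicative.toAdd g) + Fin.cons 0 (fun i : Fin D => y.1 i.succ) = y.1 := by
          funext j
          change -(-(Pi.single 0 (y.1 0)) : Fin (D + 1) → ℤ) j +
            (Fin.cons 0 (fun i : Fin D => y.1 i.succ) : Fin (D + 1) → ℤ) j = y.1 j
          refine Fin.cases ?_ (fun i => ?_) j
          · simp
          · simp
        change x'.1 (-(Multiplicative.toAdd g) + Fin.cons 0 (fun i : Fin D => y.1 i.succ), y.2) =
          x'.1 (Fin.cons 0 (fun i : Fin D => y.1 i.succ), y.2) at h1
        rw [h2] at h1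
        exact h1.symm
    · intro m
      let t : Multiplicative (Fin (D + 1) → ℤ) := Multiplicative.ofAdd (Pi.single 0 1)
      have ht : t ∈ a.φ.ker := by
        apply Multiplicative.toAdd.injective
        funext i
        refine (ha1 _ i).trans ?_
        change (Pi.single 0 1 : Fin (D + 1) → ℤ) i.succ = 0
        simp
      have ht2 : ∀ (n : ℤ) (i : Fin (D + 1)), Multiplicative.toAdd (t ^ n) i =
          n * (Pi.single 0 1 : Fin (D + 1) → ℤ) i := by
        intro n i
        rw [toAdd_zpow]
        rfl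
      refine acyc_cyc ((MFm (D + 1) Z W).res a.φ.ker) ⟨t, ht⟩ ?_ ?_ ?_ m
      · intro g
        let g' : Multiplicative (Fin (D + 1) → ℤ) := g.1
        refine ⟨Multiplicative.toAdd g' 0, Subtype.ext ?_⟩
        change g' = t ^ (Multiplicative.toAdd g' 0)
        apply Multiplicative.toAdd.injective
        funext i
        rw [ht2]
        refine Fin.cases ?_ (fun i => ?_) i
        · simp
        · have h1 := congrArg (fun w : Multiplicative (Fin D → ℤ) => Multiplicative.toAdd w i) g.2
          have h2 := ha1 g' i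
          rw [← h2]
          simp only [Pi.single_eq_of_ne (Fin.succ_ne_zero i), mul_zero]
          exact h1
      · intro n hn
        have h1 : t ^ n = 1 := congrArg Subtype.val hn
        have h2 := ht2 n 0
        rw [h1] at h2
        simp at h2
        exact h2.symm
      · intro x
        obtain ⟨F, hF⟩ := MF_surj D p hp hW (x : MF (D + 1) Z W)
        exact ⟨F, Subtype.ext (funext fun y => hF y.1 y.2)⟩

end

end Pool.Agent.BRW
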