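import Pool.Agent.BRW.Lat
import Pool.Agent.BRW.Asm
import Pool.Agent.CG2.StrApp

/-!
# Number fields
-/

set_option autoImplicit false

noncomputable section

namespace Pool.Agent.BRW

open Matrix Filter Topology Pool.Agent.BR80 NumberField IsDedekindDomain
open scoped RestrictedProduct WithZeroTopology

variable (F : Type) [Field F] [NumberField F]

theorem nf_cont (v : HeightOneSpectrum (𝓞 F)) :
    Continuous (Valued.v : Valuation (v.adicCompletion F) VG) :=
  Valued.continuous_valuation_of_surjective (HeightOneSpectrum.valuedAdicCompletion_surjective F v)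

theorem nf_small (v : HeightOneSpectrum (𝓞 F)) (U : Set (v.adicCompletion F)) (hU : U ∈ 𝓝 0) :
    ∃ γ : VGˣ, ∀ x : v.adicCompletion F, Valued.v x < (γ : VG) → x ∈ U := by
  obtain ⟨γ, hγ⟩ := Valued.mem_nhds_zero.1 hU
  refine ⟨Units.mk0 (MonoidWithZeroHom.ValueGroup₀.embedding γ.1)
    (MonoidWithZeroHom.ValueGroup₀.embedding_unit_ne_zero _), fun x hx => ?_⟩
  exact hγ ((Valuation.restrict_lt_iff_lt_embedding _).2 hx)

theorem nf_ne : Nonempty (HeightOneSpectrum (𝓞 F)) := by
  obtain ⟨M, hM⟩ := Ideal.exists_maximal (𝓞 F)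
  exact ⟨⟨M, hM.isPrime, Ring.ne_bot_of_isMaximal_of_not_isField hM
    (RingOfIntegers.not_isField F)⟩⟩

/-- the finite places of a number field -/
def globNF : Glob where
  F := F
  ι := HeightOneSpectrum (𝓞 F)
  K := fun v => v.adicCompletion F
  val := fun v => Valued.v
  cont := nf_cont F
  emb := fun v => algebraMap F (v.adicCompletion F)
  fin := fun x => CG2.finite_val_gt x
  approx := fun T x γ => CG2.StrApp_approx T x γ
  small := nf_small F
  ne := nf_ne F

theorem nf_res (v : HeightOneSpectrum (𝓞 F)) :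
    ∃ p : ℕ, 0 < p ∧ (Valued.v ((p : ℕ) : v.adicCompletion F) : VG) < 1 := by
  refine ⟨Ideal.absNorm v.asIdeal, Nat.pos_of_ne_zero fun h => v.ne_bot
    (Ideal.absNorm_eq_zero_iff.1 h), ?_⟩
  rw [CG2.AdFin_val, ← map_natCast (algebraMap (𝓞 F) F), HeightOneSpectrum.valuation_lt_one_iff_mem]
  exact Ideal.absNorm_mem v.asIdeal

theorem nf_basis : ∃ (d : ℕ) (b : (Fin d → ℤ) →+ F), Function.Injective b ∧
    ∀ x : F, (∀ v : HeightOneSpectrum (𝓞 F),
      (Valued.v (algebraMap F (v.adicCompletion F) x) : VG) ≤ 1) ↔ ∃ l, b l = x := by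
  let B := Module.finBasis ℤ (𝓞 F)
  refine ⟨_, (algebraMap (𝓞 F) F).toAddMonoidHom.comp B.equivFun.symm.toAddEquiv.toAddMonoidHom,
    fun x y h => ?_, fun x => ?_⟩
  · exact B.equivFun.symm.injective (RingOfIntegers.coe_injective h)
  · have h1 : ∀ v : HeightOneSpectrum (𝓞 F), (Valued.v (algebraMap F (v.adicCompletion F) x) : VG) =
        v.valuation F x := fun v => HeightOneSpectrum.adicCompletion.valued_coe ..
    constructor
    · intro h
      obtain ⟨a, ha⟩ := HeightOneSpectrum.mem_integers_of_valuation_le_one F x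
        fun v => by rw [← h1]; exact h v
      refine ⟨B.equivFun a, ?_⟩
      change algebraMap (𝓞 F) F (B.equivFun.symm (B.equivFun a)) = x
      rw [LinearEquiv.symm_apply_apply]
      exact ha
    · rintro ⟨l, rfl⟩ v
      rw [h1]
      exact HeightOneSpectrum.valuation_le_one v (B.equivFun.symm l)

/-- the integral structure -/
def latNF : (globNF F).Lat where
  d := (nf_basis F).choose
  b := (nf_basis F).choose_spec.choose
  b_inj := (nf_basis F).choose_spec.choose_spec.1
  b_range := (nf_basis F).choose_spec.choose_spec.2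
  chr := fun N hN => (Nat.cast_ne_zero.2 hN.ne' : (N : F) ≠ 0)
  cpt := fun v => CG2.compactSpace_Ov v
  res := nf_res F

/-- the world of a number field -/
def worldNF (W : Type) [AddCommGroup W] [UniformSpace W] [IsUniformAddGroup W] [CompleteSpace W]
    [T2Space W] [NonarchimedeanAddGroup W] (p : ℕ) (hp : 0 < p)
    (hW : ∀ U : OpenAddSubgroup W, ∃ e : ℕ, ∀ w : W, p ^ e • w ∈ U) : World :=
  (globNF F).world W fun κ _ Z _ m => (globNF F).acyc (latNF F) p hp hW κ Z m

example (W : Type) [AddCommGroup W] [UniformSpace W] [IsUniformAddGroup W] [CompleteSpace W]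
    [T2Space W] [NonarchimedeanAddGroup W] (p : ℕ) (hp : 0 < p)
    (hW : ∀ U : OpenAddSubgroup W, ∃ e : ℕ, ∀ w : W, p ^ e • w ∈ U) :
    (worldNF F W p hp hW).F = F ∧ (worldNF F W p hp hW).W = W ∧
      (worldNF F W p hp hW).A = FiniteAdeleRing (𝓞 F) F := ⟨rfl, rfl, rfl⟩

end Pool.Agent.BRW
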